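import Mathlib

/-! A weighted form of Tutte's theorem: a fractional perfect matching that satisfies the odd set
inequalities (with at most one exceptional edge) is supported on a graph with a perfect matching. -/

namespace Pool.Agent.Lib.MP_1c8ed6_co.H54

open Finset SimpleGraph

theorem weighted_tutte {X : Type} [Fintype X] [DecidableEq X] (w : X → X → ℚ)
    (hsymm : ∀ x y, w x y = w y x) (hnn : ∀ x y, 0 ≤ w x y) (hdiag : ∀ x, w x x = 0)
    (hrow : ∀ x, ∑ y, w x y ≤ 1) (x0 x1 : X) (h01 : 0 < w x0 x1)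
    (hcut : ∀ C : Finset X, Odd C.card → (x0 ∈ C ↔ x1 ∈ C) → 1 ≤ ∑ x ∈ C, ∑ y ∈ Cᶜ, w x y) :
    ∃ μ : X → X, (∀ x, μ (μ x) = x) ∧ ∀ x, 0 < w x (μ x) := by
  classical
  let G : SimpleGraph X :=
    { Adj := fun x y => 0 < w x y
      symm := ⟨fun x y h => by rw [hsymm]; exact h⟩
      loopless := ⟨fun x h => by rw [hdiag] at h; exact lt_irrefl _ h⟩ }
  have hG : ∀ x y, G.Adj x y ↔ 0 < w x y := fun _ _ => Iff.rfl
  have hM : ∃ M : G.Subgraph, M.IsPerfectMatching := by
    rw [SimpleGraph.tutte]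
    intro U hU
    unfold IsTutteViolator at hU
    set H := ((⊤ : G.Subgraph).deleteVerts U).coe with hH
    let C : H.ConnectedComponent → Finset X := fun c =>
      univ.filter fun x => ∃ h : x ∈ ((⊤ : G.Subgraph).deleteVerts U).verts,
        (⟨x, h⟩ : ((⊤ : G.Subgraph).deleteVerts U).verts) ∈ c.supp
    have hCmem : ∀ c x, x ∈ C c ↔ ∃ h : x ∈ ((⊤ : G.Subgraph).deleteVerts U).verts,
        (⟨x, h⟩ : ((⊤ : G.Subgraph).deleteVerts U).verts) ∈ c.supp := by
      intro c x; simp only [C, mem_filter, mem_univ, true_and]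
    have hCcard : ∀ c, (C c).card = c.supp.ncard := by
      intro c
      rw [← Set.ncard_coe_finset, ← Set.ncard_image_of_injective c.supp Subtype.val_injective]
      congr 1
      ext x
      simp only [mem_coe, hCmem, Set.mem_image]
      constructor
      · rintro ⟨h, hx⟩; exact ⟨_, hx, rfl⟩
      · rintro ⟨⟨y, hy⟩, hx, rfl⟩; exact ⟨hy, hx⟩
    have hCU : ∀ c x, x ∈ C c → x ∉ U := by
      intro c x hx
      obtain ⟨h, -⟩ := (hCmem c x).1 hx
      simpa using h
    have hCeq : ∀ c c' x, x ∈ C c → x ∈ C c' → c = c' := by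
      intro c c' x hx hx'
      obtain ⟨h, h1⟩ := (hCmem c x).1 hx
      obtain ⟨h', h2⟩ := (hCmem c' x).1 hx'
      rw [ConnectedComponent.mem_supp_iff] at h1 h2
      rw [← h1, ← h2]
    have hCadj : ∀ c x y, x ∈ C c → 0 < w x y → y ∉ U → y ∈ C c := by
      intro c x y hx hxy hy
      obtain ⟨h, h1⟩ := (hCmem c x).1 hx
      have hy' : y ∈ ((⊤ : G.Subgraph).deleteVerts U).verts := by simpa using hy
      refine (hCmem c y).2 ⟨hy', ?_⟩
      refine (c.mem_supp_congr_adj (v := ⟨x, h⟩) (w := ⟨y, hy'⟩) ?_).1 h1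
      simp only [hH, Subgraph.coe_adj, Subgraph.deleteVerts_adj, Subgraph.verts_top,
        Set.mem_univ, true_and, Subgraph.top_adj]
      exact ⟨hCU c x hx, hy, hxy⟩
    let O : Finset H.ConnectedComponent := H.oddComponents.toFinite.toFinset
    have hO : ∀ c, c ∈ O ↔ Odd (C c).card := by
      intro c
      simp only [O, Set.Finite.mem_toFinset, oddComponents, Set.mem_ofPred_eq, hCcard]
    have hOcard : H.oddComponents.ncard = O.card := Set.ncard_eq_toFinset_card _ _
    let UF : Finset X := univ.filter (· ∈ U)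
    have hUF : U.ncard = UF.card := by
      rw [← Set.ncard_coe_finset]; congr 1; ext x; simp [UF]
    let cut : H.ConnectedComponent → ℚ := fun c => ∑ x ∈ C c, ∑ y ∈ (C c)ᶜ, w x y
    have hle : ∀ c, cut c ≤ ∑ x ∈ C c, ∑ y ∈ UF, w x y := by
      intro c
      refine sum_le_sum fun x hx => ?_
      rw [← sum_filter_ne_zero]
      refine sum_le_sum_of_subset_of_nonneg (fun y hy => ?_) fun y _ _ => hnn x y
      obtain ⟨hy, hne⟩ := mem_filter.1 hy
      simp only [UF, mem_filter, mem_univ, true_and]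
      by_contra hyU
      exact (mem_compl.1 hy) (hCadj c x y hx (lt_of_le_of_ne (hnn x y) (Ne.symm hne)) hyU)
    have htot : ∑ c ∈ O, cut c ≤ UF.card := by
      calc ∑ c ∈ O, cut c ≤ ∑ c ∈ O, ∑ x ∈ C c, ∑ y ∈ UF, w x y := sum_le_sum fun c _ => hle c
        _ = ∑ x ∈ O.biUnion C, ∑ y ∈ UF, w x y := by
          rw [sum_biUnion]
          intro c _ c' _ hne
          rw [Function.onFun, Finset.disjoint_left]
          intro x hx hx'
          exact hne (hCeq c c' x hx hx')
        _ ≤ ∑ x, ∑ y ∈ UF, w x y :=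
          sum_le_sum_of_subset_of_nonneg (subset_univ _)
            fun x _ _ => sum_nonneg fun y _ => hnn x y
        _ = ∑ y ∈ UF, ∑ x, w y x := by
          rw [sum_comm]
          exact sum_congr rfl fun y _ => sum_congr rfl fun x _ => hsymm x y
        _ ≤ ∑ y ∈ UF, (1 : ℚ) := sum_le_sum fun y _ => hrow y
        _ = UF.card := by simp
    have hpair : ∀ c a b, a ∈ C c → b ∉ C c → w a b ≤ cut c := by
      intro c a b ha hb
      calc w a b ≤ ∑ y ∈ (C c)ᶜ, w a y :=
            single_le_sum (f := fun y => w a y) (fun y _ => hnn a y) (mem_compl.2 hb)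
        _ ≤ cut c := single_le_sum (f := fun x => ∑ y ∈ (C c)ᶜ, w x y)
            (fun x _ => sum_nonneg fun y _ => hnn x y) ha
    rw [hOcard, hUF] at hU
    by_cases hex : ∃ c ∈ O, ¬ (x0 ∈ C c ↔ x1 ∈ C c)
    · obtain ⟨c0, hc0, hne⟩ := hex
      have hpos : 0 < cut c0 := by
        by_cases h0 : x0 ∈ C c0
        · exact lt_of_lt_of_le h01 (hpair c0 _ _ h0 (fun h => hne ⟨fun _ => h, fun _ => h0⟩))
        · have h1 : x1 ∈ C c0 := by
            by_contra h1
            exact hne ⟨fun h => absurd h h0, fun h => absurd h h1⟩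
          exact lt_of_lt_of_le (by rw [hsymm]; exact h01) (hpair c0 _ _ h1 h0)
      have hrest : ∀ c ∈ O.erase c0, 1 ≤ cut c := by
        intro c hc
        obtain ⟨hcne, hcO⟩ := mem_erase.1 hc
        refine hcut _ ((hO c).1 hcO) ?_
        have h10 : 0 < w x1 x0 := by rw [hsymm]; exact h01
        by_cases h0 : x0 ∈ C c0
        · have h1 : x1 ∉ C c0 := fun h => hne ⟨fun _ => h, fun _ => h0⟩
          have h1U : x1 ∈ U := by
            by_contra h
            exact h1 (hCadj c0 _ _ h0 h01 h)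
          exact ⟨fun h => absurd (hCeq _ _ _ h h0) hcne, fun h => absurd h1U (hCU _ _ h)⟩
        · have h1 : x1 ∈ C c0 := by
            by_contra h1
            exact hne ⟨fun h => absurd h h0, fun h => absurd h h1⟩
          have h0U : x0 ∈ U := by
            by_contra h
            exact h0 (hCadj c0 _ _ h1 h10 h)
          exact ⟨fun h => absurd h0U (hCU _ _ h), fun h => absurd (hCeq _ _ _ h h1) hcne⟩
      have h1 : ((O.erase c0).card : ℚ) ≤ ∑ c ∈ O.erase c0, cut c := by
        calc ((O.erase c0).card : ℚ) = ∑ c ∈ O.erase c0, (1 : ℚ) := by simp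
          _ ≤ _ := sum_le_sum hrest
      have h2 := add_sum_erase O cut hc0
      have h3 : ((O.erase c0).card : ℚ) < UF.card := by linarith
      have h4 : (O.erase c0).card < UF.card := by exact_mod_cast h3
      rw [card_erase_of_mem hc0] at h4
      omega
    · push Not at hex
      have h1 : (O.card : ℚ) ≤ ∑ c ∈ O, cut c := by
        calc (O.card : ℚ) = ∑ c ∈ O, (1 : ℚ) := by simp
          _ ≤ _ := sum_le_sum fun c hc => hcut _ ((hO c).1 hc) (hex c hc)
      have h4 : O.card ≤ UF.card := by exact_mod_cast h1.trans htot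
      omega
  obtain ⟨M, hM⟩ := hM
  rw [Subgraph.isPerfectMatching_iff] at hM
  choose μ hμ huniq using hM
  refine ⟨μ, fun x => (huniq (μ x) x (hμ x).symm).symm, fun x => (hG _ _).1 (hμ x).adj_sub⟩

end Pool.Agent.Lib.MP_1c8ed6_co.H54
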