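import Mathlib
import Pool.Agent.Lib.MP_1c8ed6_co.H54Tutte

/-! The vertex gadgets and the resulting `1/3`-factor. -/

namespace Pool.Agent.Lib.MP_1c8ed6_co.H54

open Finset

theorem cut_two_point {X : Type} [Fintype X] [DecidableEq X] (w : X → X → ℚ)
    (hnn : ∀ x y, 0 ≤ w x y) (C : Finset X) {x x' : X} (hx : x ∈ C) (hx' : x' ∉ C)
    (Z : Finset X) (hZ : x ∉ Z) (c : X → ℚ)
    (hc : ∀ z ∈ Z, c z ≤ w x z ∧ (z ≠ x' → c z ≤ w z x')) :
    ∑ z ∈ Z, c z ≤ ∑ a ∈ C, ∑ b ∈ Cᶜ, w a b := by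
  rw [← add_sum_erase C _ hx, ← sum_filter_add_sum_filter_not Z (· ∉ C)]
  refine add_le_add ?_ ?_
  · calc ∑ z ∈ Z with z ∉ C, c z ≤ ∑ z ∈ Z with z ∉ C, w x z :=
          sum_le_sum fun z hz => (hc z (mem_filter.1 hz).1).1
      _ ≤ _ := sum_le_sum_of_subset_of_nonneg
          (fun z hz => mem_compl.2 (mem_filter.1 hz).2) fun z _ _ => hnn x z
  · calc ∑ z ∈ Z with ¬ z ∉ C, c z ≤ ∑ z ∈ Z with ¬ z ∉ C, ∑ b ∈ Cᶜ, w z b := by
          refine sum_le_sum fun z hz => ?_
          obtain ⟨hz1, hz2⟩ := mem_filter.1 hz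
          have hzC : z ∈ C := not_not.1 hz2
          refine ((hc z hz1).2 fun h => hx' (h ▸ hzC)).trans ?_
          exact single_le_sum (f := fun b => w z b) (fun b _ => hnn z b) (mem_compl.2 hx')
      _ ≤ _ := by
          refine sum_le_sum_of_subset_of_nonneg (fun z hz => ?_)
            fun z _ _ => sum_nonneg fun b _ => hnn z b
          obtain ⟨hz1, hz2⟩ := mem_filter.1 hz
          exact mem_erase.2 ⟨fun h => hZ (h ▸ hz1), not_not.1 hz2⟩

theorem gadget {X V : Type} [Fintype X] [DecidableEq X] [DecidableEq V]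
    (vx : X → V) (tx : X → ZMod 3) (m : X → ℚ) (S : V → ℚ) (hm : ∀ x, 2 / 3 ≤ m x)
    (hS : ∀ v t, t ≠ 0 → ∑ y with vx y = v ∧ tx y = t, m y = S v) :
    ∃ w : X → X → ℚ, (∀ x y, w x y = w y x) ∧ (∀ x y, 0 ≤ w x y) ∧
      (∀ x y, 0 < w x y → vx y = vx x ∧ tx y = - tx x ∧ y ≠ x) ∧ (∀ x, ∑ y, w x y ≤ m x) ∧
      (∀ (C : Finset X) x x', x ∈ C → x' ∉ C → vx x = vx x' → (tx x = 0 ↔ tx x' = 0) →
        2 / 3 ≤ ∑ a ∈ C, ∑ b ∈ Cᶜ, w a b) ∧
      (∀ (C : Finset X) x x', x ∈ C → x' ∉ C → vx x = vx x' → tx x = tx x' → tx x ≠ 0 →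
        1 ≤ m x → 1 ≤ m x' → 1 ≤ ∑ a ∈ C, ∑ b ∈ Cᶜ, w a b) := by
  classical
  have hz3 : ∀ t : ZMod 3, t ≠ 0 → -t ≠ 0 ∧ -t ≠ t := by decide
  have hz3' : ∀ t t' : ZMod 3, t ≠ 0 → t' ≠ 0 → t = t' ∨ t' = -t := by decide
  have hm0 : ∀ x, 0 < m x := fun x => lt_of_lt_of_le (by norm_num) (hm x)
  let a0 : V → ℚ := fun v => (#{y | vx y = v ∧ tx y = 0} : ℚ) - 1
  have ha0 : ∀ x, tx x = 0 → a0 (vx x) = #(({y | vx y = vx x ∧ tx y = 0} : Finset X).erase x) := by
    intro x hx
    have hmem : x ∈ ({y | vx y = vx x ∧ tx y = 0} : Finset X) := by simp [hx]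
    have := card_erase_add_one hmem
    simp only [a0]
    rw [← this]
    push_cast
    ring
  have hSpos : ∀ x, tx x ≠ 0 → 0 < S (vx x) := by
    intro x hx
    rw [← hS (vx x) (tx x) hx]
    exact sum_pos (fun y _ => hm0 y) ⟨x, by simp⟩
  let w : X → X → ℚ := fun x y =>
    if vx y = vx x ∧ tx y = - tx x ∧ y ≠ x then
      (if tx x = 0 then 2 / (3 * a0 (vx x)) else m x * m y / S (vx x)) else 0
  have hw0 : ∀ x y, vx y = vx x → tx x = 0 → tx y = 0 → y ≠ x → w x y = 2 / (3 * a0 (vx x)) := by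
    intro x y h1 h2 h3 h4
    simp only [w]
    rw [if_pos ⟨h1, by rw [h2, h3, neg_zero], h4⟩, if_pos h2]
  have hw1 : ∀ x y, vx y = vx x → tx x ≠ 0 → tx y = - tx x → w x y = m x * m y / S (vx x) := by
    intro x y h1 h2 h3
    simp only [w]
    rw [if_pos ⟨h1, h3, fun h => (hz3 _ h2).2 (by rw [← h3, h])⟩, if_neg h2]
  have hnn : ∀ x y, 0 ≤ w x y := by
    intro x y
    simp only [w]
    split_ifs with h1 h2
    · rw [ha0 x h2]; positivity
    · exact (div_pos (mul_pos (hm0 x) (hm0 y)) (hSpos x h2)).le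
    · exact le_rfl
  have hsame : ∀ (C : Finset X) x x' (c : ℚ), x ∈ C → x' ∉ C → vx x = vx x' → tx x = tx x' →
      tx x ≠ 0 → c ≤ m x → c ≤ m x' → c ≤ ∑ a ∈ C, ∑ b ∈ Cᶜ, w a b := by
    intro C x x' c hx hx' hv ht ht0 hc hc'
    have hpos := hSpos x ht0
    have h1 := cut_two_point w hnn C hx hx' {y | vx y = vx x ∧ tx y = - tx x}
      (by simpa using (hz3 _ ht0).2.symm) (fun z => c * m z / S (vx x)) (by
        intro z hz
        obtain ⟨hz1, hz2⟩ := (mem_filter.1 hz).2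
        refine ⟨?_, fun _ => ?_⟩
        · rw [hw1 x z hz1 ht0 hz2]
          gcongr
          exact (hm0 z).le
        · rw [hw1 z x' (by rw [hz1, hv]) (by rw [hz2]; exact (hz3 _ ht0).1)
            (by rw [hz2, neg_neg, ht]), hz1, mul_comm (m z)]
          gcongr
          exact (hm0 z).le)
    rw [← sum_div, ← mul_sum, hS _ _ (hz3 _ ht0).1, mul_div_assoc, div_self hpos.ne', mul_one] at h1
    exact h1
  refine ⟨w, ?_, hnn, ?_, ?_, ?_, fun C x x' => hsame C x x' 1⟩
  · intro x y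
    by_cases h : vx y = vx x ∧ tx y = - tx x ∧ y ≠ x
    · obtain ⟨h1, h2, h3⟩ := h
      by_cases h4 : tx x = 0
      · have h5 : tx y = 0 := by rw [h2, h4, neg_zero]
        rw [hw0 x y h1 h4 h5 h3, hw0 y x h1.symm h5 h4 h3.symm, h1]
      · rw [hw1 x y h1 h4 h2, hw1 y x h1.symm (by rw [h2]; exact (hz3 _ h4).1)
          (by rw [h2, neg_neg]), h1, mul_comm]
    · have h' : ¬ (vx x = vx y ∧ tx x = - tx y ∧ x ≠ y) := fun h' =>
        h ⟨h'.1.symm, by rw [h'.2.1, neg_neg], h'.2.2.symm⟩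
      simp only [w]
      rw [if_neg h, if_neg h']
  · intro x y hxy
    by_contra h
    simp only [w] at hxy
    rw [if_neg h] at hxy
    exact lt_irrefl _ hxy
  · intro x
    by_cases h : tx x = 0
    · have h1 : ∑ y, w x y = ∑ y ∈ ({y | vx y = vx x ∧ tx y = 0} : Finset X).erase x,
          2 / (3 * a0 (vx x)) := by
        rw [← sum_subset (subset_univ (({y | vx y = vx x ∧ tx y = 0} : Finset X).erase x))]
        · refine sum_congr rfl fun y hy => ?_
          obtain ⟨h1, h2⟩ := mem_erase.1 hy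
          exact hw0 x y (mem_filter.1 h2).2.1 h (mem_filter.1 h2).2.2 h1
        · intro y _ hy
          simp only [w]
          rw [if_neg]
          rintro ⟨h1, h2, h3⟩
          exact hy (mem_erase.2 ⟨h3, by simp [h1, h2, h]⟩)
      rw [h1, sum_const, nsmul_eq_mul, ← ha0 x h]
      refine le_trans ?_ (hm x)
      by_cases h2 : a0 (vx x) = 0
      · rw [h2]; norm_num
      · apply le_of_eq; field_simp
    · have h1 : ∑ y, w x y = ∑ y with vx y = vx x ∧ tx y = - tx x, m x * m y / S (vx x) := by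
        rw [← sum_subset (subset_univ ({y | vx y = vx x ∧ tx y = - tx x} : Finset X))]
        · refine sum_congr rfl fun y hy => ?_
          exact hw1 x y (mem_filter.1 hy).2.1 h (mem_filter.1 hy).2.2
        · intro y _ hy
          simp only [w]
          rw [if_neg]
          rintro ⟨h1, h2, h3⟩
          exact hy (by simp [h1, h2])
      rw [h1, ← sum_div, ← mul_sum, hS _ _ (hz3 _ h).1, mul_div_assoc, div_self (hSpos x h).ne',
        mul_one]
  · intro C x x' hx hx' hv ht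
    have hne : x' ≠ x := fun h => hx' (h ▸ hx)
    by_cases h : tx x = 0
    · have h' := ht.1 h
      have h1 := cut_two_point w hnn C hx hx'
        (({y | vx y = vx x ∧ tx y = 0} : Finset X).erase x) (notMem_erase _ _)
        (fun _ => 2 / (3 * a0 (vx x))) (by
          intro z hz
          obtain ⟨h1, h2⟩ := mem_erase.1 hz
          obtain ⟨h3, h4⟩ := (mem_filter.1 h2).2
          refine ⟨(hw0 x z h3 h h4 h1).ge, fun h5 => ?_⟩
          rw [hw0 z x' (by rw [h3, hv]) h4 h' h5.symm, h3])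
      rw [sum_const, nsmul_eq_mul, ← ha0 x h] at h1
      refine le_trans (le_of_eq ?_) h1
      have h2 : a0 (vx x) ≠ 0 := by
        rw [ha0 x h, Nat.cast_ne_zero, card_ne_zero]
        exact ⟨x', mem_erase.2 ⟨hne, by simp [hv, h']⟩⟩
      field_simp
    · have h' : tx x' ≠ 0 := fun h' => h (ht.2 h')
      rcases hz3' _ _ h h' with h1 | h1
      · exact hsame C x x' _ hx hx' hv h1 h (hm x) (hm x')
      · by_cases h2 : ∃ y, y ∉ C ∧ vx y = vx x ∧ tx y = tx x
        · obtain ⟨y, hy1, hy2, hy3⟩ := h2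
          exact hsame C x y _ hx hy1 hy2.symm hy3.symm h (hm x) (hm y)
        · calc 2 / 3 ≤ m x' := hm x'
            _ = ∑ y with vx y = vx x ∧ tx y = tx x, m y * m x' / S (vx x) := by
              rw [← sum_div, ← sum_mul, hS _ _ h, mul_comm, mul_div_assoc,
                div_self (hSpos x h).ne', mul_one]
            _ ≤ ∑ y with vx y = vx x ∧ tx y = tx x, ∑ b ∈ Cᶜ, w y b := by
              refine sum_le_sum fun y hy => ?_
              obtain ⟨h3, h4⟩ := (mem_filter.1 hy).2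
              rw [← h3, ← hw1 y x' (by rw [h3, hv]) (by rw [h4]; exact h) (by rw [h4, h1])]
              exact single_le_sum (f := fun b => w y b) (fun b _ => hnn y b) (mem_compl.2 hx')
            _ ≤ _ := by
              refine sum_le_sum_of_subset_of_nonneg (fun y hy => ?_)
                fun z _ _ => sum_nonneg fun b _ => hnn z b
              by_contra h3
              exact h2 ⟨y, h3, (mem_filter.1 hy).2⟩

end Pool.Agent.Lib.MP_1c8ed6_co.H54
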