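import Mathlib
import Pool.Agent.Lib.MP_1c8ed6_co.H54Gadget

/-! The `1/3`-factor of a bridgeless split graph. -/

namespace Pool.Agent.Lib.MP_1c8ed6_co.H54

open Finset

theorem even_card_of_invol {X : Type} [DecidableEq X] (A : Finset X) (μ : X → X)
    (hμ : ∀ x ∈ A, μ (μ x) = x) (hA : ∀ x ∈ A, μ x ∈ A) (hne : ∀ x ∈ A, μ x ≠ x) :
    Even A.card := by
  have h : ∑ x ∈ A, (1 : ZMod 2) = 0 :=
    sum_involution (fun x _ => μ x) (fun _ _ => by decide) (fun x hx _ => hne x hx) hA hμ
  rw [sum_const, nsmul_eq_mul, mul_one] at h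
  exact (ZMod.natCast_eq_zero_iff_even).1 h

theorem third_factor {D V : Type} [Fintype D] [DecidableEq D] [Fintype V] [DecidableEq V]
    (σ : D → D) (hσσ : ∀ d, σ (σ d) = d) (h : D → V) (hne : ∀ d, h (σ d) ≠ h d)
    (ty : D → ZMod 3) (k : V → ℕ)
    (hk : ∀ v, #{d | h d = v ∧ ty d = 1} = #{d | h d = v ∧ ty d = -1} + 3 * k v)
    (d0 : D)
    (hcut : ∀ (S : V → Prop → Prop) (d : D),
      (∀ d', (S (h d') (ty d' = 0) ∧ ¬ S (h (σ d')) (ty (σ d') = 0)) ↔ d' = d) →
        d = d0 ∨ d = σ d0) :
    ∃ Q : Finset D, (∀ d, σ d ∈ Q ↔ d ∈ Q) ∧ (∀ v, Even #{d ∈ Q | h d = v ∧ ty d = 0}) ∧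
      ∀ v, #{d ∈ Q | h d = v ∧ ty d = 1} = #{d ∈ Q | h d = v ∧ ty d = -1} + 2 * k v := by
  classical
  have hσne : ∀ d, σ d ≠ d := fun d hd => hne d (by rw [hd])
  obtain ⟨I, _, _, π, hI⟩ : ∃ (I : Type) (_ : Fintype I) (_ : DecidableEq I) (π : I → V),
      ∀ v, #{x : I | π x = v} = 2 * k v := by
    refine ⟨Σ v, Fin (2 * k v), inferInstance, inferInstance, Sigma.fst, fun v => ?_⟩
    have : ({x | x.1 = v} : Finset (Σ v, Fin (2 * k v)))
        = ({v} : Finset V).sigma fun _ => univ := by
      ext x; simp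
    rw [this, card_sigma]
    simp
  let vx : D ⊕ I → V := Sum.elim h π
  let tx : D ⊕ I → ZMod 3 := Sum.elim ty (fun _ => -1)
  let m : D ⊕ I → ℚ := Sum.elim (fun _ => 2 / 3) (fun _ => 1)
  have h1m : (1 : ZMod 3) ≠ -1 := by decide
  have hm10 : (-1 : ZMod 3) ≠ 0 := by decide
  obtain ⟨wG, hGs, hGn, hGp, hGr, hG1, hG2⟩ := gadget vx tx m
    (fun v => 2 / 3 * (#{d | h d = v ∧ ty d = 1} : ℚ))
    (by rintro (d | x) <;> simp only [m, Sum.elim_inl, Sum.elim_inr] <;> norm_num) (by
      intro v t ht
      have ht' : t = 1 ∨ t = -1 := by revert t; decide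
      rw [sum_filter, Fintype.sum_sum_type]
      have e1 : ∀ a, (if vx (Sum.inl a) = v ∧ tx (Sum.inl a) = t then m (Sum.inl a) else 0) =
          if h a = v ∧ ty a = t then 2 / 3 else 0 := fun a => if_congr Iff.rfl rfl rfl
      have e2 : ∀ a, (if vx (Sum.inr a) = v ∧ tx (Sum.inr a) = t then m (Sum.inr a) else 0) =
          if π a = v ∧ -1 = t then 1 else 0 := fun a => if_congr Iff.rfl rfl rfl
      rw [sum_congr rfl fun a _ => e1 a, sum_congr rfl fun a _ => e2 a]
      rw [← sum_filter, ← sum_filter, sum_const, sum_const, nsmul_eq_mul, nsmul_eq_mul]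
      rcases ht' with rfl | rfl
      · simp only [h1m.symm, and_false, filter_false, card_empty]
        push_cast
        ring
      · simp only [and_true]
        rw [hI, hk]
        push_cast
        ring)
  let wE : D ⊕ I → D ⊕ I → ℚ := fun x y =>
    if ∃ d, x = Sum.inl d ∧ y = Sum.inl (σ d) then 1 / 3 else 0
  have hEn : ∀ x y, 0 ≤ wE x y := by
    intro x y; simp only [wE]; split_ifs <;> norm_num
  have hEd : ∀ d, wE (Sum.inl d) (Sum.inl (σ d)) = 1 / 3 := by
    intro d; simp only [wE]; rw [if_pos ⟨d, rfl, rfl⟩]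
  have hE0 : ∀ x y, wE x y ≠ 0 → ∃ d, x = Sum.inl d ∧ y = Sum.inl (σ d) := by
    intro x y hxy
    by_contra hh
    simp only [wE] at hxy
    rw [if_neg hh] at hxy
    exact hxy rfl
  obtain ⟨μ, hμμ, hμ⟩ := weighted_tutte (fun x y => wE x y + wG x y)
    (by
      intro x y
      rw [hGs x y]
      congr 1
      simp only [wE]
      refine if_congr ⟨?_, ?_⟩ rfl rfl <;>
      · rintro ⟨d, rfl, rfl⟩
        exact ⟨σ d, rfl, by rw [hσσ]⟩)
    (fun x y => add_nonneg (hEn x y) (hGn x y))
    (by
      intro x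
      have h1 : wE x x = 0 := by
        by_contra hh
        obtain ⟨d, rfl, h2⟩ := hE0 _ _ hh
        exact hσne d (Sum.inl_injective h2).symm
      have h2 : wG x x = 0 := by
        by_contra hh
        exact (hGp x x (lt_of_le_of_ne (hGn x x) (Ne.symm hh))).2.2 rfl
      rw [h1, h2, add_zero])
    (by
      intro x
      rw [sum_add_distrib]
      have h2 := hGr x
      rcases x with d | x
      · have h1 : ∑ y, wE (Sum.inl d) y = 1 / 3 := by
          rw [sum_eq_single (Sum.inl (σ d)), hEd]
          · intro y _ hy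
            by_contra hh
            obtain ⟨d', h3, h4⟩ := hE0 _ _ hh
            exact hy (by rw [h4, Sum.inl_injective h3])
          · simp
        simp only [m, Sum.elim_inl] at h2
        linarith
      · have h1 : ∑ y, wE (Sum.inr x) y = 0 := by
          refine sum_eq_zero fun y _ => ?_
          by_contra hh
          obtain ⟨d', h3, -⟩ := hE0 _ _ hh
          exact Sum.inr_ne_inl h3
        simp only [m, Sum.elim_inr] at h2
        linarith)
    (Sum.inl d0) (Sum.inl (σ d0))
    (by rw [hEd]; have := hGn (Sum.inl d0) (Sum.inl (σ d0)); linarith)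
    (by
      intro C hC hC0
      simp only [sum_add_distrib]
      have hGnn : 0 ≤ ∑ x ∈ C, ∑ y ∈ Cᶜ, wG x y :=
        sum_nonneg fun x _ => sum_nonneg fun y _ => hGn x y
      let K : Finset D := {d | Sum.inl d ∈ C ∧ Sum.inl (σ d) ∉ C}
      have hK : (K.card : ℚ) / 3 ≤ ∑ x ∈ C, ∑ y ∈ Cᶜ, wE x y := by
        calc (K.card : ℚ) / 3 = ∑ d ∈ K, (1 / 3 : ℚ) := by
              rw [sum_const, nsmul_eq_mul]; ring
          _ ≤ ∑ d ∈ K, ∑ y ∈ Cᶜ, wE (Sum.inl d) y := by
              refine sum_le_sum fun d hd => ?_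
              rw [← hEd d]
              exact single_le_sum (f := fun y => wE (Sum.inl d) y) (fun y _ => hEn _ y)
                (mem_compl.2 (mem_filter.1 hd).2.2)
          _ = ∑ x ∈ K.map ⟨Sum.inl, Sum.inl_injective⟩, ∑ y ∈ Cᶜ, wE x y := by
              rw [sum_map]; rfl
          _ ≤ _ := by
              refine sum_le_sum_of_subset_of_nonneg (fun x hx => ?_)
                fun x _ _ => sum_nonneg fun y _ => hEn x y
              obtain ⟨d, hd, rfl⟩ := mem_map.1 hx
              exact (mem_filter.1 hd).2.1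
      by_cases hin : ∃ x x' : I, π x = π x' ∧ Sum.inr x ∈ C ∧ Sum.inr x' ∉ C
      · obtain ⟨x, x', h1, h2, h3⟩ := hin
        have := hG2 C _ _ h2 h3 h1 rfl hm10 le_rfl le_rfl
        have h4 : (0 : ℚ) ≤ (K.card : ℚ) / 3 := by positivity
        linarith
      · have hIe : Even #{x : I | Sum.inr x ∈ C} := by
          rw [card_eq_sum_card_fiberwise (f := π) (t := univ) (fun _ _ => mem_univ _)]
          refine even_sum _ fun v _ => ?_
          by_cases hv : ∃ x : I, π x = v ∧ Sum.inr x ∈ C
          · obtain ⟨x, hx1, hx2⟩ := hv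
            have : ({a ∈ ({x : I | Sum.inr x ∈ C} : Finset I) | π a = v} : Finset I)
                = ({x : I | π x = v} : Finset I) := by
              ext y
              simp only [mem_filter, mem_univ, true_and, and_iff_right_iff_imp]
              intro hy
              by_contra h3
              exact hin ⟨x, y, by rw [hx1, hy], hx2, h3⟩
            rw [this, hI]
            exact even_two_mul _
          · have : ({a ∈ ({x : I | Sum.inr x ∈ C} : Finset I) | π a = v} : Finset I) = ∅ := by
              ext y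
              simp only [mem_filter, mem_univ, true_and, notMem_empty, iff_false]
              exact fun hy => hv ⟨y, hy.2, hy.1⟩
            rw [this]
            simp
        have hCc : C.card = #{d : D | Sum.inl d ∈ C} + #{x : I | Sum.inr x ∈ C} := by
          rw [← card_toLeft_add_card_toRight]
          congr 2 <;> ext <;> simp
        have hDe : Even #{d : D | Sum.inl d ∈ C ∧ Sum.inl (σ d) ∈ C} := by
          refine even_card_of_invol _ σ (fun d _ => hσσ d) (fun d hd => ?_) fun d _ => hσne d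
          simp only [mem_filter, mem_univ, true_and, hσσ] at hd ⊢
          exact hd.symm
        have hsplit := card_filter_add_card_filter_not
          (s := ({d : D | Sum.inl d ∈ C} : Finset D)) (fun d => Sum.inl (σ d) ∈ C)
        rw [filter_filter, filter_filter] at hsplit
        have hKodd : Odd K.card := by
          rw [Nat.odd_iff] at hC ⊢
          rw [Nat.even_iff] at hIe hDe
          simp only [K]
          omega
        by_cases hK3 : 3 ≤ K.card
        · have : (3 : ℚ) ≤ K.card := by exact_mod_cast hK3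
          linarith
        · have hK1 : K.card = 1 := by
            rw [Nat.odd_iff] at hKodd
            omega
          by_cases hsp : ∃ d d', h d = h d' ∧ (ty d = 0 ↔ ty d' = 0) ∧ Sum.inl d ∈ C ∧
              Sum.inl d' ∉ C
          · obtain ⟨d, d', h1, h2, h3, h4⟩ := hsp
            have := hG1 C _ _ h3 h4 h1 h2
            rw [hK1] at hK
            push_cast at hK
            linarith
          · exfalso
            obtain ⟨d, hd⟩ := card_eq_one.1 hK1
            have hS : ∀ d', (∃ d'', h d'' = h d' ∧ (ty d'' = 0 ↔ ty d' = 0) ∧ Sum.inl d'' ∈ C) ↔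
                Sum.inl d' ∈ C := by
              intro d'
              refine ⟨?_, fun h1 => ⟨d', rfl, Iff.rfl, h1⟩⟩
              rintro ⟨d'', h1, h2, h3⟩
              by_contra h4
              exact hsp ⟨d'', d', h1, h2, h3, h4⟩
            have hKd : ∀ d', (Sum.inl d' ∈ C ∧ Sum.inl (σ d') ∉ C) ↔ d' = d := by
              intro d'
              rw [← mem_singleton, ← hd]
              simp [K]
            have h5 := (hKd d).2 rfl
            rcases hcut (fun v p => ∃ d'', h d'' = v ∧ (ty d'' = 0 ↔ p) ∧ Sum.inl d'' ∈ C) d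
              (fun d' => by rw [hS, hS, hKd]) with rfl | rfl
            · exact h5.2 (hC0.1 h5.1)
            · rw [hσσ] at h5
              exact h5.2 (hC0.2 h5.1))
  let Q : Finset D := {d | μ (Sum.inl d) ≠ Sum.inl (σ d)}
  have hQ : ∀ d, d ∈ Q ↔ μ (Sum.inl d) ≠ Sum.inl (σ d) := fun d => by simp [Q]
  let P : D ⊕ I → Prop := fun x => ∀ d, x = Sum.inl d → d ∈ Q
  have hP : ∀ x, P x → vx (μ x) = vx x ∧ tx (μ x) = - tx x ∧ μ x ≠ x := by
    intro x hx
    refine hGp _ _ ?_
    have h1 := hμ x
    have h2 : wE x (μ x) = 0 := by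
      by_contra hh
      obtain ⟨d, rfl, h2⟩ := hE0 _ _ hh
      exact (hQ d).1 (hx d rfl) h2
    simpa [h2] using h1
  have hQσ : ∀ d, σ d ∈ Q ↔ d ∈ Q := by
    intro d
    rw [hQ, hQ, hσσ, not_iff_not]
    constructor <;>
    · intro h1
      rw [← h1, hμμ]
  have hPμ : ∀ x, P x → P (μ x) := by
    intro x hx d hd
    rw [hQ, ← hd, hμμ]
    intro h1
    have h2 := (hP x hx).1
    rw [hd, h1] at h2
    exact hne d h2.symm
  have hcount : ∀ v t, #{x | P x ∧ vx x = v ∧ tx x = t} = #{d ∈ Q | h d = v ∧ ty d = t} +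
      if t = -1 then 2 * k v else 0 := by
    intro v t
    rw [← card_toLeft_add_card_toRight]
    congr 1
    · congr 1
      ext d
      simp [P, vx, tx]
    · split_ifs with ht
      · rw [← hI]
        congr 1
        ext x
        simp [P, vx, tx, ht]
      · rw [card_eq_zero]
        ext x
        simp [P, vx, tx, Ne.symm ht]
  refine ⟨Q, hQσ, fun v => ?_, fun v => ?_⟩
  · have h1 := hcount v 0
    rw [if_neg hm10.symm, add_zero] at h1
    rw [← h1]
    refine even_card_of_invol _ μ (fun x _ => hμμ x) (fun x hx => ?_) fun x hx => ?_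
    · obtain ⟨h2, h3, h4⟩ := (mem_filter.1 hx).2
      obtain ⟨h5, h6, -⟩ := hP x h2
      exact mem_filter.2 ⟨mem_univ _, hPμ x h2, by rw [h5, h3], by rw [h6, h4, neg_zero]⟩
    · exact (hP x (mem_filter.1 hx).2.1).2.2
  · have h1 := hcount v 1
    have h2 := hcount v (-1)
    rw [if_neg h1m, add_zero] at h1
    rw [if_pos rfl] at h2
    rw [← h1, ← h2]
    refine card_bij' (fun x _ => μ x) (fun x _ => μ x) (fun x hx => ?_) (fun x hx => ?_)
      (fun x _ => hμμ x) (fun x _ => hμμ x) <;>
    · obtain ⟨h2, h3, h4⟩ := (mem_filter.1 hx).2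
      obtain ⟨h5, h6, -⟩ := hP x h2
      exact mem_filter.2 ⟨mem_univ _, hPμ x h2, by rw [h5, h3], by rw [h6, h4]; try rw [neg_neg]⟩

end Pool.Agent.Lib.MP_1c8ed6_co.H54
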