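import Mathlib
import Pool.Agent.Shared.ModOrient.Orient
import Pool.Agent.Lib.MP_1c8ed6_co.H54Factor

/-! From a labelling that is balanced modulo `3` to an exactly balanced labelling. -/

namespace Pool.Agent.Lib.MP_1c8ed6_co.H54

open Finset

theorem card_split {D : Type} [DecidableEq D] (σ : D → D) (hσσ : ∀ d, σ (σ d) = d)
    (Q R : Finset D) (hQ : ∀ d, σ d ∈ Q ↔ d ∈ Q) (hRQ : R ⊆ Q)
    (hR : ∀ d ∈ Q, σ d ∈ R ↔ d ∉ R) (p : D → Prop) [DecidablePred p] :
    #{d ∈ Q | p d} = #{d ∈ R | p d} + #{d ∈ R | p (σ d)} := by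
  rw [← card_filter_add_card_filter_not (s := {d ∈ Q | p d}) (· ∈ R)]
  congr 1
  · congr 1
    ext d
    simp only [mem_filter]
    exact ⟨fun h => ⟨h.2, h.1.2⟩, fun h => ⟨⟨hRQ h.1, h.2⟩, h.1⟩⟩
  · refine card_bij' (fun d _ => σ d) (fun d _ => σ d) (fun d hd => ?_) (fun d hd => ?_)
      (fun d _ => hσσ d) (fun d _ => hσσ d)
    · simp only [mem_filter, hσσ] at hd ⊢
      exact ⟨(hR d hd.1.1).2 hd.2, hd.1.2⟩
    · simp only [mem_filter] at hd ⊢
      refine ⟨⟨(hQ d).2 (hRQ hd.1), hd.2⟩, fun h => ?_⟩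
      exact (hR d (hRQ hd.1)).1 h hd.1

theorem exists_reps {D : Type} [Fintype D] [DecidableEq D] (σ : D → D) (hσσ : ∀ d, σ (σ d) = d)
    (hσne : ∀ d, σ d ≠ d) (Q : Finset D) (hQ : ∀ d, σ d ∈ Q ↔ d ∈ Q) :
    ∃ R : Finset D, R ⊆ Q ∧ ∀ d ∈ Q, σ d ∈ R ↔ d ∉ R := by
  let r := Fintype.equivFin D
  refine ⟨{d ∈ Q | r d < r (σ d)}, filter_subset _ _, fun d hd => ?_⟩
  have h1 : r (σ d) ≠ r d := fun h => hσne d (r.injective h)
  simp only [mem_filter, hσσ, hQ, hd, true_and, not_lt]
  exact ⟨le_of_lt, fun h => lt_of_le_of_ne h h1⟩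

theorem balanced_orientation {D N : Type} [Fintype D] [DecidableEq D] [Fintype N] [DecidableEq N]
    (σ : D → D) (hσσ : ∀ d, σ (σ d) = d) (hσne : ∀ d, σ d ≠ d) (Q : Finset D)
    (hQ : ∀ d, σ d ∈ Q ↔ d ∈ Q) (ν : D → N) (hev : ∀ n, Even #{d ∈ Q | ν d = n}) :
    ∃ O : Finset D, O ⊆ Q ∧ (∀ d ∈ Q, σ d ∈ O ↔ d ∉ O) ∧
      ∀ n, 2 * #{d ∈ O | ν d = n} = #{d ∈ Q | ν d = n} := by
  classical
  obtain ⟨R, hRQ, hR⟩ := exists_reps σ hσσ hσne Q hQ
  choose y hy using hev
  have hsum : ∀ S : Finset N, 2 * ∑ n ∈ S, y n = #{d ∈ R | ν d ∈ S} + #{d ∈ R | ν (σ d) ∈ S} := by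
    intro S
    rw [← card_split σ hσσ Q R hQ hRQ hR (fun d => ν d ∈ S), mul_sum,
      card_eq_sum_card_fiberwise (f := ν) (s := {d ∈ Q | ν d ∈ S}) (t := S)
        (fun d hd => (mem_filter.1 hd).2)]
    refine sum_congr rfl fun n hn => ?_
    rw [two_mul, ← hy n, filter_filter]
    congr 1
    ext d
    simp only [mem_filter]
    exact ⟨fun h => ⟨h.1, h.2 ▸ hn, h.2⟩, fun h => ⟨h.1, h.2.2⟩⟩
  have hsub : ∀ (p : D → Prop) [DecidablePred p], #{e : R | p e} = #{d ∈ R | p d} := by
    intro p _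
    refine card_bij (fun e _ => e.1) (fun e he => ?_) (fun a _ b _ h => Subtype.ext h)
      fun d hd => ?_
    · exact mem_filter.2 ⟨e.2, (mem_filter.1 he).2⟩
    · exact ⟨⟨d, (mem_filter.1 hd).1⟩, mem_filter.2 ⟨mem_univ _, (mem_filter.1 hd).2⟩, rfl⟩
  obtain ⟨o, ho, hoy⟩ := Pool.Agent.Shared.ModOrient.hakimi (fun e : R => ν e)
    (fun e : R => ν (σ e)) (fun n => (y n : ℤ)) (by
      have := hsum univ
      simp only [mem_univ, filter_true] at this
      rw [Fintype.card_coe, ← Nat.cast_sum]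
      congr 1
      omega) (by
      intro S
      have h1 := hsum S
      rw [hsub (fun d => ν d ∈ S ∧ ν (σ d) ∈ S), ← Nat.cast_sum]
      have h2 : #{d ∈ R | ν d ∈ S ∧ ν (σ d) ∈ S} ≤ #{d ∈ R | ν d ∈ S} :=
        card_le_card fun d hd => mem_filter.2 ⟨(mem_filter.1 hd).1, (mem_filter.1 hd).2.1⟩
      have h3 : #{d ∈ R | ν d ∈ S ∧ ν (σ d) ∈ S} ≤ #{d ∈ R | ν (σ d) ∈ S} :=
        card_le_card fun d hd => mem_filter.2 ⟨(mem_filter.1 hd).1, (mem_filter.1 hd).2.2⟩
      exact_mod_cast (by omega))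
  let o' : D → N := fun d => if hd : d ∈ R then o ⟨d, hd⟩ else ν d
  have ho' : ∀ e : R, o' e = o e := fun e => by simp [o', e.2]
  let O : Finset D := {d ∈ Q | (d ∈ R ∧ o' d = ν d) ∨ (d ∉ R ∧ o' (σ d) ≠ ν (σ d))}
  refine ⟨O, filter_subset _ _, fun d hd => ?_, fun n => ?_⟩
  · simp only [O, mem_filter, hQ, hd, true_and, hσσ, hR d hd]
    tauto
  · have h1 : #{d ∈ O | ν d = n} = y n := by
      have h2 : #{e : R | o e = n} = y n := by exact_mod_cast hoy n
      rw [← h2, ← funext ho', hsub (fun d => o' d = n)]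
      simp only [O, filter_filter]
      rw [card_split σ hσσ Q R hQ hRQ hR,
        ← card_filter_add_card_filter_not (s := {d ∈ R | o' d = n}) (fun d => o' d = ν d),
        filter_filter, filter_filter]
      congr 1
      · congr 1
        refine filter_congr fun d hd => ?_
        simp only [hd, true_and, not_true_eq_false, false_and, or_false]
        exact ⟨fun h => ⟨h.1.trans h.2, h.1⟩, fun h => ⟨h.2, h.2.symm.trans h.1⟩⟩
      · congr 1
        refine filter_congr fun d hd => ?_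
        have h3 : σ d ∉ R := fun h => (hR d (hRQ hd)).1 h hd
        have h4 := ho ⟨d, hd⟩
        rw [← ho'] at h4
        simp only [h3, false_and, not_false_eq_true, true_and, false_or, hσσ]
        constructor
        · rintro ⟨h5, h6⟩
          exact ⟨(h4.resolve_left h5).trans h6, h5⟩
        · rintro ⟨h5, h6⟩
          exact ⟨h6, (h4.resolve_left h6).symm.trans h5⟩
    rw [h1, hy n, two_mul]

/-- The integer representative in `{-1, 0, 1}`. -/
def zval (t : ZMod 3) : ℤ := if t = 1 then 1 else if t = -1 then -1 else 0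

theorem sum_zval {D : Type} (A : Finset D) (f : D → ZMod 3) :
    ∑ d ∈ A, zval (f d) = (#{d ∈ A | f d = 1} : ℤ) - #{d ∈ A | f d = -1} := by
  rw [natCast_card_filter, natCast_card_filter, ← sum_sub_distrib]
  refine sum_congr rfl fun d _ => ?_
  generalize f d = t
  revert t
  decide

theorem exact_labels {D V : Type} [Fintype D] [DecidableEq D] [Fintype V] [DecidableEq V]
    (σ : D → D) (hσσ : ∀ d, σ (σ d) = d) (h : D → V) (hne : ∀ d, h (σ d) ≠ h d)
    (φ : D → ZMod 3) (hsum : ∀ d, φ d + φ (σ d) = 1) (hv : ∀ v, ∑ d with h d = v, φ d = 0)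
    (h2 : ∀ v, 2 ≤ #{d | h d = v ∧ φ d = -1}) (d0 : D)
    (hcut : ∀ (S : V → Prop → Prop) (d : D),
      (∀ d', (S (h d') (φ d' = 0) ∧ ¬ S (h (σ d')) (φ (σ d') = 0)) ↔ d' = d) →
        d = d0 ∨ d = σ d0) :
    ∃ l : D → ZMod 3, (∀ d, l d + l (σ d) = 1) ∧
      (∀ v, #{d | h d = v ∧ l d = 1} = #{d | h d = v ∧ l d = -1}) ∧
      ∀ v, ∃ d, h d = v ∧ l d = -1 := by
  classical
  have hσne : ∀ d, σ d ≠ d := fun d hd => hne d (by rw [hd])
  have hsk : ∀ v, ∃ (s : ZMod 3) (k : ℕ), (s = 1 ∨ s = -1) ∧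
      #{d | h d = v ∧ φ d * s = 1} = #{d | h d = v ∧ φ d * s = -1} + 3 * k := by
    intro v
    have h1 : ((∑ d with h d = v, zval (φ d) : ℤ) : ZMod 3) = 0 := by
      rw [Int.cast_sum, ← hv v]
      refine sum_congr rfl fun d _ => ?_
      generalize φ d = t
      revert t
      decide
    rw [sum_zval, filter_filter, filter_filter, ZMod.intCast_zmod_eq_zero_iff_dvd] at h1
    obtain ⟨c, hc⟩ := h1
    by_cases hc0 : 0 ≤ c
    · refine ⟨1, c.toNat, Or.inl rfl, ?_⟩
      simp only [mul_one]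
      omega
    · refine ⟨-1, (-c).toNat, Or.inr rfl, ?_⟩
      simp only [mul_neg, mul_one, neg_inj, neg_eq_iff_eq_neg (b := (1 : ZMod 3))]
      omega
  choose s k hs hk using hsk
  have hty0 : ∀ d, (φ d * s (h d) = 0) = (φ d = 0) := by
    intro d
    rcases hs (h d) with h1 | h1 <;> simp [h1]
  obtain ⟨Q, hQ, hQ0, hQ1⟩ := third_factor σ hσσ h hne (fun d => φ d * s (h d)) k
    (fun v => by
      have e : ∀ t, ({d | h d = v ∧ φ d * s (h d) = t} : Finset D) =
          ({d | h d = v ∧ φ d * s v = t} : Finset D) := fun t =>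
        filter_congr fun d _ => and_congr_right fun hd => by rw [hd]
      rw [e, e, hk])
    d0 (fun S d hd => hcut S d (by simpa only [hty0] using hd))
  have hA : ∀ v, ∃ A : Finset D, A ⊆ {d ∈ Q | h d = v ∧ φ d = -1} ∧ Even #A ∧
      (2 ≤ #{d ∈ Q | h d = v ∧ φ d = -1} → #A = 2) := by
    intro v
    by_cases h3 : 2 ≤ #{d ∈ Q | h d = v ∧ φ d = -1}
    · obtain ⟨A, hA1, hA2⟩ := exists_subset_card_eq h3
      exact ⟨A, hA1, by rw [hA2]; decide, fun _ => hA2⟩
    · exact ⟨∅, empty_subset _, by simp, fun h4 => absurd h4 h3⟩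
  choose A hA1 hA2 hA3 using hA
  have hAm : ∀ v d, d ∈ A v → d ∈ Q ∧ h d = v ∧ φ d = -1 := fun v d hd => mem_filter.1 (hA1 v hd)
  let j : D → Fin 3 := fun d => if φ d = 0 then 0 else if d ∈ A (h d) then 1 else 2
  have hj1 : ∀ v, ({d ∈ Q | (h d, j d) = (v, 1)} : Finset D) = A v := by
    intro v
    ext d
    simp only [mem_filter, Prod.mk.injEq, j]
    constructor
    · rintro ⟨-, rfl, h3⟩
      split_ifs at h3 with h4 h5
      · exact absurd h3 (by decide)
      · exact h5
      · exact absurd h3 (by decide)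
    · intro hd
      obtain ⟨h3, rfl, h4⟩ := hAm v d hd
      refine ⟨h3, rfl, ?_⟩
      rw [if_neg (by rw [h4]; decide), if_pos hd]
  obtain ⟨O, hOQ, hO, hOb⟩ := balanced_orientation σ hσσ hσne Q hQ (fun d => (h d, j d)) (by
    rintro ⟨v, i⟩
    have e0 : ({d ∈ Q | (h d, j d) = (v, 0)} : Finset D) =
        {d ∈ Q | h d = v ∧ φ d * s (h d) = 0} := by
      refine filter_congr fun d _ => ?_
      simp only [Prod.mk.injEq, j, hty0]
      refine and_congr_right fun _ => ?_
      split_ifs with h4 h5 <;> simp [h4]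
    have e2 : #{d ∈ Q | (h d, j d) = (v, 1)} + #{d ∈ Q | (h d, j d) = (v, 2)} =
        #{d ∈ Q | h d = v ∧ φ d * s (h d) = 1} + #{d ∈ Q | h d = v ∧ φ d * s (h d) = -1} := by
      simp only [card_filter, ← sum_add_distrib]
      refine sum_congr rfl fun d _ => ?_
      by_cases h3 : h d = v
      · have h4 : ∀ p s' : ZMod 3, (s' = 1 ∨ s' = -1) → p ≠ 0 →
            (if p * s' = 1 then 1 else 0) + (if p * s' = -1 then 1 else 0) = 1 := by decide
        simp only [Prod.mk.injEq, h3, true_and, j]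
        by_cases h5 : φ d = 0
        · simp [h5]
        · rw [h4 _ _ (hs v) h5, if_neg h5]
          split_ifs <;> simp_all
      · simp [h3]
    have e1 := hA2 v
    rw [← hj1] at e1
    have e3 := hQ1 v
    fin_cases i
    · exact e0 ▸ hQ0 v
    · exact e1
    · rw [Nat.even_iff] at e1 ⊢
      change #{d ∈ Q | (h d, j d) = (v, 2)} % 2 = 0
      omega)
  let l : D → ZMod 3 := fun d => if d ∈ O then φ d + 1 else if d ∈ Q then φ d - 1 else φ d
  have hbal : ∀ v, #{d | h d = v ∧ l d = 1} = #{d | h d = v ∧ l d = -1} := by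
    intro v
    have f1 : ∑ d with h d = v, zval (φ d * s v) = 3 * k v := by
      rw [sum_zval, filter_filter, filter_filter, hk]
      push_cast
      ring
    have f2 : ∑ d with h d = v, (if d ∈ Q then zval (φ d * s v) else 0) = 2 * k v := by
      have e : ∀ t, ({d ∈ ({d ∈ ({d | h d = v} : Finset D) | d ∈ Q} : Finset D) | φ d * s v = t} :
          Finset D) = {d ∈ Q | h d = v ∧ φ d * s (h d) = t} := by
        intro t
        ext d
        simp only [mem_filter, mem_univ, true_and]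
        constructor
        · rintro ⟨⟨rfl, h3⟩, h4⟩
          exact ⟨h3, rfl, h4⟩
        · rintro ⟨h3, rfl, h4⟩
          exact ⟨⟨rfl, h3⟩, h4⟩
      rw [← sum_filter, sum_zval, e, e, hQ1]
      push_cast
      ring
    have f3 : ∀ i, ∑ d with h d = v,
        (if j d = i then (if d ∈ O then (1 : ℤ) else if d ∈ Q then -1 else 0) else 0) = 0 := by
      intro i
      have h3 : (2 : ℤ) * #{d ∈ O | (h d, j d) = (v, i)} - #{d ∈ Q | (h d, j d) = (v, i)} = 0 := by
        have := hOb (v, i)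
        omega
      have e : ∀ B : Finset D, (#{d ∈ B | (h d, j d) = (v, i)} : ℤ) =
          ∑ d with h d = v, if d ∈ B ∧ j d = i then 1 else 0 := by
        intro B
        rw [← natCast_card_filter]
        congr 2
        ext d
        simp only [mem_filter, mem_univ, true_and, Prod.mk.injEq]
        tauto
      rw [e, e, mul_sum, ← sum_sub_distrib] at h3
      rw [← h3]
      refine sum_congr rfl fun d _ => ?_
      have h4 : d ∈ O → d ∈ Q := fun h5 => hOQ h5
      by_cases h5 : d ∈ O <;> by_cases h6 : d ∈ Q <;> by_cases h7 : j d = i <;> simp_all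
    have f4 : 2 * ∑ d with h d = v, zval (l d) =
        zval (s v) * (2 * (∑ d with h d = v, zval (φ d * s v)) -
          3 * ∑ d with h d = v, (if d ∈ Q then zval (φ d * s v) else 0)) +
        2 * (∑ d with h d = v,
          (if j d = 0 then (if d ∈ O then (1 : ℤ) else if d ∈ Q then -1 else 0) else 0)) -
        (∑ d with h d = v,
          (if j d = 1 then (if d ∈ O then (1 : ℤ) else if d ∈ Q then -1 else 0) else 0)) -
        ∑ d with h d = v,
          (if j d = 2 then (if d ∈ O then (1 : ℤ) else if d ∈ Q then -1 else 0) else 0) := by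
      simp only [mul_sum, ← sum_sub_distrib, ← sum_add_distrib]
      refine sum_congr rfl fun d _ => ?_
      have h4 : d ∈ O → d ∈ Q := fun h5 => hOQ h5
      have h5 : (φ d = 0 ∧ j d = 0) ∨ (φ d ≠ 0 ∧ (j d = 1 ∨ j d = 2)) := by
        simp only [j]
        split_ifs with h5 h6 <;> simp [h5]
      have h6 := hs v
      simp only [l]
      generalize φ d = p at h5 ⊢
      generalize j d = i at h5 ⊢
      generalize s v = s' at h6 ⊢
      by_cases h7 : d ∈ O
      · simp only [h7, h4 h7, if_true]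
        revert p i s'
        decide
      · by_cases h8 : d ∈ Q
        · simp only [h7, h8, if_true, if_false]
          revert p i s'
          decide
        · simp only [h7, h8, if_false]
          revert p i s'
          decide
    rw [f1, f2, f3, f3, f3, sum_zval, filter_filter, filter_filter] at f4
    have : zval (s v) * (2 * (3 * (k v : ℤ)) - 3 * (2 * k v)) = 0 := by ring
    omega
  refine ⟨l, fun d => ?_, hbal, fun v => ?_⟩
  · have h3 := hsum d
    simp only [l]
    by_cases h4 : d ∈ Q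
    · have h5 := hO d h4
      by_cases h6 : d ∈ O
      · rw [if_pos h6, if_neg (fun h7 => h5.1 h7 h6), if_pos ((hQ d).2 h4), ← h3]
        ring
      · rw [if_neg h6, if_pos h4, if_pos (h5.2 h6), ← h3]
        ring
    · have h5 : σ d ∉ Q := fun h5 => h4 ((hQ d).1 h5)
      rw [if_neg (fun h6 => h4 (hOQ h6)), if_neg h4, if_neg (fun h6 => h5 (hOQ h6)), if_neg h5, h3]
  · by_cases h3 : 2 ≤ #{d ∈ Q | h d = v ∧ φ d = -1}
    · have h4 := hOb (v, 1)
      rw [hj1, hA3 v h3] at h4
      have h5 : ∃ d ∈ A v, d ∉ O := by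
        by_contra h5
        push Not at h5
        have h6 : #(A v) ≤ #{d ∈ O | (h d, j d) = (v, 1)} := by
          refine card_le_card fun d hd => mem_filter.2 ⟨h5 d hd, ?_⟩
          rw [← hj1] at hd
          exact (mem_filter.1 hd).2
        rw [hA3 v h3] at h6
        omega
      obtain ⟨d, hd1, hd2⟩ := h5
      obtain ⟨h6, h7, h8⟩ := hAm v d hd1
      have h9 : 0 < #{d | h d = v ∧ l d = -1} := by
        rw [← hbal, card_pos]
        refine ⟨d, mem_filter.2 ⟨mem_univ _, h7, ?_⟩⟩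
        simp only [l]
        rw [if_neg hd2, if_pos h6, h8]
        decide
      obtain ⟨d', hd'⟩ := card_pos.1 h9
      exact ⟨d', (mem_filter.1 hd').2⟩
    · have h4 : ∃ d, h d = v ∧ φ d = -1 ∧ d ∉ Q := by
        by_contra h4
        push Not at h4
        refine h3 ((h2 v).trans (card_le_card fun d hd => ?_))
        obtain ⟨h5, h6⟩ := (mem_filter.1 hd).2
        exact mem_filter.2 ⟨h4 d h5 h6, h5, h6⟩
      obtain ⟨d, h5, h6, h7⟩ := h4
      refine ⟨d, h5, ?_⟩
      simp only [l]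
      rw [if_neg (fun h8 => h7 (hOQ h8)), if_neg h7, h6]

end Pool.Agent.Lib.MP_1c8ed6_co.H54
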