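import Mathlib

/-! Removing triangles from a decomposition into trails with three edges. -/

namespace Pool.Agent.Lib.MP_1c8ed6_co.H54

open Finset

variable {V I : Type} [DecidableEq V] [Fintype I] [DecidableEq I]

/-- The edges of the walk `a b c d`. -/
def ed (t : V × V × V × V) : Multiset (Sym2 V) :=
  {s(t.1, t.2.1)} + {s(t.2.1, t.2.2.1)} + {s(t.2.2.1, t.2.2.2)}

/-- The walk is closed. -/
def tri (t : V × V × V × V) : Prop := t.1 = t.2.2.2

/-- The inner vertices of the walk. -/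
def inn (t : V × V × V × V) (w : V) : Prop := w = t.2.1 ∨ w = t.2.2.1

instance : DecidablePred (tri (V := V)) := fun t => inferInstanceAs (Decidable (t.1 = t.2.2.2))

omit [DecidableEq V] in
theorem ed_rev (a b c d : V) : ed (a, b, c, d) = ed (d, c, b, a) := by
  simp only [ed]
  rw [Sym2.eq_swap (a := d), Sym2.eq_swap (a := c) (b := b), Sym2.eq_swap (a := b) (b := a)]
  abel

omit [DecidableEq V] in
theorem ed_disjoint {E : Multiset (Sym2 V)} (hE : E.Nodup) {T : I → V × V × V × V}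
    (hT : ∑ i, ed (T i) = E) {i j : I} (hij : i ≠ j) : Disjoint (ed (T i)) (ed (T j)) := by
  have h1 : ∑ k ∈ {i, j}, ed (T k) ≤ E := by
    rw [← hT]
    exact sum_le_sum_of_subset (subset_univ _)
  rw [sum_pair hij] at h1
  exact (Multiset.nodup_add.1 (Multiset.nodup_of_le h1 hE)).2.2

omit [DecidableEq V] [DecidableEq I] in
theorem ed_le {E : Multiset (Sym2 V)} {T : I → V × V × V × V}
    (hT : ∑ i, ed (T i) = E) (i : I) : ed (T i) ≤ E := by
  rw [← hT]
  exact single_le_sum (f := fun i => ed (T i)) (fun _ _ => zero_le) (mem_univ i)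

theorem merge_triangle {E : Multiset (Sym2 V)} (hE : E.Nodup) {T : I → V × V × V × V}
    (hT : ∑ i, ed (T i) = E) (hinv : ∀ i, tri (T i) → ∃ j, inn (T j) (T i).1)
    {i j : I} (hij : i ≠ j) {a u v y x z : V} (hie : ed (T i) = ed (a, u, v, a))
    (hit : tri (T i)) (hii : ∀ w, inn (T i) w → w = u ∨ w = v)
    (hje : ed (T j) = ed (y, a, x, z)) (hji : ∀ w, inn (T j) w → w = a ∨ w = x)
    (hz : z ≠ u ∨ z = y)
    (hcrit : (∃ k, tri (T k) ∧ (T k).1 = u) → ∃ k, k ≠ i ∧ inn (T k) u) :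
    ∃ T' : I → V × V × V × V, ∑ i, ed (T' i) = E ∧ (∀ i, tri (T' i) → ∃ j, inn (T' j) (T' i).1) ∧
      #{k | tri (T' k)} < #{k | tri (T k)} := by
  have huy : u ≠ y := by
    rintro rfl
    have h1 := ed_disjoint hE hT hij
    rw [hie, hje, Multiset.disjoint_left] at h1
    exact h1 (a := s(a, u)) (by simp [ed]) (by simp [ed])
  have huz : u ≠ z := by
    rcases hz with h | h
    · exact h.symm
    · rw [h]; exact huy
  let T' : I → V × V × V × V := fun k =>
    if k = i then (u, v, a, y) else if k = j then (u, a, x, z) else T k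
  have hi' : T' i = (u, v, a, y) := by simp [T']
  have hj' : T' j = (u, a, x, z) := by simp [T', hij.symm]
  have hk' : ∀ k, k ≠ i → k ≠ j → T' k = T k := fun k h1 h2 => by simp [T', h1, h2]
  have htri : ∀ k, tri (T' k) → k ≠ i ∧ k ≠ j := by
    intro k hk
    constructor
    · rintro rfl
      rw [hi'] at hk
      exact huy hk
    · rintro rfl
      rw [hj'] at hk
      exact huz hk
  refine ⟨T', ?_, ?_, ?_⟩
  · rw [← hT, ← sum_add_sum_compl {i, j}, ← sum_add_sum_compl {i, j} (f := fun k => ed (T k)),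
      sum_pair hij, sum_pair hij, hi', hj', hie, hje]
    congr 1
    · simp only [ed]
      rw [Sym2.eq_swap (a := a) (b := y), Sym2.eq_swap (a := a) (b := u)]
      abel
    · refine sum_congr rfl fun k hk => ?_
      simp only [mem_compl, mem_insert, mem_singleton, not_or] at hk
      rw [hk' k hk.1 hk.2]
  · intro k hk
    obtain ⟨h1, h2⟩ := htri k hk
    rw [hk' k h1 h2] at hk ⊢
    have key : ∀ l w, l ≠ i → inn (T l) w → ∃ j, inn (T' j) w := by
      intro l w hl hw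
      by_cases h3 : l = j
      · exact ⟨j, by rw [hj']; exact hji w (h3 ▸ hw)⟩
      · exact ⟨l, by rw [hk' l hl h3]; exact hw⟩
    obtain ⟨l, hl⟩ := hinv k hk
    by_cases h3 : l = i
    · rcases hii _ (h3 ▸ hl) with h4 | h4
      · obtain ⟨l', h5, h6⟩ := hcrit ⟨k, hk, h4⟩
        exact key l' _ h5 (h4 ▸ h6)
      · exact ⟨i, by rw [hi']; exact Or.inl h4⟩
    · exact key l _ h3 hl
  · refine card_lt_card ⟨fun k hk => ?_, fun h => ?_⟩
    · have h1 := (mem_filter.1 hk).2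
      obtain ⟨h2, h3⟩ := htri k h1
      rw [hk' k h2 h3] at h1
      exact mem_filter.2 ⟨mem_univ _, h1⟩
    · exact (htri i (mem_filter.1 (h (mem_filter.2 ⟨mem_univ _, hit⟩))).2).1 rfl

theorem triangle_step {E : Multiset (Sym2 V)} (hE : E.Nodup) (hdiag : ∀ e ∈ E, ¬ e.IsDiag)
    {T : I → V × V × V × V} (hT : ∑ i, ed (T i) = E)
    (hinv : ∀ i, tri (T i) → ∃ j, inn (T j) (T i).1) {i0 : I} (hi0 : tri (T i0)) :
    ∃ T' : I → V × V × V × V, ∑ i, ed (T' i) = E ∧ (∀ i, tri (T' i) → ∃ j, inn (T' j) (T' i).1) ∧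
      #{k | tri (T' k)} < #{k | tri (T k)} := by
  classical
  let w : I → Bool → V := fun i b => if b then (T i).2.1 else (T i).2.2.1
  have hwinn : ∀ i b, inn (T i) (w i b) := by
    intro i b
    cases b
    · exact Or.inr rfl
    · exact Or.inl rfl
  have hne : ∀ i, (T i).1 ≠ (T i).2.1 ∧ (T i).2.1 ≠ (T i).2.2.1 ∧ (T i).2.2.1 ≠ (T i).2.2.2 := by
    intro i
    refine ⟨fun h => ?_, fun h => ?_, fun h => ?_⟩ <;>
    · refine hdiag _ (Multiset.mem_of_le (ed_le hT i) ?_) (Sym2.mk_isDiag_iff.2 h)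
      simp [ed]
  let crit : I → Bool → Prop := fun i b =>
    (∃ k, tri (T k) ∧ (T k).1 = w i b) ∧ ∀ k, k ≠ i → ¬ inn (T k) (w i b)
  have hmain : ∀ i j b, tri (T i) → inn (T j) (T i).1 → ¬ crit i b →
      (tri (T j) ∨ ((T i).1 = (T j).2.1 ∧ (T j).2.2.2 ≠ w i b) ∨
        ((T i).1 = (T j).2.2.1 ∧ (T j).1 ≠ w i b)) →
      ∃ T' : I → V × V × V × V, ∑ i, ed (T' i) = E ∧
        (∀ i, tri (T' i) → ∃ j, inn (T' j) (T' i).1) ∧ #{k | tri (T' k)} < #{k | tri (T k)} := by
    intro i j b hi hj hc hz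
    have hij : i ≠ j := by
      rintro rfl
      rcases hj with h | h
      · exact (hne i).1 h
      · exact (hne i).2.2 (h.symm.trans hi)
    have hc' : (∃ k, tri (T k) ∧ (T k).1 = w i b) → ∃ k, k ≠ i ∧ inn (T k) (w i b) := by
      intro h
      by_contra h1
      exact hc ⟨h, fun k hk h2 => h1 ⟨k, hk, h2⟩⟩
    obtain ⟨v, hie, hii⟩ : ∃ v, ed (T i) = ed ((T i).1, w i b, v, (T i).1) ∧
        ∀ w', inn (T i) w' → w' = w i b ∨ w' = v := by
      cases b
      · refine ⟨(T i).2.1, ?_, fun w' h => h.symm⟩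
        rw [ed_rev (T i).1]
        nth_rw 2 [show (T i).1 = (T i).2.2.2 from hi]
        rfl
      · refine ⟨(T i).2.2.1, ?_, fun w' h => h⟩
        nth_rw 2 [show (T i).1 = (T i).2.2.2 from hi]
        rfl
    have c1 : (T i).1 = (T j).2.1 → ((T j).2.2.2 ≠ w i b ∨ (T j).2.2.2 = (T j).1) → _ :=
      fun h1 h2 => merge_triangle hE hT hinv hij hie hi hii (y := (T j).1) (x := (T j).2.2.1)
        (z := (T j).2.2.2) (by rw [h1]) (fun w' h => by rw [h1]; exact h) h2 hc'
    have c2 : (T i).1 = (T j).2.2.1 → ((T j).1 ≠ w i b ∨ (T j).1 = (T j).2.2.2) → _ :=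
      fun h1 h2 => merge_triangle hE hT hinv hij hie hi hii (y := (T j).2.2.2) (x := (T j).2.1)
        (z := (T j).1) (by rw [h1, ← ed_rev]) (fun w' h => by rw [h1]; exact h.symm) h2 hc'
    rcases hz with h | h | h
    · rcases hj with h1 | h1
      · exact c1 h1 (Or.inr h.symm)
      · exact c2 h1 (Or.inr h)
    · exact c1 h.1 (Or.inl h.2)
    · exact c2 h.1 (Or.inl h.2)
  by_cases hcase : ∃ i, tri (T i) ∧ ∀ b, ¬ crit i b
  · obtain ⟨i, hi, hc⟩ := hcase
    obtain ⟨j, hj⟩ := hinv i hi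
    have hz : ∀ z, ∃ b, z ≠ w i b := by
      intro z
      by_cases h : z = w i true
      · exact ⟨false, fun h1 => (hne i).2.1 (h.symm.trans h1)⟩
      · exact ⟨true, h⟩
    rcases id hj with h | h
    · obtain ⟨b, hb⟩ := hz (T j).2.2.2
      exact hmain i j b hi hj (hc b) (Or.inr (Or.inl ⟨h, hb⟩))
    · obtain ⟨b, hb⟩ := hz (T j).1
      exact hmain i j b hi hj (hc b) (Or.inr (Or.inr ⟨h, hb⟩))
  · push Not at hcase
    let P : Finset (I × Bool) := {p | tri (T p.1) ∧ crit p.1 p.2}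
    let Tr : Finset I := {k | tri (T k)}
    have hf : ∀ p ∈ P, ∃ k ∈ Tr, (T k).1 = w p.1 p.2 := by
      intro p hp
      obtain ⟨k, hk1, hk2⟩ := (mem_filter.1 hp).2.2.1
      exact ⟨k, mem_filter.2 ⟨mem_univ _, hk1⟩, hk2⟩
    choose f hf1 hf2 using hf
    have hfinj : ∀ p q hp hq, f p hp = f q hq → p = q := by
      rintro ⟨i, b⟩ ⟨i', b'⟩ hp hq h
      have h1 : w i b = w i' b' := by
        rw [← hf2 (i, b) hp, ← hf2 (i', b') hq, h]
      have h2 : i' = i := by
        by_contra h2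
        exact (mem_filter.1 hp).2.2.2 i' h2 (h1 ▸ hwinn i' b')
      subst h2
      have h3 := (hne i').2.1
      cases b <;> cases b'
      · rfl
      · exact absurd h1.symm h3
      · exact absurd h1 h3
      · rfl
    have hg : ∀ p ∈ P, p.1 ∈ Tr := fun p hp => mem_filter.2 ⟨mem_univ _, (mem_filter.1 hp).2.1⟩
    have hgs : ∀ i ∈ Tr, ∃ p, ∃ _ : p ∈ P, p.1 = i := by
      intro i hi
      obtain ⟨b, hb⟩ := hcase i (mem_filter.1 hi).2
      exact ⟨(i, b), mem_filter.2 ⟨mem_univ _, (mem_filter.1 hi).2, hb⟩, rfl⟩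
    have h1 : #Tr ≤ #P := by
      refine card_le_card_of_surjOn Prod.fst fun i hi => ?_
      obtain ⟨p, hp, h⟩ := hgs i hi
      exact ⟨p, hp, h⟩
    have h2 : #P ≤ #Tr := by
      rw [← card_attach (s := P)]
      exact card_le_card_of_injOn (fun p => f p.1 p.2) (fun p _ => hf1 p.1 p.2)
        fun p _ q _ h => Subtype.ext (hfinj _ _ _ _ h)
    have hi0' : i0 ∈ Tr := mem_filter.2 ⟨mem_univ _, hi0⟩
    obtain ⟨p, hp, hfp⟩ := surj_on_of_inj_on_of_card_le f hf1 hfinj h1 i0 hi0'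
    have h3 : ∃ b, ¬ crit i0 b := by
      by_contra h3
      push Not at h3
      have h4 : ∀ b, (i0, b) ∈ P := fun b => mem_filter.2 ⟨mem_univ _, hi0, h3 b⟩
      have h5 := inj_on_of_surj_on_of_card_le (fun p _ => p.1) hg hgs h2 (h4 true) (h4 false) rfl
      simp at h5
    obtain ⟨b, hb⟩ := h3
    refine hmain i0 p.1 b hi0 ?_ hb (Or.inl (mem_filter.1 hp).2.1)
    rw [hfp, hf2 p hp]
    exact hwinn _ _

theorem remove_triangles {E : Multiset (Sym2 V)} (hE : E.Nodup) (hdiag : ∀ e ∈ E, ¬ e.IsDiag)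
    (T : I → V × V × V × V) (hT : ∑ i, ed (T i) = E)
    (hinv : ∀ i, tri (T i) → ∃ j, inn (T j) (T i).1) :
    ∃ T' : I → V × V × V × V, ∑ i, ed (T' i) = E ∧ ∀ i, ¬ tri (T' i) := by
  induction hn : #{k | tri (T k)} using Nat.strong_induction_on generalizing T with
  | _ n ih =>
    by_cases h : ∃ i, tri (T i)
    · obtain ⟨i, hi⟩ := h
      obtain ⟨T', h1, h2, h3⟩ := triangle_step hE hdiag hT hinv hi
      exact ih _ (hn ▸ h3) T' h1 h2 rfl
    · exact ⟨T, hT, fun i hi => h ⟨i, hi⟩⟩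

end Pool.Agent.Lib.MP_1c8ed6_co.H54
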