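import Mathlib
import Pool.Agent.Shared.ModOrient.Orient

namespace Pool.Agent.Lib.MP_1c8ed6_co

open Finset SimpleGraph

/-- A family of copies of `T` whose edges cover every edge of `G` exactly once gives a
decomposition in the form of the problem. -/
theorem decomposition_of_copies {V W I : Type} [Finite I] {G : SimpleGraph V} {T : SimpleGraph W}
    (f : I → T.Copy G)
    (hdisj : ∀ i j, ∀ e ∈ T.edgeSet, ∀ e' ∈ T.edgeSet,
      Sym2.map (f i) e = Sym2.map (f j) e' → i = j)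
    (hcov : ∀ e ∈ G.edgeSet, ∃ i, ∃ e' ∈ T.edgeSet, Sym2.map (f i) e' = e) :
    ∃ (n : ℕ) (H : Fin n → G.Subgraph),
      (∀ i, Nonempty (T ≃g (H i).coe)) ∧
      Pairwise (fun i j => Disjoint (H i).edgeSet (H j).edgeSet) ∧
      (∀ e ∈ G.edgeSet, ∃ i, e ∈ (H i).edgeSet) := by
  obtain ⟨n, ⟨q⟩⟩ := Finite.exists_equiv_fin I
  refine ⟨n, fun i => (f (q.symm i)).toSubgraph, fun i => ⟨(f (q.symm i)).isoToSubgraph⟩, ?_, ?_⟩
  · intro i j hij
    rw [Set.disjoint_left]
    intro e hi hj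
    simp only [Subgraph.edgeSet_map, Subgraph.edgeSet_top, Set.mem_image] at hi hj
    obtain ⟨a, ha, rfl⟩ := hi
    obtain ⟨b, hb, hab⟩ := hj
    exact hij (q.symm.injective (hdisj _ _ a ha b hb hab.symm))
  · intro e he
    obtain ⟨i, e', he', h⟩ := hcov e he
    refine ⟨q i, ?_⟩
    simp only [Subgraph.edgeSet_map, Subgraph.edgeSet_top, Set.mem_image, Equiv.symm_apply_apply]
    exact ⟨e', he', h⟩

/-- Orientation of a simple graph with `m` edge-disjoint connected spanning subgraphs with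
prescribed out-degrees modulo `m`; `o e` is the tail of the edge `e`. -/
theorem simple_orientation {V : Type} [Fintype V] [DecidableEq V] (G : SimpleGraph V)
    [DecidableRel G.Adj] {m : ℕ} (hm : 0 < m) (F : Fin m → SimpleGraph V)
    (hF : ∀ i, F i ≤ G ∧ (F i).Preconnected) (hd : Pairwise (fun i j => Disjoint (F i) (F j)))
    (β : V → ℤ) (hβ : (m : ℤ) ∣ ∑ v, β v - G.edgeFinset.card) :
    ∃ o : G.edgeSet → V, (∀ e, o e ∈ e.1) ∧ ∀ v, (m : ℤ) ∣ (#{e | o e = v} : ℤ) - β v := by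
  classical
  let s : G.edgeSet → V := fun e => e.1.out.1
  let t : G.edgeSet → V := fun e => e.1.out.2
  have hst : ∀ e : G.edgeSet, s(s e, t e) = e.1 := fun e => Quot.out_eq e.1
  let col : G.edgeSet → Fin m := fun e =>
    if h : ∃ i, e.1 ∈ (F i).edgeSet then h.choose else ⟨0, hm⟩
  have hcol : ∀ (e : G.edgeSet) i, e.1 ∈ (F i).edgeSet → col e = i := by
    intro e i hi
    have h : ∃ i, e.1 ∈ (F i).edgeSet := ⟨i, hi⟩
    simp only [col, dif_pos h]
    by_contra hne
    have h1 := h.choose_spec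
    have h2 := SimpleGraph.disjoint_edgeSet.mpr (hd hne)
    exact Set.disjoint_left.mp h2 h1 hi
  have hconn : ∀ (i : Fin m) (x : V → ℝ), (∀ e, col e = i → x (s e) = x (t e)) →
      ∀ u v, x u = x v := by
    intro i x hx u v
    have hadj : ∀ a b, (F i).Adj a b → x a = x b := by
      intro a b hab
      have h1 := hx ⟨s(a, b), (hF i).1 hab⟩ (hcol _ i hab)
      have h2 := hst ⟨s(a, b), (hF i).1 hab⟩
      rcases Sym2.eq_iff.mp h2 with ⟨h3, h4⟩ | ⟨h3, h4⟩
      · rw [h3, h4] at h1; exact h1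
      · rw [h3, h4] at h1; exact h1.symm
    obtain ⟨p⟩ := (hF i).2 u v
    induction p with
    | nil => rfl
    | cons h _ ih => exact (hadj _ _ h).trans ih
  obtain ⟨o, ho, hdiv⟩ := Pool.Agent.Shared.ModOrient.mod_orientation hm s t col hconn β
    (by rwa [← SimpleGraph.edgeFinset_card])
  refine ⟨o, fun e => ?_, hdiv⟩
  rw [← hst e]
  rcases ho e with h | h <;> simp [h]

theorem card_edge_starGraph {W : Type} [Fintype W] [DecidableEq W] (c : W) :
    (starGraph c).edgeFinset.card = Fintype.card {w : W // w ≠ c} := by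
  have h1 := (isTree_starGraph c).card_edgeFinset
  have h2 : Fintype.card {w : W // w ≠ c} = Fintype.card W - 1 := by
    simp [Fintype.card_subtype_compl]
  omega

theorem star_decomposition {V : Type} [Fintype V] [DecidableEq V] (G : SimpleGraph V)
    [DecidableRel G.Adj] {W : Type} [Fintype W] [DecidableEq W] (c : W)
    (hT : ∃ F : Fin (starGraph c).edgeFinset.card → SimpleGraph V,
          (∀ i, F i ≤ G ∧ (F i).IsTree) ∧ Pairwise (fun i j => Disjoint (F i) (F j)))
    (hdvd : (starGraph c).edgeFinset.card ∣ G.edgeFinset.card) :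
    ∃ (n : ℕ) (H : Fin n → G.Subgraph),
      (∀ i, Nonempty (starGraph c ≃g (H i).coe)) ∧
      Pairwise (fun i j => Disjoint (H i).edgeSet (H j).edgeSet) ∧
      (∀ e ∈ G.edgeSet, ∃ i, e ∈ (H i).edgeSet) := by
  classical
  obtain ⟨F, hF, hd⟩ := hT
  rcases Nat.eq_zero_or_pos (starGraph c).edgeFinset.card with h0 | hm
  · rw [h0, zero_dvd_iff, Finset.card_eq_zero] at hdvd
    refine ⟨0, fun i => i.elim0, fun i => i.elim0, fun i => i.elim0, fun e he => ?_⟩
    have : e ∈ G.edgeFinset := by simpa using he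
    rw [hdvd] at this
    simp at this
  obtain ⟨o, ho, hdiv⟩ := simple_orientation G hm F (fun i => ⟨(hF i).1, (hF i).2.1.1⟩) hd
    (fun _ => 0) (by simpa [Int.natCast_dvd_natCast] using hdvd)
  have hk : ∀ v, ∃ k : ℕ,
      Nonempty ({e : G.edgeSet // o e = v} ≃ Fin k × {w : W // w ≠ c}) := by
    intro v
    have h1 := hdiv v
    rw [sub_zero, Int.natCast_dvd_natCast, card_edge_starGraph] at h1
    obtain ⟨k, hk⟩ := h1
    refine ⟨k, ⟨Fintype.equivOfCardEq ?_⟩⟩
    rw [Fintype.card_subtype, hk, Fintype.card_prod, Fintype.card_fin, mul_comm]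
  choose k hq using hk
  let q : ∀ v, {e : G.edgeSet // o e = v} ≃ Fin (k v) × {w : W // w ≠ c} := fun v => (hq v).some
  let hd' : G.edgeSet → V := fun e => Sym2.Mem.other (ho e)
  have hoh : ∀ e : G.edgeSet, s(o e, hd' e) = e.1 := fun e => Sym2.other_spec (ho e)
  have hadj : ∀ e : G.edgeSet, G.Adj (o e) (hd' e) := fun e => by
    rw [← SimpleGraph.mem_edgeSet, hoh]; exact e.2
  let g : (Σ v, Fin (k v)) → W → V := fun σ w =>
    if h : w = c then σ.1 else hd' ((q σ.1).symm (σ.2, ⟨w, h⟩)).1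
  have hgc : ∀ σ, g σ c = σ.1 := fun σ => by simp [g]
  have hgw : ∀ σ w (h : w ≠ c), g σ w = hd' ((q σ.1).symm (σ.2, ⟨w, h⟩)).1 := fun σ w h => by
    simp [g, h]
  have hedge : ∀ σ w (h : w ≠ c), s(g σ c, g σ w) = ((q σ.1).symm (σ.2, ⟨w, h⟩)).1.1 := by
    intro σ w h
    rw [hgc, hgw σ w h, ← hoh, ((q σ.1).symm (σ.2, ⟨w, h⟩)).2]
  have hgadj : ∀ σ w, w ≠ c → G.Adj (g σ c) (g σ w) := by
    intro σ w h
    rw [← SimpleGraph.mem_edgeSet, hedge σ w h]
    exact ((q σ.1).symm (σ.2, ⟨w, h⟩)).1.2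
  have hginj : ∀ σ, Function.Injective (g σ) := by
    intro σ a b hab
    by_cases ha : a = c <;> by_cases hb : b = c
    · rw [ha, hb]
    · subst ha; exact absurd hab (hgadj σ b hb).ne
    · subst hb; exact absurd hab.symm (hgadj σ a ha).ne
    · have h1 := hedge σ a ha
      rw [hab, hedge σ b hb] at h1
      have h2 := (q σ.1).symm.injective (Subtype.ext (Subtype.ext h1))
      simpa using h2.symm
  let f : (Σ v, Fin (k v)) → (starGraph c).Copy G := fun σ =>
    ⟨⟨g σ, fun {a b} hab => by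
      rw [starGraph_adj] at hab
      obtain ⟨hne, rfl | rfl⟩ := hab
      · exact hgadj σ b hne.symm
      · exact (hgadj σ a hne).symm⟩, hginj σ⟩
  have hstar : ∀ e ∈ (starGraph c).edgeSet, ∃ w, w ≠ c ∧ e = s(c, w) := by
    intro e he
    induction e using Sym2.ind with
    | _ a b =>
      rw [SimpleGraph.mem_edgeSet, starGraph_adj] at he
      obtain ⟨hne, rfl | rfl⟩ := he
      · exact ⟨b, hne.symm, rfl⟩
      · exact ⟨a, hne, Sym2.eq_swap⟩
  refine decomposition_of_copies f ?_ ?_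
  · intro σ τ e he e' he' h
    obtain ⟨a, ha, rfl⟩ := hstar e he
    obtain ⟨b, hb, rfl⟩ := hstar e' he'
    have h1 : s(g σ c, g σ a) = s(g τ c, g τ b) := h
    rw [hedge σ a ha, hedge τ b hb] at h1
    have h2 := Subtype.ext h1
    obtain ⟨u, i⟩ := σ
    obtain ⟨v, j⟩ := τ
    have h3 : u = v := by
      rw [← ((q u).symm (i, ⟨a, ha⟩)).2, ← ((q v).symm (j, ⟨b, hb⟩)).2]
      exact congrArg o h2
    subst h3
    have h4 := (q u).symm.injective (Subtype.ext h2)
    have h5 : i = j := (Prod.mk.inj h4).1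
    rw [h5]
  · intro e he
    set x := q (o ⟨e, he⟩) ⟨⟨e, he⟩, rfl⟩ with hx
    refine ⟨⟨o ⟨e, he⟩, x.1⟩, s(c, x.2.1), ?_, ?_⟩
    · rw [SimpleGraph.mem_edgeSet]
      exact starGraph_center_adj x.2.2.symm
    · change s(g _ c, g _ x.2.1) = e
      rw [hedge _ _ x.2.2]
      have : (q (o ⟨e, he⟩)).symm (x.1, ⟨x.2.1, x.2.2⟩) = ⟨⟨e, he⟩, rfl⟩ := by
        rw [Equiv.symm_apply_eq]
      rw [this]

end Pool.Agent.Lib.MP_1c8ed6_co
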