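import Mathlib
import Pool.Agent.Lib.MP_1c8ed6_co.Star
import Pool.Agent.Lib.MP_1c8ed6_co.H54Labels
import Pool.Agent.Lib.MP_1c8ed6_co.H54Tri

/-! From an exactly balanced labelling to a decomposition into paths with three edges. -/

namespace Pool.Agent.Lib.MP_1c8ed6_co.H54

open Finset SimpleGraph

theorem exists_fiber_bij {D V : Type} [DecidableEq V] (h : D → V) (A B : Finset D)
    (hc : ∀ v, #{d ∈ A | h d = v} = #{d ∈ B | h d = v}) :
    ∃ β : D → D, Set.BijOn β A B ∧ ∀ d ∈ A, h (β d) = h d := by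
  classical
  let e : ∀ v, ({d ∈ A | h d = v} : Finset D) ≃ ({d ∈ B | h d = v} : Finset D) :=
    fun v => Finset.equivOfCardEq (hc v)
  let β : D → D := fun d => if hd : d ∈ A then (e (h d) ⟨d, mem_filter.2 ⟨hd, rfl⟩⟩).1 else d
  have hβ : ∀ v d (hd : d ∈ ({d ∈ A | h d = v} : Finset D)), β d = (e v ⟨d, hd⟩).1 := by
    intro v d hd
    obtain ⟨h1, rfl⟩ := mem_filter.1 hd
    simp only [β, dif_pos h1]
  have h1 : ∀ d ∈ A, β d ∈ B ∧ h (β d) = h d := by
    intro d hd
    rw [hβ (h d) d (mem_filter.2 ⟨hd, rfl⟩)]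
    exact mem_filter.1 (e (h d) _).2
  refine ⟨β, ⟨fun d hd => (h1 d hd).1, fun d hd d' hd' hdd => ?_, fun d hd => ?_⟩,
    fun d hd => (h1 d hd).2⟩
  · have h2 : h d' = h d := by rw [← (h1 d hd).2, ← (h1 d' hd').2, hdd]
    rw [hβ (h d) d (mem_filter.2 ⟨hd, rfl⟩), hβ (h d) d' (mem_filter.2 ⟨hd', h2⟩)] at hdd
    exact congrArg Subtype.val ((e (h d)).injective (Subtype.ext hdd))
  · obtain ⟨x, hx⟩ := (e (h d)).surjective ⟨d, mem_filter.2 ⟨hd, rfl⟩⟩
    refine ⟨x.1, (mem_filter.1 x.2).1, ?_⟩
    rw [hβ (h d) x.1 x.2, hx]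

theorem trails_of_labels {V : Type} [Fintype V] [DecidableEq V] (G : SimpleGraph V)
    [DecidableRel G.Adj] (l : G.Dart → ZMod 3) (hsum : ∀ d, l d + l d.symm = 1)
    (hbal : ∀ v, #{d : G.Dart | d.fst = v ∧ l d = 1} = #{d : G.Dart | d.fst = v ∧ l d = -1})
    (hpos : ∀ v, ∃ d : G.Dart, d.fst = v ∧ l d = -1) :
    ∃ (I : Type) (_ : Fintype I) (T : I → V × V × V × V),
      ∑ i, ed (T i) = G.edgeFinset.val ∧ ∀ v, ∃ j, inn (T j) v := by
  classical
  let A : Finset G.Dart := {d | l d = -1}
  let B : Finset G.Dart := {d | l d = 1}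
  have hA : ∀ d : G.Dart, d.symm ∈ A ↔ d ∈ A := by
    intro d
    have := hsum d
    simp only [A, mem_filter, mem_univ, true_and]
    generalize l d = a at this ⊢
    generalize l d.symm = b at this ⊢
    revert a b
    decide
  obtain ⟨β, hβ, hβh⟩ := exists_fiber_bij (fun d : G.Dart => d.fst) A B (fun v => by
    simp only [A, B, filter_filter, and_comm (b := _ = v)]
    exact (hbal v).symm)
  obtain ⟨R, hRA, hR⟩ := exists_reps Dart.symm Dart.symm_symm Dart.symm_ne A hA
  let t : G.Dart → V × V × V × V := fun r => ((β r).snd, r.fst, r.snd, (β r.symm).snd)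
  refine ⟨R, inferInstance, fun r => t r, ?_, fun v => ?_⟩
  · rw [sum_coe_sort R (fun r => ed (t r))]
    have h1 : ∀ r ∈ R, ed (t r) = {(β r).edge} + {r.edge} + {(β r.symm).edge} := by
      intro r hr
      have h2 := hβh r (hRA hr)
      have h3 := hβh r.symm ((hA r).2 (hRA hr))
      simp only [ed, t, Dart.edge]
      rw [Sym2.eq_swap (a := (β r).snd), ← h2, ← show (β r.symm).fst = r.snd from h3]
    rw [sum_congr rfl h1]
    ext e
    have h2 : ∀ f : G.Dart → Sym2 V,
        Multiset.count e (∑ r ∈ R, {f r}) = #{r ∈ R | f r = e} := by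
      intro f
      rw [Multiset.count_sum', card_filter]
      refine sum_congr rfl fun r _ => ?_
      rw [Multiset.count_singleton]
      exact if_congr eq_comm rfl rfl
    rw [sum_add_distrib, sum_add_distrib, Multiset.count_add, Multiset.count_add, h2, h2, h2,
      add_right_comm,
      ← card_split Dart.symm Dart.symm_symm A R hA hRA hR (fun d => (β d).edge = e)]
    have h3 : #{d ∈ A | (β d).edge = e} = #{d ∈ B | d.edge = e} := by
      refine card_bij (fun d _ => β d) (fun d hd => ?_) (fun d hd d' hd' h => ?_) fun d hd => ?_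
      · exact mem_filter.2 ⟨hβ.1 (mem_filter.1 hd).1, (mem_filter.1 hd).2⟩
      · exact hβ.2.1 (mem_filter.1 hd).1 (mem_filter.1 hd').1 h
      · obtain ⟨d', h4, rfl⟩ := hβ.2.2 (mem_filter.1 hd).1
        exact ⟨d', mem_filter.2 ⟨h4, (mem_filter.1 hd).2⟩, rfl⟩
    rw [h3]
    by_cases he : e ∈ G.edgeFinset
    · rw [Multiset.count_eq_one_of_mem G.edgeFinset.nodup he]
      obtain ⟨d, rfl⟩ : ∃ d : G.Dart, d.edge = e := by
        induction e using Sym2.ind with
        | _ u v => exact ⟨⟨(u, v), by simpa using he⟩, rfl⟩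
      have h4 : ∀ C : Finset G.Dart, #{d' ∈ C | d'.edge = d.edge} =
          (if d ∈ C then 1 else 0) + (if d.symm ∈ C then 1 else 0) := by
        intro C
        have : ({d' ∈ C | d'.edge = d.edge} : Finset G.Dart) =
            ({d, d.symm} : Finset G.Dart).filter (· ∈ C) := by
          ext d'
          simp only [mem_filter, dart_edge_eq_iff, mem_insert, mem_singleton]
          tauto
        rw [this, card_filter, sum_pair d.symm_ne.symm]
      rw [h4, h4]
      by_cases h5 : d ∈ A
      · have h6 : d ∉ B := by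
          simp only [A, B, mem_filter, mem_univ, true_and] at h5 ⊢
          rw [h5]; decide
        have h7 : d.symm ∉ B := by
          rw [← hA] at h5
          simp only [A, B, mem_filter, mem_univ, true_and] at h5 ⊢
          rw [h5]; decide
        have h8 := hR d h5
        by_cases h9 : d ∈ R <;> simp [h6, h7, h8, h9]
      · have h6 : d ∉ R := fun h => h5 (hRA h)
        have h7 : d.symm ∉ R := fun h => h5 ((hA d).1 (hRA h))
        have h8 := hsum d
        simp only [A, B, mem_filter, mem_univ, true_and, h6, h7, if_false] at h5 ⊢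
        generalize l d = a at h5 h8 ⊢
        generalize l d.symm = b at h8 ⊢
        revert a b
        decide
    · rw [Multiset.count_eq_zero_of_notMem he]
      have h4 : ∀ C : Finset G.Dart, #{d' ∈ C | d'.edge = e} = 0 := by
        intro C
        rw [card_eq_zero, filter_eq_empty_iff]
        rintro d - rfl
        exact he (by simp)
      rw [h4, h4]
  · obtain ⟨d, rfl, hd⟩ := hpos v
    have h1 : d ∈ A := mem_filter.2 ⟨mem_univ _, hd⟩
    by_cases h2 : d ∈ R
    · exact ⟨⟨d, h2⟩, Or.inl rfl⟩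
    · exact ⟨⟨d.symm, (hR d h1).2 h2⟩, Or.inr rfl⟩

theorem path_of_trails {V I : Type} [Fintype V] [DecidableEq V] [Fintype I] (G : SimpleGraph V)
    [DecidableRel G.Adj] (T : I → V × V × V × V) (hT : ∑ i, ed (T i) = G.edgeFinset.val)
    (hinn : ∀ v, ∃ j, inn (T j) v) :
    ∃ (n : ℕ) (H : Fin n → G.Subgraph),
      (∀ i, Nonempty (pathGraph 4 ≃g (H i).coe)) ∧
      Pairwise (fun i j => Disjoint (H i).edgeSet (H j).edgeSet) ∧
      (∀ e ∈ G.edgeSet, ∃ i, e ∈ (H i).edgeSet) := by
  classical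
  obtain ⟨T, hT, htri⟩ := remove_triangles G.edgeFinset.nodup
    (fun e he => G.not_isDiag_of_mem_edgeFinset he) T hT (fun i _ => hinn _)
  have hadj : ∀ i a b, s(a, b) ∈ ed (T i) → G.Adj a b := by
    intro i a b h
    have := Multiset.mem_of_le (ed_le hT i) h
    simpa using this
  let g : I → Fin 4 → V := fun i => ![(T i).1, (T i).2.1, (T i).2.2.1, (T i).2.2.2]
  have hedge : ∀ i a b, (pathGraph 4).Adj a b → s(g i a, g i b) ∈ ed (T i) := by
    intro i a b hab
    rw [pathGraph_adj] at hab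
    fin_cases a <;> fin_cases b <;> simp at hab <;> simp [g, ed, Sym2.eq_swap]
  have hinj : ∀ i, Function.Injective (g i) := by
    intro i
    have h01 := (hadj i (T i).1 (T i).2.1 (by simp [ed])).ne
    have h12 := (hadj i (T i).2.1 (T i).2.2.1 (by simp [ed])).ne
    have h23 := (hadj i (T i).2.2.1 (T i).2.2.2 (by simp [ed])).ne
    have h03 : (T i).1 ≠ (T i).2.2.2 := htri i
    have hnd := Multiset.nodup_of_le (ed_le hT i) G.edgeFinset.nodup
    have h02 : (T i).1 ≠ (T i).2.2.1 := by
      intro h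
      simp [ed, h] at hnd
    have h13 : (T i).2.1 ≠ (T i).2.2.2 := by
      intro h
      simp only [ed, ← h, Multiset.nodup_add] at hnd
      have h4 := hnd.2.2
      rw [Multiset.disjoint_left] at h4
      exact h4 (a := s((T i).2.1, (T i).2.2.1)) (by simp) (by simp)
    intro a b hab
    fin_cases a <;> fin_cases b <;> simp_all [g]
  let f : I → (pathGraph 4).Copy G := fun i =>
    ⟨⟨g i, fun {a b} hab => hadj i _ _ (hedge i a b hab)⟩, hinj i⟩
  have hmem : ∀ i, ∀ e ∈ (pathGraph 4).edgeSet, Sym2.map (f i) e ∈ ed (T i) := by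
    intro i e he
    induction e using Sym2.ind with
    | _ a b => exact hedge i a b he
  refine decomposition_of_copies f ?_ ?_
  · intro i j e he e' he' h
    by_contra hij
    exact Multiset.disjoint_left.1 (ed_disjoint G.edgeFinset.nodup hT hij) (hmem i e he)
      (h ▸ hmem j e' he')
  · intro e he
    have h1 : e ∈ ∑ i, ed (T i) := by
      rw [hT]
      simpa using he
    obtain ⟨i, -, hi⟩ := Multiset.mem_sum.1 h1
    refine ⟨i, ?_⟩
    simp only [ed, Multiset.mem_add, Multiset.mem_singleton] at hi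
    rcases hi with (rfl | rfl) | rfl
    · exact ⟨s(0, 1), by simp [pathGraph_adj], rfl⟩
    · exact ⟨s(1, 2), by simp [pathGraph_adj], rfl⟩
    · exact ⟨s(2, 3), by simp [pathGraph_adj], rfl⟩

end Pool.Agent.Lib.MP_1c8ed6_co.H54
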