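import Mathlib
import Pool.Agent.Lib.MP_1c8ed6_co.H54Path

/-! Five edge-disjoint spanning trees give a decomposition into paths with three edges. -/

namespace Pool.Agent.Lib.MP_1c8ed6_co.H54

open Finset SimpleGraph

theorem exists_parent {V : Type} (F : SimpleGraph V) (hF : F.Connected) (ρ : V) :
    ∃ p : V → V, ∀ v, v ≠ ρ → F.Adj v (p v) ∧ F.dist (p v) ρ < F.dist v ρ := by
  have h : ∀ v, ∃ u, v ≠ ρ → F.Adj v u ∧ F.dist u ρ < F.dist v ρ := by
    intro v
    obtain ⟨w, hw⟩ := hF.exists_walk_length_eq_dist v ρ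
    cases w with
    | nil => exact ⟨ρ, fun h => absurd rfl h⟩
    | cons hadj q =>
      refine ⟨_, fun _ => ⟨hadj, ?_⟩⟩
      have := dist_le q
      rw [Walk.length_cons] at hw
      omega
  choose p hp using h
  exact ⟨p, hp⟩

theorem exists_flow {V : Type} [Fintype V] [DecidableEq V] (F : SimpleGraph V)
    (hF : F.Connected) (b : V → ZMod 3) (hb : ∑ v, b v = 0) :
    ∃ g : V → V → ZMod 3, (∀ u v, g u v + g v u = 0) ∧ (∀ u v, g u v ≠ 0 → F.Adj u v) ∧
      ∀ u, ∑ v, g u v = b u := by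
  classical
  let P : (V → ZMod 3) → Prop := fun b => ∃ g : V → V → ZMod 3, (∀ u v, g u v + g v u = 0) ∧
    (∀ u v, g u v ≠ 0 → F.Adj u v) ∧ ∀ u, ∑ v, g u v = b u
  have h0 : P 0 := ⟨0, by simp, by simp, by simp⟩
  have hadd : ∀ b c, P b → P c → P (b + c) := by
    rintro b c ⟨g, h1, h2, h3⟩ ⟨g', h1', h2', h3'⟩
    refine ⟨g + g', fun u v => ?_, fun u v h => ?_, fun u => ?_⟩
    · simp only [Pi.add_apply]
      linear_combination h1 u v + h1' u v
    · by_cases h4 : g u v = 0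
      · exact h2' u v (by simpa [h4] using h)
      · exact h2 u v h4
    · simp only [Pi.add_apply, sum_add_distrib, h3, h3']
  have hedge : ∀ u w (c : ZMod 3), F.Adj u w → P (Pi.single u c - Pi.single w c) := by
    intro u w c huw
    refine ⟨fun x y => (if x = u ∧ y = w then c else 0) - (if x = w ∧ y = u then c else 0),
      fun x y => ?_, fun x y h => ?_, fun x => ?_⟩
    · simp only [and_comm (a := y = u), and_comm (a := y = w)]
      ring
    · by_cases h1 : x = u ∧ y = w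
      · rw [h1.1, h1.2]; exact huw
      · by_cases h2 : x = w ∧ y = u
        · rw [h2.1, h2.2]; exact huw.symm
        · simp [h1, h2] at h
    · simp only [sum_sub_distrib, Pi.sub_apply, Pi.single_apply, ite_and]
      simp
  have hwalk : ∀ u w (c : ZMod 3), F.Walk u w → P (Pi.single u c - Pi.single w c) := by
    intro u w c q
    induction q with
    | nil => rw [sub_self]; exact h0
    | cons h _ ih =>
      have := hadd _ _ (hedge _ _ c h) ih
      rwa [sub_add_sub_cancel] at this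
  obtain ⟨ρ⟩ := hF.nonempty
  have hsum : P (∑ v, (Pi.single v (b v) - Pi.single ρ (b v))) :=
    sum_induction _ P hadd h0 fun v _ => hwalk v ρ (b v) (hF v ρ).some
  have he : ∑ v, ((Pi.single v (b v) : V → ZMod 3) - Pi.single ρ (b v)) = b := by
    rw [sum_sub_distrib, univ_sum_single]
    ext x
    simp only [Pi.sub_apply, Finset.sum_apply, Pi.single_apply]
    split_ifs <;> simp [hb]
  rwa [he] at hsum

theorem exists_cross {V : Type} (F : SimpleGraph V) (hF : F.Connected) (X : V → Prop) {u v : V}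
    (hu : X u) (hv : ¬ X v) : ∃ a b, F.Adj a b ∧ X a ∧ ¬ X b := by
  obtain ⟨q⟩ := hF u v
  induction q with
  | nil => exact absurd hu hv
  | @cons a b c h _ ih =>
    by_cases hb : X b
    · exact ih hb hv
    · exact ⟨a, b, h, hu, hb⟩

theorem path_decomposition {V : Type} [Fintype V] [DecidableEq V] (G : SimpleGraph V)
    [DecidableRel G.Adj] (F : Fin 5 → SimpleGraph V) (hF : ∀ i, F i ≤ G ∧ (F i).Connected)
    (hd : Pairwise (fun i j => Disjoint (F i) (F j))) (hdvd : 3 ∣ G.edgeFinset.card) :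
    ∃ (n : ℕ) (H : Fin n → G.Subgraph),
      (∀ i, Nonempty (pathGraph 4 ≃g (H i).coe)) ∧
      Pairwise (fun i j => Disjoint (H i).edgeSet (H j).edgeSet) ∧
      (∀ e ∈ G.edgeSet, ∃ i, e ∈ (H i).edgeSet) := by
  classical
  have hdis : ∀ {i j : Fin 5} {a b}, (F i).Adj a b → (F j).Adj a b → i = j := by
    intro i j a b h1 h2
    by_contra h
    exact SimpleGraph.disjoint_left.1 (hd h) a b h1 h2
  obtain ⟨ρ⟩ := (hF 0).2.nonempty
  by_cases hV : ∃ v, v ≠ ρ
  swap
  · push Not at hV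
    refine ⟨0, fun i => i.elim0, fun i => i.elim0, fun i => i.elim0, fun e he => ?_⟩
    induction e using Sym2.ind with
    | _ a b => exact absurd ((hV a).trans (hV b).symm) (G.ne_of_adj he)
  obtain ⟨p2, hp2⟩ := exists_parent (F 2) (hF 2).2 ρ
  obtain ⟨p3, hp3⟩ := exists_parent (F 3) (hF 3).2 ρ
  let arc : V → V → Prop := fun u v => v ≠ ρ ∧ (u = p2 v ∨ u = p3 v)
  have harc : ∀ u v, arc u v → (F 2).Adj u v ∨ (F 3).Adj u v := by
    rintro u v ⟨h, rfl | rfl⟩
    · exact Or.inl (hp2 v h).1.symm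
    · exact Or.inr (hp3 v h).1.symm
  have hasym : ∀ u v, arc u v → ¬ arc v u := by
    rintro u v ⟨h1, h2⟩ ⟨h3, h4⟩
    have a1 := hp2 v h1
    have a2 := hp3 v h1
    have a3 := hp2 u h3
    have a4 := hp3 u h3
    rcases h2 with h2 | h2 <;> rcases h4 with h4 | h4
    · rw [← h2] at a1; rw [← h4] at a3; omega
    · rw [← h2] at a1; rw [← h4] at a4
      exact absurd (hdis a1.1 a4.1.symm) (by decide)
    · rw [← h2] at a2; rw [← h4] at a3
      exact absurd (hdis a2.1 a3.1.symm) (by decide)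
    · rw [← h2] at a2; rw [← h4] at a4; omega
  let base : V → V → ZMod 3 := fun u v => if arc u v then 1 else if arc v u then 0 else -1
  have hbase : ∀ u v, base u v + base v u = 1 := by
    intro u v
    simp only [base]
    by_cases h1 : arc u v
    · simp [h1, hasym u v h1]
    · by_cases h2 : arc v u
      · simp [h1, h2]
      · simp only [h1, h2, if_false]
        decide
  have hfib : ∀ (f : V → V → ZMod 3) (v : V),
      ∑ d : G.Dart with d.fst = v, f d.fst d.snd = ∑ w with G.Adj v w, f v w := by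
    intro f v
    refine sum_bij (fun d _ => d.snd) (fun d hd => ?_) (fun d hd d' hd' h => ?_)
      (fun w hw => ?_) fun d hd => ?_
    · exact mem_filter.2 ⟨mem_univ _, (mem_filter.1 hd).2 ▸ d.adj⟩
    · exact Dart.ext _ _ (Prod.ext ((mem_filter.1 hd).2.trans (mem_filter.1 hd').2.symm) h)
    · exact ⟨⟨(v, w), (mem_filter.1 hw).2⟩, mem_filter.2 ⟨mem_univ _, rfl⟩, rfl⟩
    · rw [(mem_filter.1 hd).2]
  obtain ⟨g, hg1, hg2, hg3⟩ := exists_flow (F 4) (hF 4).2
    (fun v => - ∑ d : G.Dart with d.fst = v, base d.fst d.snd) (by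
      rw [sum_neg_distrib, sum_fiberwise univ (fun d : G.Dart => d.fst), neg_eq_zero]
      have h1 : ∑ d : G.Dart, base d.snd d.fst = ∑ d : G.Dart, base d.fst d.snd :=
        Fintype.sum_equiv Dart.symm_involutive.toPerm _ _ fun d => rfl
      have h2 : ∑ d : G.Dart, (base d.fst d.snd + base d.snd d.fst) = 0 := by
        simp only [hbase, sum_const, card_univ, nsmul_eq_mul, mul_one,
          dart_card_eq_twice_card_edges]
        rw [ZMod.natCast_eq_zero_iff]
        exact Dvd.dvd.mul_left hdvd 2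
      rw [sum_add_distrib, h1] at h2
      generalize ∑ d : G.Dart, base d.fst d.snd = t at h2 ⊢
      revert t
      decide)
  let φ : G.Dart → ZMod 3 := fun d => base d.fst d.snd + g d.fst d.snd
  have hφ : ∀ d : G.Dart, φ d + φ d.symm = 1 := by
    intro d
    change base d.fst d.snd + g d.fst d.snd + (base d.snd d.fst + g d.snd d.fst) = 1
    linear_combination hbase d.fst d.snd + hg1 d.fst d.snd
  have hg0 : ∀ (i : Fin 5) a b, i ≠ 4 → (F i).Adj a b → g a b = 0 := by
    intro i a b hi h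
    by_contra h1
    exact hi (hdis h (hg2 a b h1))
  have hM : ∀ (i : Fin 5) (d : G.Dart), i = 0 ∨ i = 1 → (F i).Adj d.fst d.snd → φ d = -1 := by
    intro i d hi h
    have h1 : ∀ a b, (F i).Adj a b → ¬ arc a b := by
      intro a b h1 h2
      rcases harc a b h2 with h3 | h3 <;> have := hdis h1 h3 <;> omega
    simp only [φ, base]
    rw [hg0 i _ _ (by omega) h, if_neg (h1 _ _ h), if_neg (h1 _ _ h.symm), add_zero]
  have hZ : ∀ v, v ≠ ρ → ∃ d d' : G.Dart, d ≠ d' ∧ d.fst = v ∧ d'.fst = v ∧ φ d = 0 ∧ φ d' = 0 := by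
    intro v hv
    have h2 := (hp2 v hv).1
    have h3 := (hp3 v hv).1
    have h4 : ∀ (i : Fin 5) u (h : (F i).Adj v u), i ≠ 4 → arc u v →
        φ ⟨(v, u), (hF i).1 h⟩ = 0 := by
      intro i u h hi h5
      simp only [φ, base]
      rw [hg0 i _ _ hi h, if_neg (hasym _ _ h5), if_pos h5, add_zero]
    refine ⟨⟨(v, p2 v), (hF 2).1 h2⟩, ⟨(v, p3 v), (hF 3).1 h3⟩, fun h => ?_, rfl, rfl,
      h4 2 _ h2 (by decide) ⟨hv, Or.inl rfl⟩, h4 3 _ h3 (by decide) ⟨hv, Or.inr rfl⟩⟩
    have h5 : p2 v = p3 v := congrArg (fun d : G.Dart => d.snd) h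
    rw [h5] at h2
    exact absurd (hdis h2 h3) (by decide)
  have hcross : ∀ (X : V → Prop) u v, X u → ¬ X v → ∃ d d' : G.Dart, d ≠ d' ∧
      X d.fst ∧ ¬ X d.snd ∧ X d'.fst ∧ ¬ X d'.snd ∧ φ d = -1 ∧ φ d.symm = -1 ∧ φ d' = -1 ∧
      φ d'.symm = -1 := by
    intro X u v hu hv
    obtain ⟨a, b, h1, h2, h3⟩ := exists_cross (F 0) (hF 0).2 X hu hv
    obtain ⟨a', b', h1', h2', h3'⟩ := exists_cross (F 1) (hF 1).2 X hu hv
    refine ⟨⟨(a, b), (hF 0).1 h1⟩, ⟨(a', b'), (hF 1).1 h1'⟩, fun h => ?_, h2, h3, h2', h3',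
      hM 0 _ (Or.inl rfl) h1, hM 0 _ (Or.inl rfl) h1.symm, hM 1 _ (Or.inr rfl) h1',
      hM 1 _ (Or.inr rfl) h1'.symm⟩
    have h4 : (a, b) = (a', b') := congrArg (fun d : G.Dart => d.toProd) h
    obtain ⟨rfl, rfl⟩ := Prod.mk.inj h4
    exact absurd (hdis h1 h1') (by decide)
  obtain ⟨v1, hv1⟩ := hV
  obtain ⟨d0, hd0⟩ : ∃ d0 : G.Dart, ∀ d : G.Dart, d.fst = ρ → φ d = 0 →
      (∀ d' : G.Dart, d'.fst = ρ → φ d' = 0 → d' = d) → d = d0 := by
    by_cases h : ∃ d : G.Dart, d.fst = ρ ∧ φ d = 0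
    · obtain ⟨d0, h1, h2⟩ := h
      exact ⟨d0, fun d _ _ h3 => (h3 d0 h1 h2).symm⟩
    · obtain ⟨d0, -⟩ := hZ v1 hv1
      exact ⟨d0, fun d h1 h2 _ => absurd ⟨d, h1, h2⟩ h⟩
  have hm10 : (-1 : ZMod 3) ≠ 0 := by decide
  have hφ0 : ∀ d : G.Dart, φ d = 0 → φ d.symm ≠ 0 := by
    intro d h1 h2
    have := hφ d
    rw [h1, h2] at this
    exact absurd this (by decide)
  obtain ⟨l, hl1, hl2, hl3⟩ := exact_labels Dart.symm Dart.symm_symm (fun d : G.Dart => d.fst)
    (fun d => d.snd_ne_fst) φ hφ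
    (fun v => by
      simp only [φ]
      rw [sum_add_distrib, hfib g, sum_filter_of_ne (fun w _ h => (hF 4).1 (hg2 v w h)), hg3,
        add_neg_cancel])
    (fun v => by
      obtain ⟨u, hu⟩ : ∃ u, u ≠ v := by
        by_cases h : v = ρ
        · exact ⟨v1, h ▸ hv1⟩
        · exact ⟨ρ, Ne.symm h⟩
      obtain ⟨d, d', h1, h2, -, h3, -, h4, -, h5, -⟩ := hcross (· = v) v u rfl hu
      exact one_lt_card.2 ⟨d, mem_filter.2 ⟨mem_univ _, h2, h4⟩, d',
        mem_filter.2 ⟨mem_univ _, h3, h5⟩, h1⟩)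
    d0
    (fun S d hS => by
      have hF0 : ∀ d' : G.Dart, φ d' ≠ 0 → (φ d' = 0) = False := fun d' h => eq_false h
      have hT0 : ∀ d' : G.Dart, φ d' = 0 → (φ d' = 0) = True := fun d' h => eq_true h
      have hconst : ∀ u v, S u False → S v False := by
        intro u v hu
        by_contra hv
        obtain ⟨a, a', h1, h2, h3, h4, h5, h6, h7, h8, h9⟩ := hcross (S · False) u v hu hv
        have e1 := (hS a).1 (by
          rw [hF0 a (h6 ▸ hm10), hF0 a.symm (h7 ▸ hm10)]; exact ⟨h2, h3⟩)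
        have e2 := (hS a').1 (by
          rw [hF0 a' (h8 ▸ hm10), hF0 a'.symm (h9 ▸ hm10)]; exact ⟨h4, h5⟩)
        exact h1 (e1.trans e2.symm)
      obtain ⟨h1, h2⟩ := (hS d).2 rfl
      have hroot : ∀ e : G.Dart, φ e = 0 →
          (∀ e' : G.Dart, e'.fst = e.fst → φ e' = 0 → e' = e) → e = d0 := by
        intro e h3 h4
        by_cases h5 : e.fst = ρ
        · exact hd0 e h5 h3 fun e' h6 h7 => h4 e' (h6.trans h5.symm) h7
        · obtain ⟨a, a', h6, h7, h8, h9, h10⟩ := hZ _ h5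
          exact absurd ((h4 a h7 h9).trans (h4 a' h8 h10).symm) h6
      by_cases h3 : S ρ False
      · have h4 : φ d.symm = 0 := by
          by_contra h4
          rw [hF0 _ h4] at h2
          exact h2 (hconst _ _ h3)
        rw [hT0 _ h4] at h2
        right
        rw [← hroot d.symm h4, Dart.symm_symm]
        intro e' h5 h6
        rw [← (hS e'.symm).1, Dart.symm_symm]
        rw [Dart.symm_symm, hT0 _ h6, hF0 _ (hφ0 _ h6), h5]
        exact ⟨hconst _ _ h3, h2⟩
      · have h4 : φ d = 0 := by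
          by_contra h4
          rw [hF0 _ h4] at h1
          exact h3 (hconst _ _ h1)
        rw [hT0 _ h4] at h1
        left
        refine hroot d h4 fun e' h5 h6 => (hS e').1 ?_
        rw [hT0 _ h6, hF0 _ (hφ0 _ h6), h5]
        exact ⟨h1, fun h7 => h3 (hconst _ _ h7)⟩)
  obtain ⟨I, _, T, hT, hinn⟩ := trails_of_labels G l hl1 hl2 hl3
  exact path_of_trails G T hT hinn

end Pool.Agent.Lib.MP_1c8ed6_co.H54
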