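import Mathlib

namespace Pool.Agent.Lib.MP_1c8ed6_co

open Finset SimpleGraph

open Classical in
lemma count_pairs {J W : Type} [Fintype J] [Fintype W] (P : J → Prop) [DecidablePred P]
    (g h : J → W) (hg : Function.Injective g) :
    (∑ a, ∑ b, if ∃ j, P j ∧ a = g j ∧ b = h j then 1 else 0) = #{j | P j} := by
  rw [← Fintype.sum_prod_type' (fun a b => if ∃ j, P j ∧ a = g j ∧ b = h j then 1 else 0),
    ← Finset.card_filter, ← Finset.card_image_of_injective (f := fun j => (g j, h j)) _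
      (fun x y hxy => hg (congrArg Prod.fst hxy))]
  congr 1
  ext ⟨a, b⟩
  simp [eq_comm]

lemma sum_adj {W : Type} [Fintype W] (B : SimpleGraph W) [DecidableRel B.Adj] :
    (∑ a, ∑ b, if B.Adj a b then 1 else 0) = 2 * B.edgeFinset.card := by
  classical
  rw [← B.sum_degrees_eq_twice_card_edges]
  apply Finset.sum_congr rfl
  intro a _
  rw [← Finset.card_filter, ← card_neighborFinset_eq_degree, neighborFinset_eq_filter]

/-- Vertex set of one blob: ports, adjustable pairs, core. -/
abbrev BW (V : Type) (M m k : ℕ) : Type := (V × Fin M) ⊕ (Fin m × Bool) ⊕ Fin (k + 2)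

/-- All pairs that meet the core. -/
def base (V : Type) (M m k : ℕ) : SimpleGraph (BW V M m k) where
  Adj a b := a ≠ b ∧ ((∃ c, a = .inr (.inr c)) ∨ ∃ c, b = .inr (.inr c))
  symm := ⟨fun _ _ h => ⟨h.1.symm, h.2.symm⟩⟩
  loopless := ⟨fun _ h => h.1 rfl⟩

/-- The simple graph obtained by replacing every vertex of a multigraph by a blob. -/
def blowup {V : Type} (μ : V → V → ℕ) (hsym : ∀ u v, μ u v = μ v u) (r : V → ℕ) (M m k : ℕ) :
    SimpleGraph (V × BW V M m k) where
  Adj p q := (p.1 = q.1 ∧ ((base V M m k).Adj p.2 q.2 ∨ ∃ j : Fin m × Bool,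
      j.1.1 < r p.1 ∧ p.2 = .inr (.inl j) ∧ q.2 = .inr (.inl (j.1, !j.2)))) ∨
    (p.1 ≠ q.1 ∧ ∃ j : Fin M, j.1 < μ p.1 q.1 ∧ p.2 = .inl (q.1, j) ∧ q.2 = .inl (p.1, j))
  symm := ⟨by
    rintro ⟨u, a⟩ ⟨v, b⟩ (⟨h1, h2 | ⟨j, h2, h3, h4⟩⟩ | ⟨h1, j, h2, h3, h4⟩)
    · exact Or.inl ⟨h1.symm, Or.inl h2.symm⟩
    · exact Or.inl ⟨h1.symm, Or.inr ⟨(j.1, !j.2), h1 ▸ h2, h4, by simpa using h3⟩⟩
    · exact Or.inr ⟨h1.symm, j, hsym u v ▸ h2, h4, h3⟩⟩
  loopless := ⟨by
    rintro ⟨u, a⟩ (⟨-, h2 | ⟨j, -, h3, h4⟩⟩ | ⟨h1, -⟩)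
    · exact h2.ne rfl
    · have h5 := h3.symm.trans h4
      obtain ⟨j, x⟩ := j
      simp at h5
    · exact h1 rfl⟩

variable {V : Type} [Fintype V] [DecidableEq V] {μ : V → V → ℕ} {hsym : ∀ u v, μ u v = μ v u}
  {r : V → ℕ} {M m k : ℕ}

open Classical in
lemma blowup_count (hM : ∀ u v, μ u v ≤ M) (hr : ∀ u, r u ≤ m) (u v : V) :
    (∑ a, ∑ b, if (blowup μ hsym r M m k).Adj (u, a) (v, b) then 1 else 0) =
      if u = v then 2 * (base V M m k).edgeFinset.card + 2 * r u else μ u v := by
  split_ifs with h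
  · subst h
    have h1 := count_pairs (W := BW V M m k) (fun j : Fin m × Bool => j.1.1 < r u)
      (fun j => .inr (.inl j)) (fun j => .inr (.inl (j.1, !j.2))) (fun x y h => by simpa using h)
    have h2 : #{j : Fin m × Bool | j.1.1 < r u} = 2 * r u := by
      rw [Finset.card_filter, Fintype.sum_prod_type]
      simp only [Fintype.sum_bool]
      rw [Finset.sum_add_distrib, ← Finset.card_filter, Fin.card_filter_val_lt,
        min_eq_right (hr u), two_mul]
    rw [← sum_adj, ← h2, ← h1, ← Finset.sum_add_distrib]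
    apply Finset.sum_congr rfl
    intro a _
    rw [← Finset.sum_add_distrib]
    apply Finset.sum_congr rfl
    intro b _
    by_cases h3 : (base V M m k).Adj a b
    · have h4 : (blowup μ hsym r M m k).Adj (u, a) (u, b) := Or.inl ⟨rfl, Or.inl h3⟩
      rw [if_pos h3, if_pos h4, if_neg]
      rintro ⟨j, -, rfl, rfl⟩
      simp [base] at h3
    · rw [if_neg h3, zero_add]
      congr 1
      simp [blowup, h3]
  · have h1 := count_pairs (W := BW V M m k) (fun j : Fin M => j.1 < μ u v)
      (fun j => .inl (v, j)) (fun j => .inl (u, j)) (fun x y h => by simpa using h)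
    have h2 : #{j : Fin M | j.1 < μ u v} = μ u v := by
      rw [Fin.card_filter_val_lt, min_eq_right (hM u v)]
    rw [← h2]
    convert h1 using 5
    simp [blowup, h]

omit [Fintype V] [DecidableEq V] in
lemma blowup_inner (u : V) (a b : BW V M m k) :
    (blowup μ hsym r M m k).IsEdgeReachable k (u, a) (u, b) := by
  classical
  intro s hs
  by_contra hab
  have hne : a ≠ b := fun h => hab (h ▸ Reachable.refl _)
  let z : Fin (k + 2) → BW V M m k := fun c => .inr (.inr c)
  have hz : Function.Injective z := fun x y h => by simpa [z] using h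
  set C : Finset (Fin (k + 2)) := {c | z c ≠ a ∧ z c ≠ b} with hC
  have hCk : k ≤ C.card := by
    have h1 : #{c | z c = a} ≤ 1 := Finset.card_le_one.2 fun x hx y hy =>
      hz ((Finset.mem_filter.1 hx).2.trans (Finset.mem_filter.1 hy).2.symm)
    have h2 : #{c | z c = b} ≤ 1 := Finset.card_le_one.2 fun x hx y hy =>
      hz ((Finset.mem_filter.1 hx).2.trans (Finset.mem_filter.1 hy).2.symm)
    have h3 : (Finset.univ : Finset (Fin (k + 2))) ⊆
        C ∪ (Finset.univ.filter (z · = a) ∪ Finset.univ.filter (z · = b)) := by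
      intro c _
      simp only [hC, Finset.mem_union, Finset.mem_filter, Finset.mem_univ, true_and]
      tauto
    have h4 := (Finset.card_le_card h3).trans ((Finset.card_union_le _ _).trans
      (Nat.add_le_add_left (Finset.card_union_le _ _) _))
    rw [Finset.card_univ, Fintype.card_fin] at h4
    omega
  let g : Fin (k + 2) → Sym2 (V × BW V M m k) := fun c =>
    if s((u, a), (u, z c)) ∈ s then s((u, a), (u, z c)) else s((u, z c), (u, b))
  have hg : ∀ c ∈ C, g c ∈ s := by
    intro c hc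
    obtain ⟨h1, h2⟩ := (Finset.mem_filter.1 hc).2
    simp only [g]
    split_ifs with h3
    · exact h3
    · by_contra h4
      have h5 : ((blowup μ hsym r M m k).deleteEdges s).Adj (u, a) (u, z c) :=
        deleteEdges_adj.2 ⟨Or.inl ⟨rfl, Or.inl ⟨h1.symm, Or.inr ⟨c, rfl⟩⟩⟩, h3⟩
      have h6 : ((blowup μ hsym r M m k).deleteEdges s).Adj (u, z c) (u, b) :=
        deleteEdges_adj.2 ⟨Or.inl ⟨rfl, Or.inl ⟨h2, Or.inl ⟨c, rfl⟩⟩⟩, h4⟩
      exact hab (h5.reachable.trans h6.reachable)
  have hinj : Set.InjOn g C := by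
    intro c hc d hd h
    obtain ⟨h1, h2⟩ := (Finset.mem_filter.1 hc).2
    obtain ⟨h3, h4⟩ := (Finset.mem_filter.1 hd).2
    apply hz
    simp only [g] at h
    split_ifs at h <;> simp only [Sym2.eq_iff, Prod.mk.injEq, true_and] at h <;> grind
  have h1 : (C : Set (Fin (k + 2))).encard ≤ s.encard := Set.encard_le_encard_of_injOn hg hinj
  rw [Set.encard_coe_eq_coe_finsetCard] at h1
  exact absurd (lt_of_le_of_lt ((Nat.cast_le.2 hCk).trans h1) hs) (lt_irrefl _)

lemma blowup_conn (hM : ∀ u v, μ u v ≤ M)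
    (hcut : ∀ S : Finset V, S.Nonempty → S ≠ Finset.univ →
      k ≤ ∑ u, ∑ v, (if u ∈ S ∧ v ∉ S then 1 else 0) * μ u v) :
    (blowup μ hsym r M m k).IsEdgeConnected k := by
  classical
  rintro ⟨u, a⟩ ⟨v, b⟩ s hs
  by_contra hab
  set S : Finset V := {w | ((blowup μ hsym r M m k).deleteEdges s).Reachable (u, a) (w, a)}
    with hS
  have h1 := hcut S ⟨u, by simp [hS]⟩ (fun h => hab (by
    have h2 : v ∈ S := by rw [h]; simp
    exact (Finset.mem_filter.1 h2).2.trans (blowup_inner v a b hs)))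
  set C : Finset (V × V × Fin M) := {x | (x.1 ∈ S ∧ x.2.1 ∉ S) ∧ x.2.2.1 < μ x.1 x.2.1} with hC
  have hCk : (∑ u, ∑ v, (if u ∈ S ∧ v ∉ S then 1 else 0) * μ u v) = C.card := by
    rw [hC, Finset.card_filter, Fintype.sum_prod_type]
    apply Finset.sum_congr rfl
    intro x _
    rw [Fintype.sum_prod_type]
    apply Finset.sum_congr rfl
    intro y _
    by_cases h : x ∈ S ∧ y ∉ S
    · simp only [h, not_false_eq_true, and_self, if_true, one_mul, true_and]
      rw [← Finset.card_filter, Fin.card_filter_val_lt, min_eq_right (hM x y)]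
    · simp [h]
  let g : V × V × Fin M → Sym2 (V × BW V M m k) := fun x =>
    s((x.1, .inl (x.2.1, x.2.2)), (x.2.1, .inl (x.1, x.2.2)))
  have hg : ∀ c ∈ C, g c ∈ s := by
    rintro ⟨x, y, j⟩ hc
    obtain ⟨⟨h2, h3⟩, h4⟩ := (Finset.mem_filter.1 hc).2
    by_contra h5
    have h6 : ((blowup μ hsym r M m k).deleteEdges s).Adj (x, .inl (y, j)) (y, .inl (x, j)) :=
      deleteEdges_adj.2 ⟨Or.inr ⟨fun h : x = y => h3 (h ▸ h2), j, h4, rfl, rfl⟩, h5⟩
    exact h3 (Finset.mem_filter.2 ⟨Finset.mem_univ _, (Finset.mem_filter.1 h2).2.trans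
      ((blowup_inner x _ _ hs).trans (h6.reachable.trans (blowup_inner y _ _ hs)))⟩)
  have hinj : Set.InjOn g C := by
    rintro ⟨x, y, j⟩ hc ⟨x', y', j'⟩ hd h
    obtain ⟨⟨h2, h3⟩, -⟩ := (Finset.mem_filter.1 hc).2
    obtain ⟨⟨h4, h5⟩, -⟩ := (Finset.mem_filter.1 hd).2
    simp only [g, Sym2.eq_iff, Prod.mk.injEq, Sum.inl.injEq] at h h2 h3 h4 h5 ⊢
    grind
  have h2 : (C : Set (V × V × Fin M)).encard ≤ s.encard := Set.encard_le_encard_of_injOn hg hinj
  rw [Set.encard_coe_eq_coe_finsetCard] at h2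
  exact absurd (lt_of_le_of_lt ((Nat.cast_le.2 (hCk ▸ h1)).trans h2) hs) (lt_irrefl _)

/-- A multigraph with all cuts at least `k` and an admissible boundary `β` without orientation
gives a simple `k`-edge-connected graph without orientation for the boundary zero. -/
theorem exists_simple (hsym : ∀ u v, μ u v = μ v u) (h0 : ∀ u, μ u u = 0) (hm : 0 < m)
    (β : V → ℤ)
    (hcut : ∀ S : Finset V, S.Nonempty → S ≠ Finset.univ →
      k ≤ ∑ u, ∑ v, (if u ∈ S ∧ v ∉ S then 1 else 0) * μ u v)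
    (hβ : 2 * (m : ℤ) ∣ 2 * ∑ u, β u - ∑ u, ∑ v, (μ u v : ℤ))
    (hno : ∀ f : V → V → ℕ, (∀ u v, f u v + f v u = μ u v) →
      ¬ ∀ u, (m : ℤ) ∣ ∑ v, (f u v : ℤ) - β u) :
    ∃ (X : Type) (_ : Fintype X) (_ : DecidableEq X) (G : SimpleGraph X) (_ : DecidableRel G.Adj),
      G.IsEdgeConnected k ∧ m ∣ G.edgeFinset.card ∧ ∀ o : X → X → ℕ,
        (∀ a b, o a b + o b a = if G.Adj a b then 1 else 0) → ¬ ∀ a, m ∣ ∑ b, o a b := by
  classical
  set M := ∑ u, ∑ v, μ u v with hMdef
  have hM : ∀ u v, μ u v ≤ M := fun u v =>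
    (Finset.single_le_sum (f := fun v => μ u v) (fun _ _ => Nat.zero_le _)
      (Finset.mem_univ v)).trans
      (Finset.single_le_sum (f := fun u => ∑ v, μ u v) (fun _ _ => Nat.zero_le _)
        (Finset.mem_univ u))
  set c := (base V M m k).edgeFinset.card with hc
  have hex : ∀ u, ∃ r : ℕ, r ≤ m ∧ (m : ℤ) ∣ c + r + β u := by
    intro u
    have h1 : (0 : ℤ) < m := by exact_mod_cast hm
    have h2 := Int.emod_nonneg (-c - β u) h1.ne'
    have h3 := Int.emod_lt_of_pos (-c - β u) h1
    have h4 := Int.emod_add_mul_ediv (-c - β u) m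
    refine ⟨((-c - β u) % m).toNat, by omega, -((-c - β u) / m), ?_⟩
    rw [Int.toNat_of_nonneg h2]
    linarith
  choose r hr1 hr2 using hex
  have hN := fun u v => blowup_count (hsym := hsym) (k := k) hM hr1 u v
  refine ⟨V × BW V M m k, inferInstance, inferInstance, blowup μ hsym r M m k, inferInstance,
    blowup_conn hM hcut, ?_, ?_⟩
  · have h1 := sum_adj (blowup μ hsym r M m k)
    rw [Fintype.sum_prod_type] at h1
    have h2 : ∀ u, (∑ a, ∑ q, if (blowup μ hsym r M m k).Adj (u, a) q then 1 else 0) =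
        2 * c + 2 * r u + ∑ v, μ u v := by
      intro u
      simp only [Fintype.sum_prod_type (α₁ := V) (α₂ := BW V M m k)]
      rw [Finset.sum_comm, Finset.sum_congr rfl fun v _ => hN u v]
      have h3 : ∀ v, (if u = v then 2 * c + 2 * r u else μ u v) =
          (if u = v then 2 * c + 2 * r u else 0) + μ u v := by
        intro v
        split_ifs with h
        · rw [← h, h0, add_zero]
        · rw [zero_add]
      rw [Finset.sum_congr rfl fun v _ => h3 v, Finset.sum_add_distrib]
      simp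
    rw [Finset.sum_congr rfl fun u _ => h2 u] at h1
    have h3 : (m : ℤ) ∣ ∑ u, ((c : ℤ) + r u + β u) := Finset.dvd_sum fun u _ => hr2 u
    obtain ⟨x, hx⟩ := h3
    obtain ⟨y, hy⟩ := hβ
    have h4 := congrArg (Nat.cast : ℕ → ℤ) h1
    push_cast at h4
    simp only [Finset.sum_add_distrib, ← Finset.mul_sum] at h4 hx
    rw [← Int.natCast_dvd_natCast]
    exact ⟨x - y, by linarith⟩
  · intro o ho hd
    let f : V → V → ℕ := fun u v => ∑ a, ∑ b, o (u, a) (v, b)
    have hf : ∀ u v, f u v + f v u = if u = v then 2 * c + 2 * r u else μ u v := by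
      intro u v
      rw [← hN u v]
      simp only [f]
      rw [Finset.sum_comm (f := fun a b => o (v, a) (u, b)), ← Finset.sum_add_distrib]
      apply Finset.sum_congr rfl
      intro a _
      rw [← Finset.sum_add_distrib]
      exact Finset.sum_congr rfl fun b _ => ho _ _
    refine hno (fun u v => if u = v then 0 else f u v) (fun u v => ?_) (fun u => ?_)
    · by_cases h : u = v
      · simp [h, h0]
      · have h1 := hf u v
        rw [if_neg h] at h1
        simp [h, Ne.symm h, h1]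
    · have h1 : m ∣ ∑ v, f u v := by
        simp only [f]
        rw [Finset.sum_comm]
        apply Finset.dvd_sum
        intro a _
        have := hd (u, a)
        rwa [Fintype.sum_prod_type] at this
      have h2 := hf u u
      rw [if_pos rfl] at h2
      have h3 : ∑ v, f u v = c + r u + ∑ v, if u = v then 0 else f u v := by
        have h4 : ∀ v, f u v = (if u = v then c + r u else 0) + if u = v then 0 else f u v := by
          intro v
          split_ifs with h
          · rw [← h]; omega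
          · rw [zero_add]
        rw [Finset.sum_congr rfl fun v _ => h4 v, Finset.sum_add_distrib]
        simp
      rw [h3, ← Int.natCast_dvd_natCast] at h1
      have h4 := dvd_sub h1 (hr2 u)
      push_cast at h4 ⊢
      rwa [add_sub_assoc, add_comm, ← sub_sub, sub_add_eq_add_sub, sub_add_cancel] at h4

end Pool.Agent.Lib.MP_1c8ed6_co
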