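import Pool.Agent.Lib.MP_1c8ed6_co.H57Blob

namespace Pool.Agent.Lib.MP_1c8ed6_co

open Finset

variable {I : Type} [Fintype I] [DecidableEq I] {m : ℕ}

/-- A cycle of `m` gadgets, consecutive gadgets sharing one outer vertex. -/
def cyc (m : ℕ) (ν : I → I → ℕ) (A B : I → ℕ) : ZMod m × Option I → ZMod m × Option I → ℕ
  | (i, some u), (j, some v) => if i = j then ν u v else 0
  | (i, none), (j, some v) => (if i = j then A v else 0) + (if i = j + 1 then B v else 0)
  | (i, some u), (j, none) => (if j = i then A u else 0) + (if j = i + 1 then B u else 0)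
  | (_, none), (_, none) => 0

open Classical in
/-- The part of a cut inside one gadget. -/
noncomputable def loc (ν : I → I → ℕ) (A B : I → ℕ) (P : Finset I) (x y : Prop) : ℕ :=
  (∑ u, ∑ v, (if u ∈ P ∧ v ∉ P then 1 else 0) * ν u v) +
    (∑ u, ((if x ∧ u ∉ P then 1 else 0) + (if u ∈ P ∧ ¬ x then 1 else 0)) * A u) +
    ∑ u, ((if y ∧ u ∉ P then 1 else 0) + (if u ∈ P ∧ ¬ y then 1 else 0)) * B u

omit [DecidableEq I] in
lemma cyc_sum [NeZero m] (ν : I → I → ℕ) (A B : I → ℕ)
    (h : ZMod m × Option I → ZMod m × Option I → ℕ) :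
    ∑ p, ∑ q, h p q * cyc m ν A B p q =
      ∑ i, ((∑ u, ∑ v, h (i, some u) (i, some v) * ν u v) +
        (∑ u, (h (i, none) (i, some u) + h (i, some u) (i, none)) * A u) +
        ∑ u, (h (i + 1, none) (i, some u) + h (i, some u) (i + 1, none)) * B u) := by
  have e1 : ∑ i, ∑ j, ∑ v, h (i, none) (j, some v) * cyc m ν A B (i, none) (j, some v) =
      ∑ i, (∑ u, h (i, none) (i, some u) * A u + ∑ u, h (i + 1, none) (i, some u) * B u) := by
    rw [Finset.sum_comm]
    apply Finset.sum_congr rfl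
    intro j _
    rw [Finset.sum_comm, ← Finset.sum_add_distrib]
    apply Finset.sum_congr rfl
    intro v _
    simp [cyc, mul_add, Finset.sum_add_distrib]
  have e2 : ∀ i u, ∑ j, h (i, some u) (j, none) * cyc m ν A B (i, some u) (j, none) =
      h (i, some u) (i, none) * A u + h (i, some u) (i + 1, none) * B u := by
    intro i u
    simp [cyc, mul_add, Finset.sum_add_distrib]
  have e3 : ∀ i u, ∑ j, ∑ v, h (i, some u) (j, some v) * cyc m ν A B (i, some u) (j, some v) =
      ∑ v, h (i, some u) (i, some v) * ν u v := by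
    intro i u
    rw [Finset.sum_comm]
    simp [cyc]
  have e4 : ∀ i j, h (i, none) (j, none) * cyc m ν A B (i, none) (j, none) = 0 := by
    intro i j
    simp [cyc]
  simp only [Fintype.sum_prod_type, Fintype.sum_option, Finset.sum_add_distrib, e1, e2, e3, e4,
    Finset.sum_const_zero, add_mul]
  ring

lemma zmod_ind [NeZero m] (x : ZMod m → Prop) (h : ∀ i, x i → x (i + 1)) {a : ZMod m} (ha : x a)
    (b : ZMod m) : x b := by
  have h1 : ∀ n : ℕ, x (a + n) := by
    intro n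
    induction n with
    | zero => simpa using ha
    | succ n ih =>
      have := h _ ih
      rwa [add_assoc, ← Nat.cast_succ] at this
  have := h1 (b - a).val
  rwa [ZMod.natCast_zmod_val, add_sub_cancel] at this

lemma cyc_cut [NeZero m] {ν : I → I → ℕ} {A B : I → ℕ} {k : ℕ} (hk : k ≤ 2 * m)
    (h2 : ∀ (P : Finset I) (x y : Prop), (x ↔ y) → (x → P ≠ Finset.univ) → (¬ x → P.Nonempty) →
      k ≤ loc ν A B P x y)
    (h2' : ∀ (P : Finset I) (x y : Prop), ¬ (x ↔ y) → m ≤ loc ν A B P x y)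
    (S : Finset (ZMod m × Option I)) (hS1 : S.Nonempty) (hS2 : S ≠ Finset.univ) :
    k ≤ ∑ p, ∑ q, (if p ∈ S ∧ q ∉ S then 1 else 0) * cyc m ν A B p q := by
  classical
  let P : ZMod m → Finset I := fun i => Finset.univ.filter fun u => (i, some u) ∈ S
  let L : ZMod m → ℕ := fun i => loc ν A B (P i) ((i, none) ∈ S) ((i + 1, none) ∈ S)
  have e : ∑ p, ∑ q, (if p ∈ S ∧ q ∉ S then 1 else 0) * cyc m ν A B p q = ∑ i, L i := by
    rw [cyc_sum]
    simp [L, loc, P]
  rw [e]
  have h1 : ∀ i, L i ≤ ∑ i, L i := fun i =>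
    Finset.single_le_sum (fun _ _ => Nat.zero_le _) (Finset.mem_univ i)
  by_cases h6 : ∀ i, (i, none) ∈ S → (i + 1, none) ∈ S
  · by_cases h7 : ∃ a, (a, none) ∈ S
    · obtain ⟨a, ha⟩ := h7
      have h8 := zmod_ind _ h6 ha
      obtain ⟨⟨i, u⟩, hu⟩ : ∃ p, p ∉ S := by
        by_contra h9
        push Not at h9
        exact hS2 (Finset.eq_univ_of_forall h9)
      rcases u with _ | u
      · exact absurd (h8 i) hu
      refine (h2 (P i) _ _ (iff_of_true (h8 i) (h8 (i + 1))) (fun _ h => hu ?_)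
        (fun h => absurd (h8 i) h)).trans (h1 i)
      have : u ∈ P i := by rw [h]; simp
      simpa [P] using this
    · push Not at h7
      obtain ⟨⟨i, u⟩, hu⟩ := hS1
      rcases u with _ | u
      · exact absurd hu (h7 i)
      exact (h2 (P i) _ _ (iff_of_false (h7 i) (h7 (i + 1))) (fun h => absurd h (h7 i))
        (fun _ => ⟨u, by simpa [P] using hu⟩)).trans (h1 i)
  · push Not at h6
    obtain ⟨i, h7, h8⟩ := h6
    obtain ⟨j, h9, h10⟩ : ∃ j, (j, none) ∉ S ∧ (j + 1, none) ∈ S := by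
      by_contra h9
      push Not at h9
      exact zmod_ind (fun j => (j, none) ∉ S) h9 h8 i h7
    have h11 : L i + L j ≤ ∑ i, L i := Finset.add_le_sum (fun _ _ => Nat.zero_le _)
      (Finset.mem_univ i) (Finset.mem_univ j) (fun h => h9 (h ▸ h7))
    have h12 : m ≤ L i := h2' _ _ _ (fun h => h8 (h.1 h7))
    have h13 : m ≤ L j := h2' _ _ _ (fun h => h9 (h.2 h10))
    omega

omit [DecidableEq I] in
lemma half_sum {f ν : I → I → ℕ} (h : ∀ u v, f u v + f v u = ν u v) :
    2 * ∑ u, ∑ v, f u v = ∑ u, ∑ v, ν u v := by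
  rw [two_mul]
  nth_rewrite 2 [Finset.sum_comm]
  simp only [← Finset.sum_add_distrib, h]

omit [DecidableEq I] in
lemma cyc_no [NeZero m] (hm : 2 ≤ m) {ν : I → I → ℕ} {A B : I → ℕ} {β : I → ℤ}
    (hA : ∑ u, A u = m) (hB : ∑ u, B u = m)
    (h3 : ∀ f : I → I → ℕ, (∀ u v, f u v + f v u = ν u v) → ∀ a b : I → ℕ, (∀ u, a u ≤ A u) →
      (∀ u, b u ≤ B u) → ∑ u, a u = 1 → ∑ u, b u = 1 →
      ¬ ∀ v, (m : ℤ) ∣ ∑ u, (f v u : ℤ) + (A v - a v) + (B v - b v) - β v)
    (h4 : 2 * (m : ℤ) ∣ 2 * ∑ u, β u - ∑ u, ∑ v, (ν u v : ℤ) + 4)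
    (f : ZMod m × Option I → ZMod m × Option I → ℕ)
    (hf : ∀ p q, f p q + f q p = cyc m ν A B p q) :
    ¬ ∀ p, (m : ℤ) ∣ ∑ q, (f p q : ℤ) - p.2.elim 3 β := by
  intro hd
  have : Fact (1 < m) := ⟨hm⟩
  have hne : ∀ i : ZMod m, i ≠ i + 1 := fun i => by simp
  have hz : ∀ p q, cyc m ν A B p q = 0 → f p q = 0 := fun p q h => by
    have := hf p q
    omega
  have e1 : ∀ i v, ∑ q, f (i, some v) q = ∑ u, f (i, some v) (i, some u) +
      f (i, some v) (i, none) + f (i, some v) (i + 1, none) := by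
    intro i v
    rw [Fintype.sum_prod_type]
    simp only [Fintype.sum_option, Finset.sum_add_distrib]
    rw [Fintype.sum_eq_add i (i + 1) (hne i) (fun j hj => hz _ _ (by simp [cyc, hj.1, hj.2])),
      Fintype.sum_eq_single i (fun j hj => Finset.sum_eq_zero fun u _ =>
        hz _ _ (by simp [cyc, hj.symm]))]
    ring
  have e2 : ∀ i, ∑ q, f (i + 1, none) q = ∑ u, f (i + 1, none) (i + 1, some u) +
      ∑ u, f (i + 1, none) (i, some u) := by
    intro i
    rw [Fintype.sum_prod_type]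
    simp only [Fintype.sum_option, Finset.sum_add_distrib]
    rw [Finset.sum_eq_zero (fun j _ => hz _ _ (by simp [cyc])), zero_add,
      Fintype.sum_eq_add (i + 1) i (hne i).symm (fun j hj => Finset.sum_eq_zero fun u _ =>
        hz _ _ (by simp [cyc, hj.1.symm, hj.2.symm]))]
  have eA : ∀ i v, f (i, none) (i, some v) + f (i, some v) (i, none) = A v := fun i v => by
    rw [hf]; simp [cyc]
  have eB : ∀ i v, f (i + 1, none) (i, some v) + f (i, some v) (i + 1, none) = B v :=
    fun i v => by rw [hf]; simp [cyc]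
  have eν : ∀ i u v, f (i, some u) (i, some v) + f (i, some v) (i, some u) = ν u v :=
    fun i u v => by rw [hf]; simp [cyc]
  set X : ZMod m → ℕ := fun i => ∑ u, f (i, none) (i, some u) with hX
  set Y : ZMod m → ℕ := fun i => ∑ u, f (i + 1, none) (i, some u) with hY
  have hXm : ∀ i, X i + ∑ u, f (i, some u) (i, none) = m := fun i => by
    rw [← Finset.sum_add_distrib]; simp only [eA, hA]
  have hYm : ∀ i, Y i + ∑ u, f (i, some u) (i + 1, none) = m := fun i => by
    rw [← Finset.sum_add_distrib]; simp only [eB, hB]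
  have hXY : ∀ i, (m : ℤ) ∣ X i + Y i - 2 := by
    intro i
    have h5 : (m : ℤ) ∣ ∑ v, (∑ q, (f (i, some v) q : ℤ) - β v) :=
      Finset.dvd_sum fun v _ => hd (i, some v)
    have h6 := congrArg (Nat.cast : ℕ → ℤ) (half_sum (eν i))
    have h7 := congrArg (Nat.cast : ℕ → ℤ) (hXm i)
    have h8 := congrArg (Nat.cast : ℕ → ℤ) (hYm i)
    simp only [← Nat.cast_sum, e1] at h5
    obtain ⟨x, hx⟩ := h5
    obtain ⟨y, hy⟩ := h4
    push_cast at h6 h7 h8 hx ⊢
    simp only [Finset.sum_add_distrib, Finset.sum_sub_distrib] at hx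
    exact ⟨2 - x - y, by linarith⟩
  have hstep : ∀ i, (X (i + 1) : ZMod m) = X i + 1 := by
    intro i
    have h5 : (m : ℤ) ∣ ∑ q, (f (i + 1, none) q : ℤ) - 3 := hd (i + 1, none)
    simp only [← Nat.cast_sum, e2] at h5
    obtain ⟨x, hx⟩ := h5
    obtain ⟨y, hy⟩ := hXY i
    have h8 : (m : ℤ) ∣ X (i + 1) - (X i + 1) := by
      simp only [hX, hY] at hy ⊢
      push_cast at hx hy ⊢
      exact ⟨x - y, by linarith⟩
    have h9 := (ZMod.intCast_zmod_eq_zero_iff_dvd _ m).2 h8
    push_cast at h9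
    exact sub_eq_zero.1 h9
  have hall := zmod_ind (fun i => (X i : ZMod m) = X 0 + i)
    (fun i h => by rw [hstep, h, add_assoc]) (a := 0) (by simp)
  set i : ZMod m := 1 - X 0 with hi
  have h5 : (m : ℤ) ∣ X i - 1 := by
    rw [← ZMod.intCast_zmod_eq_zero_iff_dvd]
    push_cast
    rw [hall i, hi]
    ring
  have h6 : (m : ℤ) ∣ Y i - 1 := by
    have := dvd_sub (hXY i) h5
    rwa [show (X i + Y i - 2 - (X i - 1) : ℤ) = Y i - 1 by ring] at this
  have h7 : ∀ z : ℕ, z ≤ m → (m : ℤ) ∣ z - 1 → z = 1 := by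
    intro z h8 h9
    have := Int.eq_zero_of_abs_lt_dvd h9 (by rw [abs_lt]; omega)
    omega
  refine h3 _ (eν i) (fun u => f (i, none) (i, some u)) (fun u => f (i + 1, none) (i, some u))
    (fun u => by have := eA i u; omega) (fun u => by have := eB i u; omega)
    (h7 (X i) (by have := hXm i; omega) h5) (h7 (Y i) (by have := hYm i; omega) h6) fun v => ?_
  have h8 : (m : ℤ) ∣ ∑ q, (f (i, some v) q : ℤ) - β v := hd (i, some v)
  simp only [← Nat.cast_sum, e1] at h8
  rw [← eA i v, ← eB i v]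
  push_cast at h8 ⊢
  rwa [add_sub_cancel_left, add_sub_cancel_left]

/-- A gadget gives a simple graph without orientation. -/
theorem exists_simple_of_gadget (hm : 2 ≤ m) {ν : I → I → ℕ} {A B : I → ℕ} {β : I → ℤ} {k : ℕ}
    (hk : k ≤ 2 * m) (hs : ∀ u v, ν u v = ν v u) (h0 : ∀ u, ν u u = 0)
    (hA : ∑ u, A u = m) (hB : ∑ u, B u = m)
    (h2 : ∀ (P : Finset I) (x y : Prop), (x ↔ y) → (x → P ≠ Finset.univ) → (¬ x → P.Nonempty) →
      k ≤ loc ν A B P x y)
    (h2' : ∀ (P : Finset I) (x y : Prop), ¬ (x ↔ y) → m ≤ loc ν A B P x y)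
    (h3 : ∀ f : I → I → ℕ, (∀ u v, f u v + f v u = ν u v) → ∀ a b : I → ℕ, (∀ u, a u ≤ A u) →
      (∀ u, b u ≤ B u) → ∑ u, a u = 1 → ∑ u, b u = 1 →
      ¬ ∀ v, (m : ℤ) ∣ ∑ u, (f v u : ℤ) + (A v - a v) + (B v - b v) - β v)
    (h4 : 2 * (m : ℤ) ∣ 2 * ∑ u, β u - ∑ u, ∑ v, (ν u v : ℤ) + 4) :
    ∃ (X : Type) (_ : Fintype X) (_ : DecidableEq X) (G : SimpleGraph X) (_ : DecidableRel G.Adj),
      G.IsEdgeConnected k ∧ m ∣ G.edgeFinset.card ∧ ∀ o : X → X → ℕ,
        (∀ a b, o a b + o b a = if G.Adj a b then 1 else 0) → ¬ ∀ a, m ∣ ∑ b, o a b := by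
  have : NeZero m := ⟨by omega⟩
  refine exists_simple (μ := cyc m ν A B) ?_ ?_ (by omega) (fun p => p.2.elim 3 β)
    (cyc_cut hk h2 h2') ?_ (cyc_no hm hA hB h3 h4)
  · rintro ⟨i, _ | u⟩ ⟨j, _ | v⟩ <;> simp only [cyc]
    by_cases h : i = j
    · simp [h, hs u v]
    · simp [h, Ne.symm h]
  · rintro ⟨i, _ | u⟩ <;> simp [cyc, h0]
  · have e := congrArg (Nat.cast : ℕ → ℤ) (cyc_sum (m := m) ν A B (fun _ _ => 1))
    simp only [one_mul, ← Finset.mul_sum, hA, hB, Finset.sum_const, Finset.card_univ, ZMod.card,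
      smul_eq_mul] at e
    push_cast at e
    rw [e, Fintype.sum_prod_type]
    obtain ⟨y, hy⟩ := h4
    simp only [Fintype.sum_option, Option.elim, Finset.sum_const, Finset.card_univ, ZMod.card,
      nsmul_eq_mul]
    exact ⟨1 + m * y - 2 * m, by linear_combination (m : ℤ) * hy⟩

/-- Two copies of a half gadget joined by the weighted matching `R`. -/
def dbl (ν : I → I → ℕ) (R : I → ℕ) : I ⊕ I → I ⊕ I → ℕ
  | .inl u, .inl v => ν u v
  | .inr u, .inr v => ν u v
  | .inl u, .inr v => if u = v then R u else 0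
  | .inr u, .inl v => if u = v then R u else 0

open Classical in
lemma dbl_loc (ν : I → I → ℕ) (A R : I → ℕ) (P : Finset (I ⊕ I)) (x y : Prop) :
    loc (dbl ν R) (Sum.elim A 0) (Sum.elim 0 A) P x y =
      (∑ u, ∑ v, (if u ∈ P.toLeft ∧ v ∉ P.toLeft then 1 else 0) * ν u v) +
      (∑ u, ∑ v, (if u ∈ P.toRight ∧ v ∉ P.toRight then 1 else 0) * ν u v) +
      (∑ u, ((if u ∈ P.toRight ∧ u ∉ P.toLeft then 1 else 0) +
        (if u ∈ P.toLeft ∧ u ∉ P.toRight then 1 else 0)) * R u) +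
      (∑ u, ((if x ∧ u ∉ P.toLeft then 1 else 0) + (if u ∈ P.toLeft ∧ ¬ x then 1 else 0)) * A u) +
      ∑ u, ((if y ∧ u ∉ P.toRight then 1 else 0) +
        (if u ∈ P.toRight ∧ ¬ y then 1 else 0)) * A u := by
  simp only [loc, dbl, Fintype.sum_sum_type, Sum.elim_inl, Sum.elim_inr, Pi.zero_apply, mul_zero,
    Finset.sum_const_zero, add_zero, zero_add, Finset.mem_toLeft, Finset.mem_toRight,
    Finset.sum_add_distrib, mul_ite, Finset.sum_ite_eq, Finset.mem_univ, if_true, add_mul]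
  ring

/-- A half gadget gives a simple graph without orientation. -/
theorem exists_simple_of_half (hm : 2 ≤ m) {ν : I → I → ℕ} {A R : I → ℕ} {β : I → ℤ} {k : ℕ}
    (hk : k ≤ 2 * m) (hmk : m ≤ k) (hs : ∀ u v, ν u v = ν v u) (h0 : ∀ u, ν u u = 0)
    (hA : ∑ u, A u = m) (hR : ∑ u, R u = m)
    (h2 : ∀ P : Finset I, P.Nonempty → P ≠ Finset.univ → ∀ x y, k ≤ loc ν A R P x y)
    (h2' : ∀ P : Finset I, P.Nonempty → P ≠ Finset.univ →
      k ≤ 2 * ∑ u, ∑ v, (if u ∈ P ∧ v ∉ P then 1 else 0) * ν u v)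
    (h3 : ∀ f : I → I → ℕ, (∀ u v, f u v + f v u = ν u v) → ∀ a : I → ℕ, ∑ u, a u = 1 →
      ¬ ∀ v, (m : ℤ) ∣ ∑ u, (f v u : ℤ) + (A v - a v) - β v)
    (h4 : 2 * (m : ℤ) ∣ 2 * ∑ u, β u - ∑ u, ∑ v, (ν u v : ℤ) + 2) :
    ∃ (X : Type) (_ : Fintype X) (_ : DecidableEq X) (G : SimpleGraph X) (_ : DecidableRel G.Adj),
      G.IsEdgeConnected k ∧ m ∣ G.edgeFinset.card ∧ ∀ o : X → X → ℕ,
        (∀ a b, o a b + o b a = if G.Adj a b then 1 else 0) → ¬ ∀ a, m ∣ ∑ b, o a b := by
  classical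
  have hI : Nonempty I := by
    by_contra h
    rw [not_nonempty_iff] at h
    simp at hA
    omega
  have tri : ∀ Q : Finset I, (Q.Nonempty ∧ Q ≠ Finset.univ) ∨ Q = ∅ ∨ Q = Finset.univ := by
    intro Q
    rw [Finset.nonempty_iff_ne_empty]
    tauto
  have key : ∀ (P : Finset (I ⊕ I)) (x y : Prop),
      k ≤ loc (dbl ν R) (Sum.elim A 0) (Sum.elim 0 A) P x y ∨
      ((P.toLeft = ∅ ∨ P.toLeft = Finset.univ) ∧ (P.toRight = ∅ ∨ P.toRight = Finset.univ)) := by
    intro P x y
    rw [dbl_loc]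
    rcases tri P.toLeft with h5 | h5 <;> rcases tri P.toRight with h6 | h6
    · have := h2' _ h5.1 h5.2
      have := h2' _ h6.1 h6.2
      left
      omega
    · left
      rcases h6 with h6 | h6
      · have := h2 _ h5.1 h5.2 x False
        simp only [loc, h6, Finset.notMem_empty, false_and, and_true, not_false_eq_true,
          if_false] at this ⊢
        omega
      · have := h2 _ h5.1 h5.2 x True
        simp only [loc, h6, Finset.mem_univ, true_and, and_false, not_true_eq_false,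
          if_false] at this ⊢
        omega
    · left
      rcases h5 with h5 | h5
      · have := h2 _ h6.1 h6.2 y False
        simp only [loc, h5, Finset.notMem_empty, false_and, and_true, not_false_eq_true,
          if_false, add_zero, zero_add] at this ⊢
        omega
      · have := h2 _ h6.1 h6.2 y True
        simp only [loc, h5, Finset.mem_univ, true_and, and_false, not_true_eq_false,
          if_false, add_zero, zero_add] at this ⊢
        omega
    · exact Or.inr ⟨h5, h6⟩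
  refine exists_simple_of_gadget (ν := dbl ν R) (A := Sum.elim A 0) (B := Sum.elim 0 A)
    (β := Sum.elim β β) hm hk ?_ ?_ (by simp [hA]) (by simp [hA]) ?_ ?_ ?_ ?_
  · rintro (u | u) (v | v) <;> simp only [dbl, hs u v] <;> grind
  · rintro (u | u) <;> simp [dbl, h0]
  · intro P x y h5 h6 h7
    rcases key P x y with h | ⟨h8, h9⟩
    · exact h
    rw [dbl_loc]
    have h10 := P.toLeft_disjSum_toRight
    by_cases hx : x <;> rcases h8 with h8 | h8 <;> rcases h9 with h9 | h9 <;>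
      rw [h8, h9] at h10 <;> simp [← h10, ← h5, hx, hA, hR] at h6 h7 ⊢ <;> omega
  · intro P x y h5
    rcases key P x y with h | ⟨h8, h9⟩
    · omega
    rw [dbl_loc]
    by_cases hx : x <;> simp only [hx, true_iff, false_iff, not_not] at h5 <;>
      rcases h8 with h8 | h8 <;> rcases h9 with h9 | h9 <;> simp [h8, h9, h5, hx, hA, hR]
  · intro f hf a b ha hb ha1 hb1 hd
    have a0 : ∀ u, a (.inr u) = 0 := fun u => Nat.le_zero.1 (ha (.inr u))
    have b0 : ∀ u, b (.inl u) = 0 := fun u => Nat.le_zero.1 (hb (.inl u))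
    simp only [Fintype.sum_sum_type, a0, b0, Finset.sum_const_zero, add_zero, zero_add] at ha1 hb1
    have e1 : ∀ v, ∑ u, f (.inl v) (.inr u) = f (.inl v) (.inr v) := fun v =>
      Fintype.sum_eq_single v fun u hu => by
        have := hf (.inl v) (.inr u)
        simp only [dbl, hu.symm, if_false] at this
        omega
    have e2 : ∀ v, ∑ u, f (.inr v) (.inl u) = f (.inr v) (.inl v) := fun v =>
      Fintype.sum_eq_single v fun u hu => by
        have := hf (.inr v) (.inl u)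
        simp only [dbl, hu.symm, if_false] at this
        omega
    have e3 : ∑ v, f (.inl v) (.inr v) + ∑ v, f (.inr v) (.inl v) = m := by
      rw [← Finset.sum_add_distrib]
      simp [hf, dbl, hR]
    have d1 : ∀ v, (m : ℤ) ∣ ∑ u, (f (.inl v) (.inl u) : ℤ) + (A v - a (.inl v)) - β v +
        f (.inl v) (.inr v) := by
      intro v
      have := hd (.inl v)
      simp only [Fintype.sum_sum_type, ← Nat.cast_sum, e1, b0, Sum.elim_inl, Pi.zero_apply,
        sub_self, add_zero] at this ⊢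
      convert this using 1
      rw [Nat.cast_add]
      ring
    have d2 : ∀ v, (m : ℤ) ∣ ∑ u, (f (.inr v) (.inr u) : ℤ) + (A v - b (.inr v)) - β v +
        f (.inr v) (.inl v) := by
      intro v
      have := hd (.inr v)
      simp only [Fintype.sum_sum_type, ← Nat.cast_sum, e2, a0, Sum.elim_inr, Pi.zero_apply,
        sub_self, add_zero] at this ⊢
      convert this using 1
      rw [Nat.cast_add]
      ring
    have e4 : m ∣ ∑ v, f (.inl v) (.inr v) := by
      obtain ⟨x, hx⟩ := Finset.dvd_sum fun v (_ : v ∈ Finset.univ) => d1 v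
      obtain ⟨y, hy⟩ := h4
      have h6 := congrArg (Nat.cast : ℕ → ℤ)
        (half_sum (f := fun u v => f (.inl u) (.inl v)) (ν := ν) fun u v => hf _ _)
      have h7 := congrArg (Nat.cast : ℕ → ℤ) hA
      have h8 := congrArg (Nat.cast : ℕ → ℤ) ha1
      rw [← Int.natCast_dvd_natCast]
      push_cast at h6 h7 h8 ⊢
      simp only [Finset.sum_add_distrib, Finset.sum_sub_distrib] at hx
      exact ⟨x + y - 1, by linarith⟩
    by_cases h5 : ∑ v, f (.inl v) (.inr v) = 0
    · refine h3 (fun u v => f (.inl u) (.inl v)) (fun u v => hf _ _) _ ha1 fun v => ?_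
      simpa [Finset.sum_eq_zero_iff.1 h5 v (Finset.mem_univ v)] using d1 v
    · have h6 : ∑ v, f (.inr v) (.inl v) = 0 := by
        have := Nat.le_of_dvd (Nat.pos_of_ne_zero h5) e4
        omega
      refine h3 (fun u v => f (.inr u) (.inr v)) (fun u v => hf _ _) _ hb1 fun v => ?_
      simpa [Finset.sum_eq_zero_iff.1 h6 v (Finset.mem_univ v)] using d2 v
  · obtain ⟨y, hy⟩ := h4
    have h7 := congrArg (Nat.cast : ℕ → ℤ) hR
    simp only [Fintype.sum_sum_type, dbl, Sum.elim_inl, Sum.elim_inr, Finset.sum_add_distrib,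
      Nat.cast_ite, Nat.cast_zero, Finset.sum_ite_eq, Finset.mem_univ, if_true]
    push_cast at h7
    exact ⟨2 * y - 1, by linarith⟩

end Pool.Agent.Lib.MP_1c8ed6_co
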