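import Pool.Agent.Lib.MP_1c8ed6_co.H57Cycle

namespace Pool.Agent.Lib.MP_1c8ed6_co

open Finset

variable {I : Type} [Fintype I] [DecidableEq I] {m : ℕ}

/-- The complete graph plus the extra multigraph `ξ`. -/
def plusK (ξ : I → I → ℕ) (u v : I) : ℕ := (if u = v then 0 else 1) + ξ u v

lemma plusK_deg (ξ : I → I → ℕ) (v : I) :
    ∑ u, plusK ξ v u + 1 = Fintype.card I + ∑ u, ξ v u := by
  have h : ∀ u, (if v = u then 0 else 1) + (if v = u then 1 else 0) = 1 := fun u => by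
    split_ifs <;> rfl
  have h1 := Finset.sum_congr (rfl : (Finset.univ : Finset I) = _) fun u _ => h u
  simp only [Finset.sum_add_distrib, Finset.sum_ite_eq, Finset.mem_univ, if_true,
    Finset.sum_const, Finset.card_univ, smul_eq_mul, mul_one] at h1
  simp only [plusK, Finset.sum_add_distrib]
  omega

lemma plusK_cut (ξ : I → I → ℕ) (P : Finset I) :
    ∑ u, ∑ v, (if u ∈ P ∧ v ∉ P then 1 else 0) * plusK ξ u v =
      P.card * Pᶜ.card + ∑ u, ∑ v, (if u ∈ P ∧ v ∉ P then 1 else 0) * ξ u v := by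
  have h : ∀ u v, (if u ∈ P ∧ v ∉ P then 1 else 0) * plusK ξ u v =
      (if u ∈ P then 1 else 0) * (if v ∈ Pᶜ then 1 else 0) +
        (if u ∈ P ∧ v ∉ P then 1 else 0) * ξ u v := by
    intro u v
    by_cases h1 : u ∈ P <;> by_cases h2 : v ∈ P <;> simp [h1, h2, plusK]
    exact fun h => h2 (h ▸ h1)
  simp only [h, Finset.sum_add_distrib]
  rw [← Finset.sum_mul_sum, ← Finset.card_filter, ← Finset.card_filter, Finset.filter_univ_mem,
    Finset.filter_univ_mem]

lemma loc_compl {ν : I → I → ℕ} (hs : ∀ u v, ν u v = ν v u) (A B : I → ℕ) (P : Finset I)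
    (x y : Prop) : loc ν A B Pᶜ (¬ x) (¬ y) = loc ν A B P x y := by
  unfold loc
  rw [Finset.sum_comm]
  simp only [Finset.mem_compl, not_not]
  congr 1
  · congr 1
    · refine Finset.sum_congr rfl fun u _ => Finset.sum_congr rfl fun v _ => ?_
      rw [hs v u]
      simp only [and_comm]
    · refine Finset.sum_congr rfl fun u _ => ?_
      by_cases h1 : x <;> by_cases h2 : u ∈ P <;> simp [h1, h2]
  · refine Finset.sum_congr rfl fun u _ => ?_
    by_cases h1 : y <;> by_cases h2 : u ∈ P <;> simp [h1, h2]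

lemma gadget_cut {ξ : I → I → ℕ} {A B : I → ℕ} (hm : 4 ≤ m) (hn : Fintype.card I + 2 = 2 * m)
    (hs : ∀ u v, ξ u v = ξ v u) (h0 : ∀ u, ξ u u = 0)
    (hA : ∑ u, A u = m) (hB : ∑ u, B u = m) (hA2 : ∀ u, A u + 2 ≤ m) (hB2 : ∀ u, B u + 2 ≤ m)
    (hd : ∀ v, 2 ≤ ∑ u, ξ v u + A v + B v) (P : Finset I) (h1 : P.Nonempty)
    (h2 : P ≠ Finset.univ) (x y : Prop) : 2 * m - 1 ≤ loc (plusK ξ) A B P x y := by
  classical
  have hs' : ∀ u v, plusK ξ u v = plusK ξ v u := fun u v => by simp [plusK, hs u v, eq_comm]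
  have one : ∀ (w : I) (x y : Prop), 2 * m - 1 ≤ loc (plusK ξ) A B {w} x y := by
    intro w x y
    have e1 : ∑ u, ∑ v, (if u ∈ ({w} : Finset I) ∧ v ∉ ({w} : Finset I) then 1 else 0) *
        plusK ξ u v = ∑ v, plusK ξ w v := by
      rw [Fintype.sum_eq_single w (fun u hu => by simp [hu])]
      refine Finset.sum_congr rfl fun v _ => ?_
      by_cases h : v = w <;> simp [h, plusK, h0]
    have e2 : ∀ (C : I → ℕ) (z : Prop), ∑ u, C u = m → C w + 2 ≤ m →
        min 2 (C w) ≤ ∑ u, ((if z ∧ u ∉ ({w} : Finset I) then 1 else 0) +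
          (if u ∈ ({w} : Finset I) ∧ ¬ z then 1 else 0)) * C u := by
      intro C z h3 h4
      rw [← Finset.add_sum_erase _ _ (Finset.mem_univ w)] at h3 ⊢
      by_cases hz : z
      · rw [Finset.sum_congr rfl (g := fun u => C u) (fun u hu => by
          simp [hz, (Finset.mem_erase.1 hu).1])]
        omega
      · simp [hz]
    have e3 := plusK_deg ξ w
    have e4 := e2 A x hA (hA2 w)
    have e5 := e2 B y hB (hB2 w)
    have e6 := hd w
    unfold loc
    rw [e1]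
    omega
  have h3 : Pᶜ.Nonempty := by
    rw [Finset.nonempty_iff_ne_empty]
    exact fun h => h2 (Finset.compl_eq_empty_iff P |>.1 h)
  by_cases h4 : P.card = 1
  · obtain ⟨w, rfl⟩ := Finset.card_eq_one.1 h4
    exact one w x y
  by_cases h5 : Pᶜ.card = 1
  · obtain ⟨w, hw⟩ := Finset.card_eq_one.1 h5
    rw [← loc_compl hs', hw]
    exact one w _ _
  have h6 := Finset.card_pos.2 h1
  have h7 := Finset.card_pos.2 h3
  have h8 := Finset.card_add_card_compl P
  obtain ⟨a, ha⟩ : ∃ a, P.card = a + 2 := ⟨P.card - 2, by omega⟩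
  obtain ⟨b, hb⟩ : ∃ b, Pᶜ.card = b + 2 := ⟨Pᶜ.card - 2, by omega⟩
  have h9 : 2 * m - 1 ≤ P.card * Pᶜ.card := by
    rw [ha, hb]
    have : (a + 2) * (b + 2) = a * b + 2 * a + 2 * b + 4 := by ring
    omega
  unfold loc
  rw [plusK_cut]
  omega

lemma gadget_cut' (ξ : I → I → ℕ) (hm : 3 ≤ m) (hn : Fintype.card I + 2 = 2 * m) (P : Finset I)
    (h1 : P.Nonempty) (h2 : P ≠ Finset.univ) :
    2 * m - 1 ≤ 2 * ∑ u, ∑ v, (if u ∈ P ∧ v ∉ P then 1 else 0) * plusK ξ u v := by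
  have h3 : Pᶜ.Nonempty := by
    rw [Finset.nonempty_iff_ne_empty]
    exact fun h => h2 (Finset.compl_eq_empty_iff P |>.1 h)
  have h6 := Finset.card_pos.2 h1
  have h7 := Finset.card_pos.2 h3
  have h8 := Finset.card_add_card_compl P
  obtain ⟨a, ha⟩ : ∃ a, P.card = a + 1 := ⟨P.card - 1, by omega⟩
  obtain ⟨b, hb⟩ : ∃ b, Pᶜ.card = b + 1 := ⟨Pᶜ.card - 1, by omega⟩
  rw [plusK_cut, ha, hb]
  have : (a + 1) * (b + 1) = a * b + a + b + 1 := by ring
  omega

lemma gadget_no {ξ : I → I → ℕ} {A T W : I → ℕ} {c ω τ : ℕ}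
    (hn : Fintype.card I + 2 = 2 * m) (hc : m = 2 * c + ω) (hω : ω ≤ 1)
    (hτ : τ + 2 ≤ c) (hd : ∀ v, ∑ u, ξ v u = 2 * T v + W v) (hT : ∀ v, T v ≤ 1)
    (hW : ∀ v, W v ≤ ω) (hWs : ∑ v, W v = 2 * ω)
    (hcut : ∀ P : Finset I, ∑ u, ∑ v, (if u ∈ P ∧ v ∉ P then 1 else 0) * ξ u v +
      ∑ v ∈ P, W v ≤ 2 * τ + 2 * ω)
    (f : I → I → ℕ) (hf : ∀ u v, f u v + f v u = plusK ξ u v) (a : I → ℕ)
    (ha : ∑ u, a u = 1) :
    ¬ ∀ v, (m : ℤ) ∣ ∑ u, (f v u : ℤ) + (A v - a v) - (3 * c - 1 + ω + T v + A v) := by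
  intro h
  set D : I → ℤ := fun v => ∑ u, ((f v u : ℤ) - f u v) with hD
  set g : I → ℤ := fun v => m + 1 - ω - W v + 2 * a v with hg
  have hn' := congrArg (Nat.cast : ℕ → ℤ) hn
  have hval : ∀ v, D v = g v ∨ D v = g v - 2 * m := by
    intro v
    have h1 := plusK_deg ξ v
    rw [hd v, ← Finset.sum_congr rfl fun u _ => hf v u, Finset.sum_add_distrib] at h1
    have h2 : a v ≤ 1 := ha ▸ Finset.single_le_sum (fun _ _ => Nat.zero_le _) (Finset.mem_univ v)
    have h4 := hT v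
    have h5 := hW v
    obtain ⟨t, ht⟩ := h v
    simp only [hD, hg, Finset.sum_sub_distrib, ← Nat.cast_sum] at ht ⊢
    have h6 : t ≤ 0 := by
      by_contra h7
      have : (m : ℤ) * 1 ≤ m * t := mul_le_mul_of_nonneg_left (by omega) (by omega)
      omega
    have h7 : -1 ≤ t := by
      by_contra h7
      have : (m : ℤ) * t ≤ m * (-2) := mul_le_mul_of_nonneg_left (by omega) (by omega)
      omega
    obtain rfl | rfl : t = 0 ∨ t = -1 := by omega
    · left; omega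
    · right; omega
  set P : Finset I := Finset.univ.filter fun v => D v = g v with hP
  have h0 : ∀ Q : Finset I, ∑ v ∈ Q, ∑ u ∈ Q, ((f v u : ℤ) - f u v) = 0 := by
    intro Q
    simp only [Finset.sum_sub_distrib]
    rw [Finset.sum_comm, sub_self]
  have h1 : ∑ v, D v = 0 := h0 _
  have h2 : ∑ v, g v = Fintype.card I * (m + 1 - ω) - 2 * ω + 2 := by
    simp only [hg, Finset.sum_sub_distrib, Finset.sum_add_distrib, ← Finset.mul_sum,
      ← Nat.cast_sum, ha, hWs, Finset.sum_const, Finset.card_univ, nsmul_eq_mul, Nat.cast_id]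
    push_cast
    ring
  have h3 : ∑ v ∈ P, D v = ∑ v ∈ P, g v :=
    Finset.sum_congr rfl fun v hv => (Finset.mem_filter.1 hv).2
  have h4 : ∑ v ∈ Pᶜ, D v = ∑ v ∈ Pᶜ, g v - Pᶜ.card * (2 * m) := by
    rw [Finset.sum_congr rfl (g := fun v => g v - 2 * m) fun v hv =>
      (hval v).resolve_left (by simpa [hP] using hv), Finset.sum_sub_distrib]
    simp
  have h5 := Finset.sum_add_sum_compl P D
  have h6 := Finset.sum_add_sum_compl P g
  have h7 := congrArg (Nat.cast : ℕ → ℤ) (Finset.card_add_card_compl P)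
  push_cast at hn' h7
  have h8 : (Pᶜ.card : ℤ) = m - ω := by
    apply mul_right_cancel₀ (b := 2 * (m : ℤ)) (by omega)
    have : (Fintype.card I : ℤ) = 2 * m - 2 := by omega
    rw [this] at h2
    linarith
  have h9 : (P.card : ℤ) = m - 2 + ω := by omega
  have h10 : P.card * (m + 1 - ω) - ∑ v ∈ P, (W v : ℤ) ≤ ∑ v ∈ P, g v := by
    rw [← nsmul_eq_mul, ← Finset.sum_const, ← Finset.sum_sub_distrib]
    exact Finset.sum_le_sum fun v _ => by simp only [hg]; omega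
  have h11 : ∑ v ∈ P, D v ≤
      ((∑ u, ∑ v, (if u ∈ P ∧ v ∉ P then 1 else 0) * plusK ξ u v : ℕ) : ℤ) := by
    have e1 : ∑ v ∈ P, D v = ∑ v ∈ P, ∑ u ∈ Pᶜ, ((f v u : ℤ) - f u v) := by
      simp only [hD]
      rw [Finset.sum_congr rfl fun v _ => (Finset.sum_add_sum_compl P _).symm,
        Finset.sum_add_distrib, h0, zero_add]
    have e2 : ∑ u, ∑ v, (if u ∈ P ∧ v ∉ P then 1 else 0) * plusK ξ u v =
        ∑ v ∈ P, ∑ u ∈ Pᶜ, plusK ξ v u := by
      rw [← Finset.sum_add_sum_compl P, Finset.sum_eq_zero (s := Pᶜ) (fun u hu => by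
        simp [Finset.mem_compl.1 hu]), add_zero]
      refine Finset.sum_congr rfl fun u hu => ?_
      rw [← Finset.sum_add_sum_compl P, Finset.sum_eq_zero (s := P) (fun v hv => by simp [hv]),
        zero_add]
      exact Finset.sum_congr rfl fun v hv => by simp [hu, Finset.mem_compl.1 hv]
    rw [e1, e2]
    push_cast
    refine Finset.sum_le_sum fun v _ => Finset.sum_le_sum fun u _ => ?_
    have := hf v u
    omega
  have h12 := hcut P
  rw [plusK_cut, Nat.cast_add, Nat.cast_mul, h8] at h11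
  rw [← Nat.cast_sum] at h10
  have h14 : (P.card : ℤ) * (m + 1 - ω) = P.card * (m - ω) + P.card := by ring
  omega

lemma gadget_sum {ξ : I → I → ℕ} {A T W : I → ℕ} {c ω : ℕ}
    (hn : Fintype.card I + 2 = 2 * m) (hc : m = 2 * c + ω)
    (hd : ∀ v, ∑ u, ξ v u = 2 * T v + W v) (hWs : ∑ v, W v = 2 * ω) (hA : ∑ u, A u = m) :
    2 * (m : ℤ) ∣
      2 * ∑ v, (3 * c - 1 + ω + T v + A v : ℤ) - ∑ u, ∑ v, (plusK ξ u v : ℤ) + 2 := by
  have h1 : ∀ v, 2 * (3 * c - 1 + ω + T v + A v : ℤ) - ∑ u, (plusK ξ v u : ℤ) =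
      m + 1 - ω - W v + 2 * A v := by
    intro v
    have := plusK_deg ξ v
    rw [hd v] at this
    rw [← Nat.cast_sum]
    omega
  rw [Finset.mul_sum, ← Finset.sum_sub_distrib, Finset.sum_congr rfl fun v _ => h1 v]
  simp only [Finset.sum_add_distrib, Finset.sum_sub_distrib, ← Finset.mul_sum, ← Nat.cast_sum, hA,
    hWs, Finset.sum_const, Finset.card_univ, nsmul_eq_mul]
  have : (Fintype.card I : ℤ) = 2 * m - 2 := by omega
  push_cast
  rw [this]
  exact ⟨m + 1 - ω, by ring⟩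

/-- Extra edges: `ε` edges between two special vertices, and `τ` triangles. -/
def xi (r τ ε : ℕ) : Bool ⊕ Fin r ⊕ Fin τ × Fin 3 → Bool ⊕ Fin r ⊕ Fin τ × Fin 3 → ℕ
  | .inl x, .inl y => if x = y then 0 else ε
  | .inr (.inr p), .inr (.inr q) => if p.1 = q.1 then (if p.2 = q.2 then 0 else 1) else 0
  | _, _ => 0

theorem star_lower (hm : 8 ≤ m) :
    ∃ (X : Type) (_ : Fintype X) (_ : DecidableEq X) (G : SimpleGraph X) (_ : DecidableRel G.Adj),
      G.IsEdgeConnected (2 * m - 1) ∧ m ∣ G.edgeFinset.card ∧ ∀ o : X → X → ℕ,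
        (∀ a b, o a b + o b a = if G.Adj a b then 1 else 0) → ¬ ∀ a, m ∣ ∑ b, o a b := by
  obtain ⟨c, ε, τ, r, e, hc, hε, hτ, hr, he, he2⟩ : ∃ c ε τ r e : ℕ, m = 2 * c + ε ∧ ε ≤ 1 ∧
      τ + 2 ≤ c ∧ r + 3 * τ + 4 = 2 * m ∧ 2 + e + r = m + ε ∧ e ≤ 2 :=
    ⟨m / 2, m % 2, (m - m % 2) / 3, 2 * m - 4 - 3 * ((m - m % 2) / 3),
      3 * ((m - m % 2) / 3) + 2 + m % 2 - m, by omega, by omega, by omega, by omega,
      by omega, by omega⟩
  let A : Bool ⊕ Fin r ⊕ Fin τ × Fin 3 → ℕ :=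
    Sum.elim (fun x => if x then 1 - ε else 1 + e) (Sum.elim (fun _ => 1) (fun _ => 0))
  let B : Bool ⊕ Fin r ⊕ Fin τ × Fin 3 → ℕ :=
    Sum.elim (fun x => if x then 1 + e else 1 - ε) (Sum.elim (fun _ => 1) (fun _ => 0))
  let T : Bool ⊕ Fin r ⊕ Fin τ × Fin 3 → ℕ :=
    Sum.elim (fun _ => 0) (Sum.elim (fun _ => 0) (fun _ => 1))
  let W : Bool ⊕ Fin r ⊕ Fin τ × Fin 3 → ℕ := Sum.elim (fun _ => ε) (fun _ => 0)
  have hn : Fintype.card (Bool ⊕ Fin r ⊕ Fin τ × Fin 3) + 2 = 2 * m := by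
    simp
    omega
  have hs : ∀ u v, xi r τ ε u v = xi r τ ε v u := by
    rintro (x | x | x) (y | y | y) <;> simp [xi, eq_comm]
  have h0 : ∀ u, xi r τ ε u u = 0 := by
    rintro (x | x | x) <;> simp [xi]
  have hA : ∑ u, A u = m := by
    simp [A]
    omega
  have hB : ∑ u, B u = m := by
    simp [B]
    omega
  have hd : ∀ v, ∑ u, xi r τ ε v u = 2 * T v + W v := by
    rintro (x | x | ⟨t, i⟩)
    · cases x <;> simp [xi, T, W]
    · simp [xi, T, W]
    · simp only [Fintype.sum_sum_type, Fintype.sum_prod_type, xi, T, W]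
      rw [Fintype.sum_eq_single t (fun s hs => by simp [hs.symm])]
      fin_cases i <;> simp [Fin.sum_univ_three]
  have hWs : ∑ v, W v = 2 * ε := by simp [W]
  refine exists_simple_of_half (ν := plusK (xi r τ ε)) (A := A) (R := B)
    (β := fun v => 3 * c - 1 + ε + T v + A v) (by omega) (by omega) (by omega)
    (fun u v => by simp [plusK, hs u v, eq_comm]) (fun u => by simp [plusK, h0]) hA hB
    (gadget_cut (by omega) hn hs h0 hA hB ?_ ?_ ?_) (gadget_cut' _ (by omega) hn)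
    (gadget_no hn hc hε hτ hd ?_ ?_ hWs ?_) (gadget_sum hn hc hd hWs hA)
  · rintro ((_ | _) | x | x) <;> simp [A] <;> omega
  · rintro ((_ | _) | x | x) <;> simp [B] <;> omega
  · intro v
    rw [hd v]
    rcases v with ((_ | _) | x | x) <;> simp [A, B, T, W] <;> omega
  · rintro (x | x | x) <;> simp [T]
  · rintro (x | x) <;> simp [W]
  · intro P
    have e1 : ∑ v ∈ P, W v = ∑ x : Bool, if Sum.inl x ∈ P then ε else 0 := by
      rw [← Finset.univ_inter P, ← Finset.sum_ite_mem, Fintype.sum_sum_type]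
      simp [W]
    have e2 : ∀ t : Fin τ, ∑ i : Fin 3, ∑ s : Fin τ, ∑ j : Fin 3,
        (if Sum.inr (Sum.inr (t, i)) ∈ P ∧ Sum.inr (Sum.inr (s, j)) ∉ P then 1 else 0) *
          (if t = s then (if i = j then 0 else 1) else 0) ≤ 2 := by
      intro t
      rw [Finset.sum_comm, Fintype.sum_eq_single t (fun s hs => by simp [hs.symm])]
      by_cases a0 : Sum.inr (Sum.inr (t, 0)) ∈ P <;> by_cases a1 : Sum.inr (Sum.inr (t, 1)) ∈ P <;>
        by_cases a2 : Sum.inr (Sum.inr (t, 2)) ∈ P <;> simp [Fin.sum_univ_three, a0, a1, a2]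
    have e3 := Finset.sum_le_sum fun t (_ : t ∈ Finset.univ) => e2 t
    simp only [Finset.sum_const, Finset.card_univ, Fintype.card_fin, smul_eq_mul] at e3
    rw [e1]
    simp only [Fintype.sum_sum_type, Fintype.sum_prod_type, xi, mul_zero, Finset.sum_const_zero,
      add_zero, zero_add, Fintype.sum_bool]
    by_cases a0 : Sum.inl true ∈ P <;> by_cases a1 : Sum.inl false ∈ P <;>
      simp only [a0, a1, not_true, not_false_iff, and_true, and_false, if_true, if_false,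
        Bool.true_eq_false, Bool.false_eq_true] <;> omega

end Pool.Agent.Lib.MP_1c8ed6_co
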