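import Pool.Agent.Lib.MP_1c8ed6_co.Star
import Pool.Agent.Lib.MP_ae5681_co.Pack

namespace Pool.Agent.Lib.MP_1c8ed6_co

open Finset SimpleGraph

/-- A `2k`-edge-connected graph has `k` edge-disjoint spanning trees. -/
theorem trees_of_edgeConnected {V : Type} [Fintype V] [DecidableEq V] [Nonempty V]
    (G : SimpleGraph V) (k : ℕ) (hG : G.IsEdgeConnected (2 * k)) :
    ∃ F : Fin k → SimpleGraph V, (∀ i, F i ≤ G ∧ (F i).IsTree) ∧
      Pairwise (fun i j => Disjoint (F i) (F j)) := by
  classical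
  have hends : ∀ e : G.edgeSet, ∃ x y, e.1 = s(x, y) := fun e =>
    Sym2.ind (fun x y => ⟨x, y, rfl⟩) e.1
  choose s t hst using hends
  obtain ⟨R, hR, hdis⟩ := Pool.Agent.Lib.MP_ae5681_co.pack (J := Fin k)
    (Finset.univ : Finset G.edgeSet) s t id 1 one_pos
    (fun g => Finset.card_le_one.2 fun a ha b hb => by
      have h1 : a = g := (Finset.mem_filter.1 ha).2
      have h2 : b = g := (Finset.mem_filter.1 hb).2
      rw [h1, h2])
    (fun A hA1 hA2 => by
      rw [Fintype.card_fin, mul_one]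
      by_contra hc
      obtain ⟨a, ha⟩ := hA1
      obtain ⟨b, hb⟩ : ∃ b, b ∉ A := by
        by_contra h5
        push Not at h5
        exact hA2 (Finset.eq_univ_of_forall h5)
      obtain ⟨p⟩ := hG a b (s := Subtype.val '' ((Finset.univ.filter
        (fun e => ¬ (s e ∈ A ↔ t e ∈ A)) : Finset G.edgeSet) : Set G.edgeSet)) (by
          rw [Subtype.val_injective.encard_image, Set.encard_coe_eq_coe_finsetCard]
          exact Nat.cast_lt.2 (not_le.1 hc))
      obtain ⟨d, -, hd1, hd2⟩ := p.exists_boundary_dart (A : Set V) ha hb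
      obtain ⟨hd3, hd4⟩ := SimpleGraph.deleteEdges_adj.1 d.adj
      refine hd4 ⟨⟨s(d.fst, d.snd), hd3⟩, Finset.mem_coe.2 (Finset.mem_filter.2
        ⟨Finset.mem_univ _, ?_⟩), rfl⟩
      rcases Sym2.eq_iff.1 (hst ⟨s(d.fst, d.snd), hd3⟩) with ⟨h5, h6⟩ | ⟨h5, h6⟩
      · rw [← h5, ← h6]; exact fun h => hd2 (h.1 hd1)
      · rw [← h5, ← h6]; exact fun h => hd2 (h.2 hd1))
  let C : Fin k → SimpleGraph V := fun j =>
    SimpleGraph.fromEdgeSet (Subtype.val '' (R j : Set G.edgeSet))
  have hCadj : ∀ j a b, (C j).Adj a b ↔ ∃ h : G.Adj a b, ⟨s(a, b), h⟩ ∈ R j := by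
    intro j a b
    simp only [C, SimpleGraph.fromEdgeSet_adj, Set.mem_image, Finset.mem_coe]
    constructor
    · rintro ⟨⟨⟨e, he⟩, h1, h2⟩, -⟩
      simp only at h2
      subst h2
      exact ⟨he, h1⟩
    · rintro ⟨h1, h2⟩
      exact ⟨⟨_, h2, rfl⟩, h1.ne⟩
  have hconn : ∀ j, (C j).Connected := by
    intro j
    refine ⟨fun u v => ?_⟩
    by_contra huv
    obtain ⟨e, he, hx⟩ := (hR j).2 (Finset.univ.filter fun w => (C j).Reachable u w)
      ⟨u, by simp⟩ (fun h => huv (by
        have : v ∈ Finset.univ.filter fun w => (C j).Reachable u w := by rw [h]; simp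
        simpa using this))
    have h1 : G.Adj (s e) (t e) := by
      have := e.2
      rwa [hst e] at this
    have h2 : (C j).Adj (s e) (t e) := (hCadj j _ _).2 ⟨h1, by
      have : (⟨s(s e, t e), h1⟩ : G.edgeSet) = e := Subtype.ext (hst e).symm
      rwa [this]⟩
    apply hx
    simp only [Finset.mem_filter, Finset.mem_univ, true_and]
    exact ⟨fun h => h.trans h2.reachable, fun h => h.trans h2.symm.reachable⟩
  choose F hF1 hF2 using fun j => (hconn j).exists_isTree_le
  refine ⟨F, fun j => ⟨fun a b h => ((hCadj j a b).1 (hF1 j h)).1, hF2 j⟩, fun i j hij => ?_⟩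
  refine disjoint_iff_inf_le.2 ?_
  rintro a b ⟨h1, h2⟩
  obtain ⟨h3, h4⟩ := (hCadj i a b).1 (hF1 i h1)
  obtain ⟨h5, h6⟩ := (hCadj j a b).1 (hF1 j h2)
  exact hij (hdis i j _ _ h4 h6 rfl).2

theorem card_edge_star (m : ℕ) : (starGraph (0 : Fin (m + 1))).edgeFinset.card = m := by
  rw [card_edge_starGraph]
  simp

/-- Star decomposition of a `2m`-edge-connected graph. -/
theorem star_upper (m : ℕ) (V : Type) [Fintype V] [DecidableEq V] (G : SimpleGraph V)
    [DecidableRel G.Adj] (hG : G.IsEdgeConnected (2 * m)) (hd : m ∣ G.edgeFinset.card) :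
    ∃ (n : ℕ) (H : Fin n → G.Subgraph),
      (∀ i, Nonempty (starGraph (0 : Fin (m + 1)) ≃g (H i).coe)) ∧
      Pairwise (fun i j => Disjoint (H i).edgeSet (H j).edgeSet) ∧
      (∀ e ∈ G.edgeSet, ∃ i, e ∈ (H i).edgeSet) := by
  rcases isEmpty_or_nonempty V with hV | hV
  · refine ⟨0, fun i => i.elim0, fun i => i.elim0, fun i => i.elim0, fun e he => ?_⟩
    induction e using Sym2.ind with
    | _ a b => exact (hV.false a).elim
  · apply star_decomposition G (0 : Fin (m + 1))
    · apply trees_of_edgeConnected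
      rwa [card_edge_star]
    · rwa [card_edge_star]

/-- A star decomposition gives an orientation with all out-degrees divisible by `m`. -/
theorem orient_of_decomp {m : ℕ} {V : Type} [Fintype V] [DecidableEq V] {G : SimpleGraph V}
    [DecidableRel G.Adj] {n : ℕ} (H : Fin n → G.Subgraph)
    (h1 : ∀ i, Nonempty (starGraph (0 : Fin (m + 1)) ≃g (H i).coe))
    (h2 : Pairwise (fun i j => Disjoint (H i).edgeSet (H j).edgeSet))
    (h3 : ∀ e ∈ G.edgeSet, ∃ i, e ∈ (H i).edgeSet) :
    ∃ o : V → V → ℕ, (∀ a b, o a b + o b a = if G.Adj a b then 1 else 0) ∧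
      ∀ a, m ∣ ∑ b, o a b := by
  classical
  let φ := fun i => (h1 i).some
  let c : Fin n → V := fun i => (φ i 0).1
  have hz : ∀ i x, (φ i).symm x = 0 → c i = x.1 := by
    intro i x h
    have h4 := congrArg (fun w => (φ i w).1) h
    simpa using h4.symm
  have hc : ∀ i a b, (H i).Adj a b → (c i = a ∨ c i = b) := by
    intro i a b h
    have h4 : (H i).coe.Adj ⟨a, h.fst_mem⟩ ⟨b, h.snd_mem⟩ := h
    rw [← (φ i).symm.map_adj_iff, starGraph_adj] at h4
    exact h4.2.imp (hz i _) (hz i _)
  have hdeg : ∀ i, (∑ b, if (H i).Adj (c i) b then 1 else 0) = m := by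
    intro i
    rw [← Finset.card_filter]
    have h4 : Finset.univ.filter (fun b => (H i).Adj (c i) b) =
        (Finset.univ.filter (fun w : Fin (m + 1) => w ≠ 0)).image (fun w => (φ i w).1) := by
      ext b
      simp only [Finset.mem_filter, Finset.mem_univ, true_and, Finset.mem_image]
      constructor
      · intro h
        exact ⟨(φ i).symm ⟨b, h.snd_mem⟩, fun h5 => h.ne (hz i _ h5), by simp⟩
      · rintro ⟨w, hw, rfl⟩
        have h5 : (H i).coe.Adj (φ i 0) (φ i w) :=
          (φ i).map_adj_iff.2 (starGraph_center_adj hw.symm)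
        exact h5
    rw [h4, Finset.card_image_of_injective _
      (fun x y h => (φ i).injective (Subtype.ext h))]
    simp [Finset.filter_ne']
  refine ⟨fun a b => ∑ i, if c i = a ∧ (H i).Adj a b then 1 else 0, fun a b => ?_, fun a => ?_⟩
  · rw [← Finset.sum_add_distrib]
    have h4 : ∀ i, ((if c i = a ∧ (H i).Adj a b then 1 else 0) +
        if c i = b ∧ (H i).Adj b a then 1 else 0) = if (H i).Adj a b then 1 else 0 := by
      intro i
      by_cases h : (H i).Adj a b
      · have h5 := h.ne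
        rcases hc i a b h with h6 | h6
        · simp [h, h6, h5]
        · simp [h, h6, h.symm, h5.symm]
      · have h5 : ¬ (H i).Adj b a := fun h6 => h h6.symm
        simp [h, h5]
    rw [Finset.sum_congr rfl fun i _ => h4 i]
    split_ifs with h
    · obtain ⟨i, hi⟩ := h3 s(a, b) h
      rw [Finset.sum_eq_single i]
      · exact if_pos hi
      · intro j _ hj
        exact if_neg fun h5 => Set.disjoint_left.1 (h2 hj) (show s(a, b) ∈ _ from h5) hi
      · simp
    · exact Finset.sum_eq_zero fun i _ => if_neg fun h5 => h h5.adj_sub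
  · rw [Finset.sum_comm]
    apply Finset.dvd_sum
    intro i _
    by_cases h : c i = a
    · subst h
      simp only [true_and]
      rw [hdeg i]
    · simp [h]

end Pool.Agent.Lib.MP_1c8ed6_co
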