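import Pool.Agent.Lib.MP_ae5681_co.Pack
import Pool.Agent.Shared.ModOrient.Orient

/-! Circular flows in highly edge-connected multigraphs. -/

set_option autoImplicit false

namespace Pool.Agent.Lib.MP_1c8ed6_co.Flow

open Finset Pool.Agent.Lib.MP_ae5681_co Pool.Agent.Shared.ModOrient

variable {V E : Type} [Fintype V] [DecidableEq V] [Fintype E] [DecidableEq E]

/-- Tree packing from a bound on the number of components. -/
theorem packD [Nonempty V] (s t : E → V) (N : ℕ) (hN : 0 < N)
    (hdim : ∀ J : Finset E, N * Module.finrank ℚ (Zs s t (fun e => e ∈ J)) ≤ N + #(univ \ J)) :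
    ∃ col : E → Fin N, ∀ (i : Fin N) (x : V → ℝ), (∀ e, col e = i → x (s e) = x (t e)) →
      ∀ u v, x u = x v := by
  classical
  set c : Finset (E × Fin N) → ℕ :=
    fun S => ∑ j, Module.finrank ℚ (Zs s t (fun e => (e, j) ∈ S)) with hc
  have hmono : ∀ P P' : E → Prop, (∀ e, P e → P' e) → Zs s t P' ≤ Zs s t P :=
    fun P P' h x hx e he => hx e (h e he)
  obtain ⟨A', h1, h2⟩ := rado c (fun S T hST => Finset.sum_le_sum fun j _ =>
      Submodule.finrank_mono (hmono _ _ fun e he => hST he))
    (fun S T => by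
      simp only [hc]
      rw [← Finset.sum_add_distrib, ← Finset.sum_add_distrib]
      apply Finset.sum_le_sum
      intro j _
      rw [← Submodule.finrank_sup_add_finrank_inf_eq, add_comm]
      apply Nat.add_le_add
      · apply Submodule.finrank_mono
        intro x hx e he
        rcases Finset.mem_union.1 he with he | he
        · exact hx.1 e he
        · exact hx.2 e he
      · apply Submodule.finrank_mono
        exact sup_le (hmono _ _ fun e he => (Finset.mem_inter.1 he).1)
          (hmono _ _ fun e he => (Finset.mem_inter.1 he).2))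
    (univ : Finset E) N _ (fun g => ({g} : Finset E) ×ˢ (univ : Finset (Fin N))) le_rfl
    (fun J0 _ => by
      have h3 : ∀ j : Fin N, Zs s t (fun e => (e, j) ∈
          J0.biUnion (fun g => ({g} : Finset E) ×ˢ (univ : Finset (Fin N)))) =
          Zs s t (fun e => e ∈ J0) := by
        intro j
        congr 1
        funext e
        simp
      have h3' : c (J0.biUnion (fun g => ({g} : Finset E) ×ˢ (univ : Finset (Fin N)))) =
          N * Module.finrank ℚ (Zs s t (fun e => e ∈ J0)) := by
        simp only [hc]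
        rw [Finset.sum_congr rfl (fun j _ => by rw [h3 j])]
        simp
      rw [h3']
      exact hdim J0)
  set S := (univ : Finset E).biUnion A' with hS
  have hmem : ∀ e j, (e, j) ∈ S → (e, j) ∈ A' e := by
    intro e j h
    obtain ⟨g, hg, h3⟩ := Finset.mem_biUnion.1 h
    have h4 := (h1 g hg).1 h3
    simp only [Finset.mem_product, Finset.mem_singleton, Finset.mem_univ, and_true] at h4
    exact h4 ▸ h3
  refine ⟨fun e => if h : ∃ j, (e, j) ∈ A' e then h.choose else ⟨0, hN⟩, fun j x hx u v => ?_⟩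
  by_contra huv
  have h4 := two_le_dim s t (fun e => (e, j) ∈ S) (A := univ.filter fun w => x w = x u)
    ⟨u, by simp⟩ (fun h => huv (Finset.mem_filter.1 (Finset.eq_univ_iff_forall.1 h v)).2.symm)
    (fun e he => by
      have h5 : ∃ j, (e, j) ∈ A' e := ⟨j, hmem e j he⟩
      have h6 := Finset.card_le_one.1 (h1 e (Finset.mem_univ e)).2 _ h5.choose_spec _ (hmem e j he)
      have h7 := hx e (by simp only [dif_pos h5]; exact congrArg Prod.snd h6)
      simp [h7])
  have h5 : ∑ _j : Fin N, 1 < c S :=
    Finset.sum_lt_sum (fun j _ => one_le_dim s t _) ⟨j, Finset.mem_univ _, by omega⟩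
  simp only [Finset.sum_const, Finset.card_univ, Fintype.card_fin, smul_eq_mul, mul_one] at h5
  omega

/-- Tree packing from the partition condition. -/
theorem packP [Nonempty V] (s t : E → V) (N : ℕ) (hN : 0 < N)
    (hP : ∀ P : Finpartition (univ : Finset V),
      N * #P.parts ≤ N + #{e | P.part (s e) ≠ P.part (t e)}) :
    ∃ col : E → Fin N, ∀ (i : Fin N) (x : V → ℝ), (∀ e, col e = i → x (s e) = x (t e)) →
      ∀ u v, x u = x v := by
  classical
  refine packD s t N hN fun J => ?_
  set π : V → (Zs s t (fun e => e ∈ J) → ℚ) := fun v x => x.1 v with hπ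
  set P := Finpartition.ofSetoid (Setoid.ker π) with hPdef
  have hrel : ∀ u v, v ∈ P.part u ↔ π u = π v := fun u v =>
    Finpartition.mem_part_ofSetoid_iff_rel
  have h1 : Module.finrank ℚ (Zs s t (fun e => e ∈ J)) ≤ #P.parts := by
    let L : Zs s t (fun e => e ∈ J) →ₗ[ℚ] (P.parts → ℚ) :=
      { toFun := fun x p => x.1 (P.nonempty_of_mem_parts p.2).choose
        map_add' := fun x y => rfl
        map_smul' := fun c x => rfl }
    have hL : Function.Injective L := by
      intro x y hxy
      apply Subtype.ext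
      funext v
      have a1 := congrFun hxy ⟨P.part v, P.part_mem.2 (Finset.mem_univ v)⟩
      have a2 := (hrel _ _).1 (P.nonempty_of_mem_parts
        (P.part_mem.2 (Finset.mem_univ v))).choose_spec
      exact (congrFun a2 x).trans (a1.trans (congrFun a2 y).symm)
    simpa using LinearMap.finrank_le_finrank_of_injective hL
  refine (Nat.mul_le_mul_left N h1).trans ((hP P).trans (Nat.add_le_add_left
    (Finset.card_le_card fun e he => ?_) N))
  refine Finset.mem_sdiff.2 ⟨Finset.mem_univ e, fun hJ => (Finset.mem_filter.1 he).2 ?_⟩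
  have a1 : π (s e) = π (t e) := funext fun x => x.2 e hJ
  ext w
  rw [hrel, hrel, a1]

/-- Tree packing with the sharp count: all cuts at least `K` and `2 N (n - 1) ≤ K n`. -/
theorem packN [Nonempty V] (s t : E → V) (K N : ℕ) (hN : 0 < N)
    (hcut : ∀ A : Finset V, A.Nonempty → A ≠ univ → K ≤ cutN univ s t A)
    (hK : 2 * N * (Fintype.card V - 1) ≤ K * Fintype.card V) :
    ∃ col : E → Fin N, ∀ (i : Fin N) (x : V → ℝ), (∀ e, col e = i → x (s e) = x (t e)) →
      ∀ u v, x u = x v := by
  refine packD s t N hN fun J0 => ?_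
  have hd : Module.finrank ℚ (Zs s t (fun e => e ∈ J0)) ≤ Fintype.card V := by
    simpa using Submodule.finrank_le (Zs s t (fun e => e ∈ J0))
  rcases dim_bound hcut (fun e => e ∈ J0) with h4 | h4
  · calc _ ≤ N * 1 := Nat.mul_le_mul_left _ h4
      _ ≤ _ := by omega
  · have h5 : (univ : Finset E).filter (fun e => ¬ e ∈ J0) = univ \ J0 := by
      ext e
      simp
    rw [h5] at h4
    generalize Module.finrank ℚ (Zs s t (fun e => e ∈ J0)) = d at hd h4 ⊢
    generalize (univ \ J0).card = r at h4 ⊢
    obtain ⟨n, hn⟩ : ∃ n, Fintype.card V = n + 1 :=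
      ⟨_, (Nat.succ_pred_eq_of_pos Fintype.card_pos).symm⟩
    rw [hn] at hd hK
    rw [Nat.add_sub_cancel] at hK
    have h6 : (n + 1) * (N * d) ≤ (n + 1) * (N + r) := by
      have a1 : 2 * N * n * d ≤ K * (n + 1) * d := Nat.mul_le_mul_right _ hK
      have a2 : (n + 1) * (K * d) ≤ (n + 1) * (2 * r) := Nat.mul_le_mul_left _ h4
      have a3 : N * d ≤ N * (n + 1) := Nat.mul_le_mul_left _ hd
      nlinarith
    exact Nat.le_of_mul_le_mul_left h6 (Nat.succ_pos n)

/-- The net outflow at a vertex. -/
def net (s t : E → V) (f : E → ℤ) (v : V) : ℤ :=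
  ∑ e, ((if s e = v then f e else 0) - if t e = v then f e else 0)

omit [Fintype V] [DecidableEq E] in
theorem card_tail {s t o : E → V} (ho : ∀ e, o e = s e ∨ o e = t e) (v : V) :
    (#{e | o e = v} : ℤ) =
      net s t (fun e => if o e = s e then 1 else 0) v + ∑ e, if t e = v then 1 else 0 := by
  rw [net, ← Finset.sum_add_distrib, Finset.card_filter]
  push_cast
  refine Finset.sum_congr rfl fun e _ => ?_
  by_cases h : o e = s e
  · simp [h]
  · have h' := (ho e).resolve_left h
    simp only [if_neg h]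
    simp [h']

omit [Fintype V] [DecidableEq E] in
theorem sum_net (s t : E → V) (f : E → ℤ) (S : Finset V) :
    ∑ v ∈ S, net s t f v = ∑ e, ((if s e ∈ S then f e else 0) - if t e ∈ S then f e else 0) := by
  unfold net
  rw [Finset.sum_comm]
  refine Finset.sum_congr rfl fun e _ => ?_
  simp [Finset.sum_sub_distrib]

omit [Fintype V] [DecidableEq E] in
theorem sum_in (t : E → V) (S : Finset V) :
    ∑ v ∈ S, ∑ e, (if t e = v then (1 : ℤ) else 0) = ∑ e, if t e ∈ S then 1 else 0 := by
  rw [Finset.sum_comm]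
  refine Finset.sum_congr rfl fun e _ => ?_
  simp

omit [DecidableEq E] in
/-- From a modular flow to an integer flow. -/
theorem lift (s t : E → V) {N : ℤ} (hN : 0 < N) (g : E → ℤ) (h0 : ∀ e, 0 ≤ g e)
    (h1 : ∀ e, g e ≤ N) (hd : ∀ v, N ∣ net s t g v) :
    ∃ f : E → ℤ, (∀ v, net s t f v = 0) ∧ ∀ e, f e = g e ∨ f e = g e - N := by
  choose h hh using hd
  have key : ∀ S : Finset V, N * ∑ v ∈ S, (h v + ∑ e, if t e = v then (1 : ℤ) else 0) =
      ∑ e, (((if s e ∈ S then g e else 0) - if t e ∈ S then g e else 0) +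
        N * if t e ∈ S then 1 else 0) := by
    intro S
    rw [Finset.sum_add_distrib, mul_add, sum_in, Finset.mul_sum, Finset.mul_sum,
      Finset.sum_add_distrib, ← sum_net]
    simp only [hh]
  obtain ⟨o, ho, hy⟩ := hakimi s t (fun v => h v + ∑ e, if t e = v then (1 : ℤ) else 0)
    (by
      apply mul_left_cancel₀ hN.ne'
      rw [key]
      simp [mul_comm])
    (fun S => by
      apply le_of_mul_le_mul_left _ hN
      rw [key, Finset.card_filter]
      push_cast
      rw [Finset.mul_sum]
      refine Finset.sum_le_sum fun e _ => ?_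
      have a0 := h0 e
      have a1 := h1 e
      by_cases hs : s e ∈ S <;> by_cases ht : t e ∈ S <;> simp [hs, ht] <;> linarith)
  refine ⟨fun e => g e - N * if o e = s e then 1 else 0, fun v => ?_, fun e => ?_⟩
  · have a1 := hy v
    rw [card_tail ho] at a1
    have a2 : net s t (fun e => g e - N * if o e = s e then 1 else 0) v =
        net s t g v - N * net s t (fun e => if o e = s e then 1 else 0) v := by
      unfold net
      rw [Finset.mul_sum, ← Finset.sum_sub_distrib]
      refine Finset.sum_congr rfl fun e _ => ?_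
      split_ifs <;> ring
    rw [a2, hh, add_right_cancel a1, sub_self]
  · by_cases h : o e = s e <;> simp [h]

/-- If `q` copies of the graph split into `2 a + q` connected spanning classes, there is an
integer flow with absolute values between `a` and `a + q`. -/
theorem flow_of_pack (s t : E → V) (a q : ℕ) (hN : 0 < 2 * a + q)
    (col : E × Fin q → Fin (2 * a + q))
    (hcol : ∀ (i : Fin (2 * a + q)) (x : V → ℝ),
      (∀ e, col e = i → x (s e.1) = x (t e.1)) → ∀ u v, x u = x v) :
    ∃ f : E → ℤ, (∀ v, net s t f v = 0) ∧ ∀ e, (a : ℤ) ≤ |f e| ∧ |f e| ≤ a + q := by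
  obtain ⟨o, ho, hd⟩ := mod_orientation hN (fun e : E × Fin q => s e.1) (fun e => t e.1) col hcol
    (fun v => (∑ e : E × Fin q, if t e.1 = v then (1 : ℤ) else 0) - net s t (fun _ => a) v)
    (by
      rw [Finset.sum_sub_distrib, sum_net, sum_in (fun e : E × Fin q => t e.1)]
      simp)
  set j : E → ℤ := fun e => ∑ i : Fin q, if o (e, i) = s e then 1 else 0 with hj
  have j0 : ∀ e, 0 ≤ j e := fun e => Finset.sum_nonneg fun i _ => by split_ifs <;> norm_num
  have j1 : ∀ e, j e ≤ q := fun e =>
    (Finset.sum_le_sum fun i _ => (by split_ifs <;> norm_num : _ ≤ (1 : ℤ))).trans (by simp)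
  obtain ⟨f, hf, hfe⟩ := lift s t (N := ((2 * a + q : ℕ) : ℤ)) (by exact_mod_cast hN)
    (fun e => a + j e) (fun e => by have := j0 e; positivity)
    (fun e => by have := j1 e; push_cast; linarith [Int.natCast_nonneg a])
    (fun v => by
      have a1 := hd v
      rw [card_tail ho] at a1
      convert a1 using 1
      have a2 : net (fun e : E × Fin q => s e.1) (fun e => t e.1)
          (fun e => if o e = s e.1 then 1 else 0) v = net s t j v := by
        unfold net
        rw [Fintype.sum_prod_type]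
        refine Finset.sum_congr rfl fun e _ => ?_
        simp only [hj]
        by_cases hs : s e = v <;> by_cases ht : t e = v <;> simp [hs, ht]
      have a3 : net s t (fun e => a + j e) v = net s t (fun _ => a) v + net s t j v := by
        unfold net
        rw [← Finset.sum_add_distrib]
        refine Finset.sum_congr rfl fun e _ => ?_
        split_ifs <;> ring
      rw [a2, a3]
      ring)
  refine ⟨f, hf, fun e => ?_⟩
  have a0 := j0 e
  have a1 := j1 e
  have a2 := Int.natCast_nonneg a
  rcases hfe e with h | h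
  · rw [h, abs_of_nonneg (by linarith)]
    constructor <;> linarith
  · rw [h]
    push_cast
    rw [abs_of_nonpos (by linarith)]
    constructor <;> linarith

/-- Orientation with out-degrees prescribed modulo `m` and all cuts balanced. -/
theorem balanced (s t : E → V) (m N q : ℕ) (hN : 0 < 2 * m * N) (hmq : m * q ≤ N)
    (col : E × Fin (2 * m * q) → Fin (2 * m * N))
    (hcol : ∀ (i : Fin (2 * m * N)) (x : V → ℝ),
      (∀ e, col e = i → x (s e.1) = x (t e.1)) → ∀ u v, x u = x v)
    (β : V → ℤ) (hβ : (m : ℤ) ∣ ∑ v, β v - Fintype.card E) :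
    ∃ o : E → V, (∀ e, o e = s e ∨ o e = t e) ∧ (∀ v, (m : ℤ) ∣ (#{e | o e = v} : ℤ) - β v) ∧
      ∀ S : Finset V, ((N : ℤ) - m * q) * #{e | ¬ (s e ∈ S ↔ t e ∈ S)} ≤
        2 * N * #{e | ¬ (s e ∈ S ↔ t e ∈ S) ∧ o e ∈ S} := by
  set d : V → ℤ := fun v => (∑ e, if s e = v then 1 else 0) + ∑ e, if t e = v then 1 else 0
    with hd
  have hdS : ∀ S : Finset V, ∑ v ∈ S, d v =
      ∑ e, ((if s e ∈ S then 1 else 0) + if t e ∈ S then 1 else 0) := fun S => by
    rw [Finset.sum_add_distrib, sum_in, sum_in, Finset.sum_add_distrib]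
  obtain ⟨o', ho', hd'⟩ := mod_orientation hN (fun e : E × Fin (2 * m * q) => s e.1)
    (fun e => t e.1) col hcol (fun v => m * q * d v + N * (2 * β v - d v))
    (by
      obtain ⟨a, ha⟩ := hβ
      refine ⟨a, ?_⟩
      rw [Finset.sum_add_distrib, ← Finset.mul_sum, ← Finset.mul_sum, Finset.sum_sub_distrib,
        ← Finset.mul_sum, hdS, eq_add_of_sub_eq ha]
      simp
      ring)
  set j : E → ℤ := fun e => ∑ i : Fin (2 * m * q), if o' (e, i) = s e then 1 else 0 with hj
  have j0 : ∀ e, 0 ≤ j e := fun e => Finset.sum_nonneg fun i _ => by split_ifs <;> norm_num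
  have j1 : ∀ e, j e ≤ 2 * m * q := fun e =>
    (Finset.sum_le_sum fun i _ => (by split_ifs <;> norm_num : _ ≤ (1 : ℤ))).trans (by simp)
  choose h hh using hd'
  have hN' : (0 : ℤ) < 2 * N := by
    have : 0 < N := Nat.pos_of_mul_pos_left hN
    positivity
  have hmq' : (m : ℤ) * q ≤ N := by exact_mod_cast hmq
  have hy : ∀ v, 2 * N * (β v + m * h v) =
      net s t j v + 2 * m * q * (∑ e, if t e = v then 1 else 0) + (N - m * q) * d v := by
    intro v
    have a1 := hh v
    rw [card_tail ho'] at a1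
    have a2 : net (fun e : E × Fin (2 * m * q) => s e.1) (fun e => t e.1)
        (fun e => if o' e = s e.1 then 1 else 0) v = net s t j v := by
      unfold net
      rw [Fintype.sum_prod_type]
      refine Finset.sum_congr rfl fun e _ => ?_
      simp only [hj]
      by_cases hs : s e = v <;> by_cases ht : t e = v <;> simp [hs, ht]
    have a3 : ∑ e : E × Fin (2 * m * q), (if t e.1 = v then (1 : ℤ) else 0) =
        2 * m * q * ∑ e, if t e = v then 1 else 0 := by
      rw [Fintype.sum_prod_type, Finset.mul_sum]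
      refine Finset.sum_congr rfl fun e _ => ?_
      by_cases ht : t e = v <;> simp [ht]
    rw [a2, a3] at a1
    push_cast at a1
    linear_combination -a1
  have key : ∀ S : Finset V, 2 * N * ∑ v ∈ S, (β v + m * h v) =
      ∑ e, (((if s e ∈ S then j e else 0) - if t e ∈ S then j e else 0) +
        2 * m * q * (if t e ∈ S then 1 else 0) +
        (N - m * q) * ((if s e ∈ S then 1 else 0) + if t e ∈ S then 1 else 0)) := by
    intro S
    rw [Finset.mul_sum, Finset.sum_congr rfl fun v _ => hy v, Finset.sum_add_distrib,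
      Finset.sum_add_distrib, ← Finset.mul_sum, ← Finset.mul_sum, sum_net, sum_in, hdS,
      Finset.mul_sum, Finset.mul_sum, ← Finset.sum_add_distrib, ← Finset.sum_add_distrib]
  obtain ⟨o, ho, hoy⟩ := hakimi s t (fun v => β v + m * h v)
    (by
      apply mul_left_cancel₀ hN'.ne'
      rw [key]
      simp
      ring)
    (fun S => by
      apply le_of_mul_le_mul_left _ hN'
      rw [key, Finset.card_filter]
      push_cast
      rw [Finset.mul_sum]
      refine Finset.sum_le_sum fun e _ => ?_
      have a0 := j0 e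
      have a1 := j1 e
      by_cases hs : s e ∈ S <;> by_cases ht : t e ∈ S <;> simp [hs, ht] <;> linarith)
  refine ⟨o, ho, fun v => ⟨h v, by rw [hoy]; ring⟩, fun S => ?_⟩
  have a1 : ∑ v ∈ S, (β v + m * h v) = ∑ e, if o e ∈ S then 1 else 0 := by
    rw [← sum_in]
    refine Finset.sum_congr rfl fun v _ => ?_
    rw [← hoy, Finset.card_filter]
    push_cast
    rfl
  have a2 := key S
  rw [a1, Finset.mul_sum, ← sub_eq_zero, ← Finset.sum_sub_distrib] at a2
  rw [Finset.card_filter, Finset.card_filter]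
  push_cast
  rw [Finset.mul_sum, Finset.mul_sum, ← sub_nonneg, ← Finset.sum_sub_distrib]
  refine a2.ge.trans (Finset.sum_le_sum fun e _ => ?_)
  have a0 := j0 e
  have a1 := j1 e
  rcases ho e with h | h <;> by_cases hs : s e ∈ S <;> by_cases ht : t e ∈ S <;>
    simp [h, hs, ht] <;> linarith

/-- The same from the partition condition with a rational constant. -/
theorem balanced_of_partition (s t : E → V) (m : ℕ) (hm : 0 < m) (τ : ℚ) (hτ : m ≤ τ)
    (hP : ∀ P : Finpartition (univ : Finset V),
      τ * (#P.parts - 1) ≤ #{e | P.part (s e) ≠ P.part (t e)})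
    (β : V → ℤ) (hβ : (m : ℤ) ∣ ∑ v, β v - Fintype.card E) :
    ∃ o : E → V, (∀ e, o e = s e ∨ o e = t e) ∧ (∀ v, (m : ℤ) ∣ (#{e | o e = v} : ℤ) - β v) ∧
      ∀ S : Finset V, (τ - m) * #{e | ¬ (s e ∈ S ↔ t e ∈ S)} ≤
        2 * τ * #{e | ¬ (s e ∈ S ↔ t e ∈ S) ∧ o e ∈ S} := by
  rcases isEmpty_or_nonempty V with hV | hV
  · refine ⟨s, fun e => Or.inl rfl, fun v => (hV.false v).elim, fun S => ?_⟩
    have : IsEmpty E := ⟨fun e => hV.false (s e)⟩
    simp [Finset.univ_eq_empty]
  have hm' : (0 : ℚ) < m := by exact_mod_cast hm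
  obtain ⟨N, q, hq, rfl⟩ : ∃ N q : ℕ, 0 < q ∧ τ = N / q := by
    refine ⟨τ.num.toNat, τ.den, τ.den_pos, ?_⟩
    have : ((τ.num.toNat : ℕ) : ℚ) = τ.num := by
      exact_mod_cast Int.toNat_of_nonneg (Rat.num_nonneg.2 (hm'.le.trans hτ))
    rw [this, Rat.num_div_den]
  have hq' : (0 : ℚ) < q := by exact_mod_cast hq
  have hmq : m * q ≤ N := by
    rw [le_div_iff₀ hq'] at hτ
    exact_mod_cast hτ
  have hN : 0 < 2 * m * N := by
    have := (Nat.mul_pos hm hq).trans_le hmq
    positivity
  obtain ⟨col, hcol⟩ := packP (fun e : E × Fin (2 * m * q) => s e.1) (fun e => t e.1) _ hN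
    (fun P => by
      have h3 : #{e : E × Fin (2 * m * q) | P.part (s e.1) ≠ P.part (t e.1)} =
          #{e | P.part (s e) ≠ P.part (t e)} * (2 * m * q) := by
        rw [← Finset.univ_product_univ,
          Finset.filter_product_left (fun e => P.part (s e) ≠ P.part (t e)), Finset.card_product]
        simp
      have h4 := hP P
      rw [div_mul_eq_mul_div, div_le_iff₀ hq'] at h4
      rw [h3]
      have h5 := mul_le_mul_of_nonneg_left h4 (by positivity : (0 : ℚ) ≤ 2 * m)
      have h6 : (2 * m * N * #P.parts : ℚ) ≤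
          2 * m * N + #{e | P.part (s e) ≠ P.part (t e)} * (2 * m * q) := by linarith
      exact_mod_cast h6)
  obtain ⟨o, h1, h2, h3⟩ := balanced s t m N q hN hmq col hcol β hβ
  refine ⟨o, h1, h2, fun S => ?_⟩
  have h4 : ((N : ℚ) - m * q) * #{e | ¬ (s e ∈ S ↔ t e ∈ S)} ≤
      2 * N * #{e | ¬ (s e ∈ S ↔ t e ∈ S) ∧ o e ∈ S} := by exact_mod_cast h3 S
  have h5 : (N : ℚ) / q - m = (N - m * q) / q := by field_simp
  rw [h5, ← mul_div_assoc, div_mul_eq_mul_div, div_mul_eq_mul_div]
  exact div_le_div_of_nonneg_right h4 hq'.le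

/-- The sharp bound for `k`-edge-connected multigraphs on `n` vertices. -/
theorem flow_of_cut [Nonempty V] (s t : E → V) (k : ℕ) (hk : 2 ≤ k)
    (hcut : ∀ A : Finset V, A.Nonempty → A ≠ univ → k ≤ #{e | ¬ (s e ∈ A ↔ t e ∈ A)}) :
    ∃ f : E → ℤ, (∀ v, net s t f v = 0) ∧ ∀ e,
      ((k : ℤ) - 2) * Fintype.card V + 2 ≤ |f e| ∧ |f e| ≤ ((k : ℤ) + 2) * Fintype.card V - 2 := by
  obtain ⟨k, rfl⟩ := Nat.exists_eq_add_of_le' hk
  obtain ⟨n, hn⟩ : ∃ n, Fintype.card V = n + 1 :=
    ⟨_, (Nat.succ_pred_eq_of_pos Fintype.card_pos).symm⟩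
  have hN : 0 < 2 * (k * (n + 1) + 2) + 4 * n := by omega
  obtain ⟨col, hcol⟩ := packN (fun e : E × Fin (4 * n) => s e.1) (fun e => t e.1)
    ((k + 2) * (4 * n)) _ hN
    (fun A h1 h2 => by
      have h3 : cutN univ (fun e : E × Fin (4 * n) => s e.1) (fun e => t e.1) A =
          #{e | ¬ (s e ∈ A ↔ t e ∈ A)} * (4 * n) := by
        rw [cutN, ← Finset.univ_product_univ,
          Finset.filter_product_left (fun e => ¬ (s e ∈ A ↔ t e ∈ A)), Finset.card_product]
        simp
      rw [h3]
      exact Nat.mul_le_mul_right _ (hcut A h1 h2))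
    (by rw [hn, Nat.add_sub_cancel]; exact le_of_eq (by ring))
  obtain ⟨f, h1, h2⟩ := flow_of_pack s t _ _ hN col hcol
  refine ⟨f, h1, fun e => ?_⟩
  have := h2 e
  rw [hn]
  push_cast at this ⊢
  constructor <;> linarith [this.1, this.2]

omit [Fintype V] [DecidableEq E] in
theorem net_eq (s t : E → V) (f : E → ℤ) (v : V) :
    net s t f v = ∑ e with s e = v, f e - ∑ e with t e = v, f e := by
  rw [net, Finset.sum_sub_distrib, Finset.sum_filter, Finset.sum_filter]

end Pool.Agent.Lib.MP_1c8ed6_co.Flow
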