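import Mathlib
import Pool.Agent.Lib.MP_1c8ed6_co.H54Five

namespace Pool.Agent.Results.MP_1c8ed6_co.PathThree

/-- Five edge-disjoint spanning trees give a decomposition into paths with three edges. -/
theorem result :
    ∀ {V : Type} [Fintype V] [DecidableEq V] (G : SimpleGraph V) [DecidableRel G.Adj],
      (∃ F : Fin 5 → SimpleGraph V,
          (∀ i, F i ≤ G ∧ (F i).IsTree) ∧
          Pairwise (fun i j => Disjoint (F i) (F j))) →
      3 ∣ G.edgeFinset.card →
      ∃ (n : ℕ) (H : Fin n → G.Subgraph),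
        (∀ i, Nonempty (SimpleGraph.pathGraph 4 ≃g (H i).coe)) ∧
        Pairwise (fun i j => Disjoint (H i).edgeSet (H j).edgeSet) ∧
        (∀ e ∈ G.edgeSet, ∃ i, e ∈ (H i).edgeSet) :=
  fun G _ ⟨F, hF, hd⟩ h3 =>
    Pool.Agent.Lib.MP_1c8ed6_co.H54.path_decomposition G F
      (fun i => ⟨(hF i).1, (hF i).2.1⟩) hd h3

end Pool.Agent.Results.MP_1c8ed6_co.PathThree
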