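import Pool.Agent.Lib.MP_ae5681_co.Main

set_option autoImplicit false

namespace Pool.Agent.Results.MP_1c8ed6_co.Polynomial

/-- A number of edge-disjoint spanning trees polynomial in the size of `T` suffices, for all trees. -/
theorem result :
    ∀ {V : Type} [Fintype V] [DecidableEq V] (G : SimpleGraph V) [DecidableRel G.Adj]
      {W : Type} [Fintype W] [DecidableEq W] (T : SimpleGraph W) [DecidableRel T.Adj],
      T.IsTree →
      (∃ F : Fin (294912 * T.edgeFinset.card ^ 9) → SimpleGraph V,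
          (∀ i, F i ≤ G ∧ (F i).IsTree) ∧
          Pairwise (fun i j => Disjoint (F i) (F j))) →
      T.edgeFinset.card ∣ G.edgeFinset.card →
      ∃ (n : ℕ) (H : Fin n → G.Subgraph),
        (∀ i, Nonempty (T ≃g (H i).coe)) ∧
        Pairwise (fun i j => Disjoint (H i).edgeSet (H j).edgeSet) ∧
        (∀ e ∈ G.edgeSet, ∃ i, e ∈ (H i).edgeSet) := by
  intro V _ _ G _ W _ _ T _ hT ⟨F, hF1, hF2⟩ hdvd
  have e1 : T.edgeSet.ncard = T.edgeFinset.card := by
    rw [← SimpleGraph.coe_edgeFinset, Set.ncard_coe_finset]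
  have e2 : G.edgeSet.ncard = G.edgeFinset.card := by
    rw [← SimpleGraph.coe_edgeFinset, Set.ncard_coe_finset]
  obtain ⟨k, H, h1, h2⟩ := Pool.Agent.Lib.MP_ae5681_co.tree_decomp W T hT V G (fun s hs => by
    rw [e1] at hs
    by_contra hc
    have h3 : ∀ i, ∃ e, e ∈ (F i).edgeSet ∧ e ∈ s := by
      intro i
      by_contra h4
      apply hc
      apply (hF1 i).2.connected.mono
      intro u v huv
      exact SimpleGraph.deleteEdges_adj.2 ⟨(hF1 i).1 huv, fun h5 => h4 ⟨_, huv, h5⟩⟩
    choose f hf1 hf2 using h3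
    have h4 : Function.Injective f := by
      intro i j hij
      by_contra h5
      have h6 := SimpleGraph.disjoint_edgeSet.2 (hF2 h5)
      exact Set.disjoint_left.1 h6 (hf1 i) (hij ▸ hf1 j)
    have h5 := Set.ncard_le_ncard_of_injOn (s := Set.univ) (t := s) f (fun i _ => hf2 i)
      h4.injOn (Set.toFinite _)
    rw [Set.ncard_univ, Nat.card_eq_fintype_card, Fintype.card_fin] at h5
    omega) (by rw [e1, e2]; exact hdvd)
  refine ⟨k, H, h1, fun i j hij => Set.disjoint_left.2 fun e hi hj => hij ?_,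
    fun e he => (h2 e he).exists⟩
  exact (h2 e ((H i).edgeSet_subset hi)).unique hi hj

end Pool.Agent.Results.MP_1c8ed6_co.Polynomial
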